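import Mathlib

-- part MP_28f04c_an.Filled
section

/-!
The filled Julia set of a polynomial: elementary properties.
-/

set_option autoImplicit false

open Set Filter Topology Metric

namespace Pool.Agent.MP_28f04c_an

/-- Evaluation of a polynomial as a function. -/
noncomputable def ev (f : Polynomial ℂ) : ℂ → ℂ := fun w => f.eval w

/-- The filled Julia set. -/
def KK (f : Polynomial ℂ) : Set ℂ :=
  {z : ℂ | Bornology.IsBounded (Set.range (fun n : ℕ => (ev f)^[n] z))}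

/-- `R` is an escape radius. -/
def Esc (f : Polynomial ℂ) (R : ℝ) : Prop := 1 ≤ R ∧ ∀ z, R ≤ ‖z‖ → 2 * ‖z‖ ≤ ‖ev f z‖

theorem diff_ev (f : Polynomial ℂ) : Differentiable ℂ (ev f) := f.differentiable

theorem cont_iter (f : Polynomial ℂ) (n : ℕ) : Continuous (ev f)^[n] :=
  (diff_ev f).continuous.iterate n

theorem exists_esc {f : Polynomial ℂ} (hd : 2 ≤ f.natDegree) : ∃ R, Esc f R := by
  have h1 : 0 < f.divX.degree := by
    rw [← Polynomial.natDegree_pos_iff_degree_pos, Polynomial.natDegree_divX_eq_natDegree_tsub_one]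
    omega
  have h2 := (f.divX.tendsto_norm_atTop h1 (z := id) (l := Bornology.cobounded ℂ)
    tendsto_norm_cobounded_atTop).eventually_ge_atTop (2 + ‖f.coeff 0‖)
  rw [← comap_norm_atTop, eventually_comap, eventually_atTop] at h2
  obtain ⟨R, hR⟩ := h2
  refine ⟨max R 1, le_max_right _ _, fun z hz => ?_⟩
  have h3 := hR _ ((le_max_left _ _).trans hz) z rfl
  have h4 : 1 ≤ ‖z‖ := (le_max_right _ _).trans hz
  have h5 : ev f z = f.divX.eval z * z + f.coeff 0 := by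
    conv_lhs => rw [ev, ← f.divX_mul_X_add]
    simp
  have h6 := norm_sub_le (ev f z) (f.coeff 0)
  rw [h5, add_sub_cancel_right, norm_mul, ← h5] at h6
  simp only [id] at h3
  nlinarith [norm_nonneg (f.coeff 0)]

namespace Esc

variable {f : Polynomial ℂ} {R : ℝ}

theorem mono (h : Esc f R) {R' : ℝ} (hR : R ≤ R') : Esc f R' :=
  ⟨h.1.trans hR, fun z hz => h.2 z (hR.trans hz)⟩

theorem iter_ge (h : Esc f R) {z : ℂ} (hz : R ≤ ‖z‖) (n : ℕ) : 2 ^ n * ‖z‖ ≤ ‖(ev f)^[n] z‖ := by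
  induction n with
  | zero => simp
  | succ n ih =>
    rw [Function.iterate_succ_apply', pow_succ', mul_assoc]
    have h1 : (1 : ℝ) ≤ 2 ^ n := one_le_pow₀ (by norm_num)
    have h2 : R ≤ ‖(ev f)^[n] z‖ := by nlinarith [h.1]
    linarith [h.2 _ h2]

theorem le_iter (h : Esc f R) {z : ℂ} (hz : R ≤ ‖z‖) (n : ℕ) : ‖z‖ ≤ ‖(ev f)^[n] z‖ := by
  have h1 : (1 : ℝ) ≤ 2 ^ n := one_le_pow₀ (by norm_num)
  nlinarith [h.iter_ge hz n, norm_nonneg z]

theorem le_iter' (h : Esc f R) {z : ℂ} {n m : ℕ} (hz : R ≤ ‖(ev f)^[n] z‖) (hnm : n ≤ m) :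
    ‖(ev f)^[n] z‖ ≤ ‖(ev f)^[m] z‖ := by
  obtain ⟨k, rfl⟩ := Nat.exists_eq_add_of_le' hnm
  rw [Function.iterate_add_apply]
  exact h.le_iter hz k

theorem lt_of_mem (h : Esc f R) {z : ℂ} (hz : z ∈ KK f) (n : ℕ) : ‖(ev f)^[n] z‖ < R := by
  by_contra hc
  push Not at hc
  obtain ⟨B, hB⟩ := Bornology.IsBounded.exists_norm_le
    (show Bornology.IsBounded (Set.range (fun n : ℕ => (ev f)^[n] z)) from hz)
  obtain ⟨k, hk⟩ := pow_unbounded_of_one_lt B (show (1 : ℝ) < 2 by norm_num)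
  have h1 := h.iter_ge hc k
  rw [← Function.iterate_add_apply] at h1
  have h2 := hB _ ⟨k + n, rfl⟩
  have h3 : (0 : ℝ) < 2 ^ k := by positivity
  simp only at h2
  nlinarith [h.1]

theorem mem_iff (h : Esc f R) {z : ℂ} : z ∈ KK f ↔ ∀ n, ‖(ev f)^[n] z‖ ≤ R := by
  refine ⟨fun hz n => (h.lt_of_mem hz n).le, fun hz => ?_⟩
  refine (isBounded_closedBall (x := (0 : ℂ)) (r := R)).subset ?_
  rintro _ ⟨n, rfl⟩
  simpa using hz n

theorem not_mem_iff (h : Esc f R) {z : ℂ} : z ∉ KK f ↔ ∃ n, R < ‖(ev f)^[n] z‖ := by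
  rw [h.mem_iff]; push Not; rfl

theorem norm_lt (h : Esc f R) {z : ℂ} (hz : z ∈ KK f) : ‖z‖ < R := h.lt_of_mem hz 0

theorem isClosed (h : Esc f R) : IsClosed (KK f) := by
  have : KK f = ⋂ n, {z | ‖(ev f)^[n] z‖ ≤ R} := by
    ext z; simp [h.mem_iff]
  rw [this]
  exact isClosed_iInter fun n => isClosed_le (cont_iter f n).norm continuous_const

theorem isCompact (h : Esc f R) : IsCompact (KK f) :=
  (isCompact_closedBall (0 : ℂ) R).of_isClosed_subset h.isClosed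
    fun z hz => by simpa using (h.norm_lt hz).le

theorem map_mem_iff (h : Esc f R) {z : ℂ} : ev f z ∈ KK f ↔ z ∈ KK f := by
  constructor
  · intro hz
    by_contra hc
    obtain ⟨n, hn⟩ := h.not_mem_iff.mp hc
    have h1 := h.le_iter' hn.le (Nat.le_succ n)
    have h2 := h.lt_of_mem hz n
    rw [← Function.iterate_succ_apply] at h2
    linarith
  · intro hz
    rw [h.mem_iff] at hz ⊢
    intro n
    rw [← Function.iterate_succ_apply]
    exact hz _

theorem iter_mem_iff (h : Esc f R) {z : ℂ} (n : ℕ) : (ev f)^[n] z ∈ KK f ↔ z ∈ KK f := by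
  induction n with
  | zero => simp
  | succ n ih => rw [Function.iterate_succ_apply', h.map_mem_iff, ih]

theorem map_interior (h : Esc f R) (hd : 2 ≤ f.natDegree) {z : ℂ} (hz : z ∈ interior (KK f)) :
    ev f z ∈ interior (KK f) := by
  have ho : IsOpenMap (ev f) := (f.isOpenQuotientMap_eval (by omega)).isOpenMap
  refine interior_maximal ?_ (ho _ isOpen_interior) ⟨z, hz, rfl⟩
  rintro _ ⟨w, hw, rfl⟩
  exact h.map_mem_iff.mpr (interior_subset hw)

theorem iter_interior (h : Esc f R) (hd : 2 ≤ f.natDegree) {z : ℂ} (hz : z ∈ interior (KK f))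
    (n : ℕ) : (ev f)^[n] z ∈ interior (KK f) := by
  induction n with
  | zero => simpa
  | succ n ih => rw [Function.iterate_succ_apply']; exact h.map_interior hd ih

theorem interior_of_iter (h : Esc f R) {z : ℂ} {n : ℕ} (hz : (ev f)^[n] z ∈ interior (KK f)) :
    z ∈ interior (KK f) := by
  refine interior_maximal (t := (ev f)^[n] ⁻¹' interior (KK f)) ?_
    (isOpen_interior.preimage (cont_iter f n)) hz
  intro w hw
  exact (h.iter_mem_iff n).mp (interior_subset hw)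

theorem frontier_of_map (h : Esc f R) (hd : 2 ≤ f.natDegree) {z : ℂ}
    (hz : ev f z ∈ frontier (KK f)) : z ∈ frontier (KK f) := by
  rw [h.isClosed.frontier_eq] at hz ⊢
  exact ⟨h.map_mem_iff.mp hz.1, fun hc => hz.2 (h.map_interior hd hc)⟩

end Esc

theorem isOpenMap_iter {f : Polynomial ℂ} (hd : 2 ≤ f.natDegree) (n : ℕ) :
    IsOpenMap (ev f)^[n] := by
  induction n with
  | zero => simpa using IsOpenMap.id
  | succ n ih =>
    rw [Function.iterate_succ']
    exact IsOpenMap.comp (f.isOpenQuotientMap_eval (by omega)).isOpenMap ih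

end Pool.Agent.MP_28f04c_an

end

-- part MP_28f04c_an.LogBranch
section

/-!
A holomorphic branch of the logarithm of `(f z - a) / (c (z - a) ^ d)` on the basin of infinity,
when the Julia set is connected.
-/

set_option autoImplicit false

open Set Filter Topology Metric Complex

namespace Pool.Agent.MP_28f04c_an

/-- Points whose `N`-th iterate is outside the disc of radius `4 R`. -/
def Om (f : Polynomial ℂ) (R : ℝ) (N : ℕ) : Set ℂ := {z | 4 * R < ‖(ev f)^[N] z‖}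

theorem isOpen_Om (f : Polynomial ℂ) (R : ℝ) (N : ℕ) : IsOpen (Om f R N) :=
  isOpen_lt continuous_const (cont_iter f N).norm

namespace Esc

variable {f : Polynomial ℂ} {R : ℝ}

theorem four (h : Esc f R) : Esc f (4 * R) := h.mono (by linarith [h.1])

theorem Om_mono (h : Esc f R) {N M : ℕ} (hNM : N ≤ M) : Om f R N ⊆ Om f R M :=
  fun _ hz => lt_of_lt_of_le hz (h.four.le_iter' (le_of_lt hz) hNM)

theorem Om_not_mem (h : Esc f R) {N : ℕ} {z : ℂ} (hz : z ∈ Om f R N) : z ∉ KK f :=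
  h.four.not_mem_iff.mpr ⟨N, hz⟩

theorem exists_Om (h : Esc f R) {z : ℂ} (hz : z ∉ KK f) : ∃ N, z ∈ Om f R N :=
  h.four.not_mem_iff.mp hz

theorem log_pair (h : Esc f R) (hJ : IsPreconnected (frontier (KK f))) (N : ℕ) {a b : ℂ}
    (ha : a ∈ frontier (KK f)) (hb : b ∈ frontier (KK f)) :
    ∃ (l : ℂ → ℂ) (C : ℝ), DifferentiableOn ℂ l (Om f R N) ∧
      (∀ z ∈ Om f R N, cexp (l z) * (z - a) = z - b) ∧ ∀ z, 4 * R < ‖z‖ → ‖l z‖ ≤ C / ‖z‖ := by
  obtain ⟨δ, hδ, hδ'⟩ := h.isCompact.exists_thickening_subset_open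
    (t := {z | ‖(ev f)^[N] z‖ < 4 * R}) (isOpen_lt (cont_iter f N).norm continuous_const)
    (fun z hz => h.four.lt_of_mem hz N)
  have hfar : ∀ x ∈ KK f, ∀ z ∈ Om f R N, δ ≤ ‖z - x‖ := by
    intro x hx z hz
    by_contra hc
    have : z ∈ thickening δ (KK f) :=
      mem_thickening_iff.mpr ⟨x, hx, by rw [dist_eq_norm]; exact not_le.mp hc⟩
    have h1 : ‖(ev f)^[N] z‖ < 4 * R := hδ' this
    have h2 : 4 * R < ‖(ev f)^[N] z‖ := hz
    linarith
  have hJK : frontier (KK f) ⊆ KK f := h.isClosed.frontier_subset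
  have loc : ∀ a ∈ KK f, ∀ b, ‖a - b‖ < δ / 2 →
      ∃ (l : ℂ → ℂ) (C : ℝ), DifferentiableOn ℂ l (Om f R N) ∧
      (∀ z ∈ Om f R N, cexp (l z) * (z - a) = z - b) ∧ ∀ z, 4 * R < ‖z‖ → ‖l z‖ ≤ C / ‖z‖ := by
    intro a ha b hab
    have h0 : ∀ z ∈ Om f R N, z - a ≠ 0 := fun z hz =>
      norm_pos_iff.mp (hδ.trans_le (hfar a ha z hz))
    have h1 : ∀ z ∈ Om f R N, ‖(a - b) / (z - a)‖ ≤ 1 / 2 := fun z hz => by
      rw [norm_div, div_le_iff₀ (norm_pos_iff.mpr (h0 z hz))]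
      linarith [hfar a ha z hz]
    have h2 : ∀ z ∈ Om f R N, 1 + (a - b) / (z - a) ∈ slitPlane := fun z hz =>
      mem_slitPlane_of_norm_lt_one ((h1 z hz).trans_lt (by norm_num))
    refine ⟨fun z => log (1 + (a - b) / (z - a)), 2 * ‖a - b‖, ?_, fun z hz => ?_, fun z hz => ?_⟩
    · refine DifferentiableOn.clog ?_ h2
      exact (differentiableOn_const _).add
        ((differentiableOn_const _).div (by fun_prop) h0)
    · rw [exp_log (slitPlane_ne_zero (h2 z hz))]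
      field_simp [h0 z hz]
      ring
    · have hz' : z ∈ Om f R N := h.Om_mono (Nat.zero_le N) hz
      refine (norm_log_one_add_half_le_self (h1 z hz')).trans ?_
      have k1 := h.norm_lt ha
      have k2 := norm_sub_norm_le z a
      have k3 : 0 < ‖z‖ := by linarith [h.1]
      rw [norm_div, ← mul_div_assoc, div_le_div_iff₀ (norm_pos_iff.mpr (h0 z hz')) k3]
      nlinarith [norm_nonneg (a - b)]
  refine hJ.induction₂' (fun a b => ∃ (l : ℂ → ℂ) (C : ℝ), DifferentiableOn ℂ l (Om f R N) ∧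
      (∀ z ∈ Om f R N, cexp (l z) * (z - a) = z - b) ∧ ∀ z, 4 * R < ‖z‖ → ‖l z‖ ≤ C / ‖z‖)
    ?_ ?_ ha hb
  · intro x hx
    filter_upwards [self_mem_nhdsWithin,
      mem_nhdsWithin_of_mem_nhds (ball_mem_nhds x (half_pos hδ))] with y hy hxy
    rw [mem_ball, dist_eq_norm] at hxy
    exact ⟨loc x (hJK hx) y (by rwa [norm_sub_rev]), loc y (hJK hy) x hxy⟩
  · rintro x y z - - - ⟨l, C, h1, h2, h3⟩ ⟨l', C', k1, k2, k3⟩
    refine ⟨fun w => l w + l' w, C + C', h1.add k1, fun w hw => ?_, fun w hw => ?_⟩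
    · rw [Complex.exp_add, ← k2 w hw, ← h2 w hw]; ring
    · rw [add_div]
      exact (norm_add_le _ _).trans (add_le_add (h3 w hw) (k3 w hw))

theorem log_multiset (h : Esc f R) (hJ : IsPreconnected (frontier (KK f))) (N : ℕ) {a : ℂ}
    (ha : a ∈ frontier (KK f)) (S : Multiset ℂ) (hS : ∀ b ∈ S, b ∈ frontier (KK f)) :
    ∃ (l : ℂ → ℂ) (C : ℝ), DifferentiableOn ℂ l (Om f R N) ∧
      (∀ z ∈ Om f R N, cexp (l z) * (z - a) ^ S.card = (S.map (z - ·)).prod) ∧
      ∀ z, 4 * R < ‖z‖ → ‖l z‖ ≤ C / ‖z‖ := by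
  induction S using Multiset.induction_on with
  | empty => exact ⟨fun _ => 0, 0, differentiableOn_const _, by simp, by simp⟩
  | cons b S ih =>
    obtain ⟨l, C, h1, h2, h3⟩ := ih fun c hc => hS c (Multiset.mem_cons_of_mem hc)
    obtain ⟨l', C', k1, k2, k3⟩ := h.log_pair hJ N ha (hS b (Multiset.mem_cons_self _ _))
    refine ⟨fun w => l w + l' w, C + C', h1.add k1, fun w hw => ?_, fun w hw => ?_⟩
    · rw [Multiset.map_cons, Multiset.prod_cons, Multiset.card_cons, Complex.exp_add, ← k2 w hw,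
        ← h2 w hw]
      ring
    · rw [add_div]
      exact (norm_add_le _ _).trans (add_le_add (h3 w hw) (k3 w hw))

theorem log_unique (h : Esc f R) {N : ℕ} {u : ℂ → ℂ} (hu : ContinuousOn u (Om f R N))
    (he : ∀ z ∈ Om f R N, cexp (u z) = 1) {C : ℝ} (hb : ∀ z, 4 * R < ‖z‖ → ‖u z‖ ≤ C / ‖z‖) :
    ∀ z ∈ Om f R N, u z = 0 := by
  have small : ∀ w : ℂ, cexp w = 1 → ‖w‖ < 1 → w = 0 := by
    intro w hw h1
    obtain ⟨n, rfl⟩ := exp_eq_one_iff.mp hw
    have h2 : ‖(n : ℂ) * (2 * Real.pi * I)‖ = |(n : ℝ)| * (2 * Real.pi) := by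
      simp [abs_of_pos Real.pi_pos]
    rw [h2] at h1
    have h3 : |(n : ℝ)| < 1 := by nlinarith [Real.pi_gt_three, abs_nonneg (n : ℝ)]
    have h4 : |n| < 1 := by exact_mod_cast h3
    rw [Int.abs_lt_one_iff.mp h4]; simp
  have loc : ∀ z ∈ Om f R N, ∀ᶠ w in 𝓝 z, w ∈ Om f R N ∧ u w = u z := by
    intro z hz
    have h1 := (isOpen_Om f R N).mem_nhds hz
    have h2 := (hu.continuousAt h1).eventually (ball_mem_nhds (u z) one_pos)
    filter_upwards [h1, h2] with w hw hw'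
    refine ⟨hw, sub_eq_zero.mp (small _ ?_ (by rwa [dist_eq_norm] at hw'))⟩
    rw [Complex.exp_sub, he w hw, he z hz, div_one]
  set Z := {z | z ∈ Om f R N ∧ u z ≠ 0} with hZ
  have hZb : Bornology.IsBounded Z := by
    refine (isBounded_closedBall (x := (0 : ℂ)) (r := max (4 * R) C)).subset fun z hz => ?_
    by_contra hc
    rw [mem_closedBall, dist_zero_right, not_le, max_lt_iff] at hc
    refine hz.2 (small _ (he z hz.1) ((hb z hc.1).trans_lt ?_))
    rw [div_lt_one (by linarith [h.1, hc.1])]; exact hc.2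
  have hfr : ∀ z ∈ frontier Z, ‖(ev f)^[N] z‖ ≤ 4 * R := by
    intro z hz
    by_contra hc
    have hz' : z ∈ Om f R N := not_le.mp hc
    by_cases h0 : u z = 0
    · have := mem_closure_iff_frequently.mp hz.1
      obtain ⟨w, hw1, hw2⟩ := (this.and_eventually (loc z hz')).exists
      exact hw1.2 (hw2.2.trans h0)
    · refine hz.2 (mem_interior_iff_mem_nhds.mpr ?_)
      filter_upwards [loc z hz'] with w hw
      exact ⟨hw.1, by rw [hw.2]; exact h0⟩
  intro z hz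
  by_contra hc
  have := norm_le_of_forall_mem_frontier_norm_le hZb
    ((diff_ev f).iterate N).diffContOnCl hfr (subset_closure (show z ∈ Z from ⟨hz, hc⟩))
  exact absurd hz (not_lt.mpr this)

theorem exists_log (h : Esc f R) (hd : 2 ≤ f.natDegree) (hJ : IsPreconnected (frontier (KK f)))
    {a : ℂ} (ha : a ∈ frontier (KK f)) :
    ∃ (l : ℂ → ℂ) (C : ℝ) (c : ℂ), c ≠ 0 ∧ DifferentiableOn ℂ l (KK f)ᶜ ∧
      (∀ z ∉ KK f, c * cexp (l z) * (z - a) ^ f.natDegree = ev f z - a) ∧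
      ∀ z, 4 * R < ‖z‖ → ‖l z‖ ≤ C / ‖z‖ := by
  set q := f - Polynomial.C a with hq
  have hqd : q.natDegree = f.natDegree := by rw [hq, Polynomial.natDegree_sub_C]
  have hq0 : q ≠ 0 := by
    intro h; rw [h] at hqd; simp at hqd; omega
  have hqe : ∀ z, q.eval z = ev f z - a := fun z => by simp [hq, ev]
  have hroots : ∀ b ∈ q.roots, b ∈ frontier (KK f) := by
    intro b hb
    rw [Polynomial.mem_roots hq0, Polynomial.IsRoot, hqe, sub_eq_zero] at hb
    exact h.frontier_of_map hd (hb ▸ ha)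
  have haK : a ∈ KK f := h.isClosed.frontier_subset ha
  choose l C h1 h2 h3 using fun N => h.log_multiset hJ N ha q.roots hroots
  have hcons : ∀ N M, N ≤ M → ∀ z ∈ Om f R N, l N z = l M z := by
    intro N M hNM z hz
    refine sub_eq_zero.mp (h.log_unique (u := fun z => l N z - l M z) (C := C N + C M)
      ((h1 N).continuousOn.sub ((h1 M).continuousOn.mono (h.Om_mono hNM))) (fun w hw => ?_)
      (fun w hw => ?_) z hz)
    · have k1 := h2 N w hw
      rw [← h2 M w (h.Om_mono hNM hw)] at k1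
      have k2 : w - a ≠ 0 := sub_ne_zero.mpr fun e => h.Om_not_mem hw (e ▸ haK)
      rw [Complex.exp_sub, mul_right_cancel₀ (pow_ne_zero _ k2) k1, div_self (exp_ne_zero _)]
    · rw [add_div]
      exact (norm_sub_le _ _).trans (add_le_add (h3 N w hw) (h3 M w hw))
  have hn : ∀ z, ∃ n, z ∉ KK f → z ∈ Om f R n := fun z => by
    by_cases hz : z ∈ KK f
    · exact ⟨0, fun h => absurd hz h⟩
    · obtain ⟨n, hn⟩ := h.exists_Om hz
      exact ⟨n, fun _ => hn⟩
  choose n hn using hn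
  have heq : ∀ N, ∀ z ∈ Om f R N, l (n z) z = l N z := fun N z hz =>
    (hcons _ _ (le_max_left _ N) z (hn z (h.Om_not_mem hz))).trans
      (hcons _ _ (le_max_right (n z) N) z hz).symm
  refine ⟨fun z => l (n z) z, C 0, q.leadingCoeff, Polynomial.leadingCoeff_ne_zero.mpr hq0,
    fun z hz => ?_, fun z hz => ?_, fun z hz => ?_⟩
  · have k1 := (isOpen_Om f R (n z)).mem_nhds (hn z hz)
    refine (((h1 (n z)).differentiableAt k1).congr_of_eventuallyEq ?_).differentiableWithinAt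
    filter_upwards [k1] with w hw using heq _ w hw
  · rw [← hqe, (IsAlgClosed.splits q).eval_eq_prod_roots, ← h2 (n z) z (hn z hz),
      IsAlgClosed.card_roots_eq_natDegree, hqd, mul_assoc]
  · simp only
    rw [heq 0 z hz]; exact h3 0 z hz

end Esc

end Pool.Agent.MP_28f04c_an

end

-- part MP_28f04c_an.Basic
section

/-!
Elementary estimates for entire functions and polynomials.
-/

set_option autoImplicit false

open Set Filter Topology Metric

namespace Pool.Agent.MP_28f04c_an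

theorem exists_lip_closedBall {G : ℂ → ℂ} (hG : Differentiable ℂ G) (R : ℝ) :
    ∃ C, 0 < C ∧ ∀ x ∈ closedBall (0 : ℂ) R, ∀ y ∈ closedBall (0 : ℂ) R,
      ‖G x - G y‖ ≤ C * ‖x - y‖ := by
  have hc : Continuous (deriv G) := (hG.deriv).continuous
  obtain ⟨C, hC⟩ := (isCompact_closedBall (0 : ℂ) R).exists_bound_of_continuousOn hc.continuousOn
  refine ⟨max C 1, by positivity, fun x hx y hy => ?_⟩
  exact (convex_closedBall (0 : ℂ) R).norm_image_sub_le_of_norm_deriv_le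
    (fun z _ => hG z) (fun z hz => (hC z hz).trans (le_max_left _ _)) hy hx

/-- Second order estimate. -/
theorem exists_quad {G : ℂ → ℂ} (hG : Differentiable ℂ G) (R : ℝ) :
    ∃ C, 0 < C ∧ ∀ q ∈ closedBall (0 : ℂ) R, ∀ x ∈ closedBall (0 : ℂ) R,
      ∀ y ∈ closedBall (0 : ℂ) R,
      ‖G x - G y - deriv G q * (x - y)‖ ≤ C * max ‖x - q‖ ‖y - q‖ * ‖x - y‖ := by
  obtain ⟨C, hC0, hC⟩ := exists_lip_closedBall hG.deriv R
  refine ⟨C, hC0, fun q hq x hx y hy => ?_⟩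
  set m := max ‖x - q‖ ‖y - q‖ with hm
  have hconv : Convex ℝ (closedBall (0 : ℂ) R ∩ closedBall q m) :=
    (convex_closedBall _ _).inter (convex_closedBall _ _)
  have hd : ∀ z, HasDerivAt (fun z => G z - deriv G q * z) (deriv G z - deriv G q) z := fun z => by
    simpa using (hG z).hasDerivAt.fun_sub ((hasDerivAt_id z).const_mul (deriv G q))
  have := hconv.norm_image_sub_le_of_norm_hasDerivWithin_le (C := C * m)
    (f := fun z => G z - deriv G q * z) (f' := fun z => deriv G z - deriv G q)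
    (fun z _ => (hd z).hasDerivWithinAt)
    (fun z hz => (hC z hz.1 q hq).trans (by
      have := hz.2
      rw [mem_closedBall, dist_eq_norm] at this
      gcongr))
    (x := y) (y := x) ⟨hy, by rw [mem_closedBall, dist_eq_norm]; exact le_max_right _ _⟩
    ⟨hx, by rw [mem_closedBall, dist_eq_norm]; exact le_max_left _ _⟩
  have e : G x - G y - deriv G q * (x - y) = (G x - deriv G q * x) - (G y - deriv G q * y) := by
    ring
  rw [e]; exact this

/-- A polynomial equation of degree `d` with `d` distinct known solutions. -/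
theorem count_roots {p : Polynomial ℂ} {d : ℕ} (hd : p.natDegree = d) (hd0 : 0 < d) {v : ℂ}
    {g : Fin d → ℂ} (hg : Function.Injective g) (hv : ∀ j, p.eval (g j) = v) :
    (∀ z, p.eval z = v → ∃ j, g j = z) ∧ ∀ j, p.derivative.eval (g j) ≠ 0 := by
  classical
  set q := p - Polynomial.C v with hq
  have hqd : q.natDegree = d := by rw [hq, Polynomial.natDegree_sub_C, hd]
  have hq0 : q ≠ 0 := by
    intro h; rw [h] at hqd; simp at hqd; omega
  have hroot : ∀ z, z ∈ q.roots ↔ p.eval z = v := fun z => by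
    rw [Polynomial.mem_roots hq0, Polynomial.IsRoot, hq]; simp [sub_eq_zero]
  have hsub : Finset.univ.image g ⊆ q.roots.toFinset := by
    intro z hz
    obtain ⟨j, -, rfl⟩ := Finset.mem_image.mp hz
    exact Multiset.mem_toFinset.mpr ((hroot _).mpr (hv j))
  have hcard : (Finset.univ.image g).card = d := by
    rw [Finset.card_image_of_injective _ hg]; simp
  have h1 : q.roots.card ≤ d := hqd ▸ Polynomial.card_roots' q
  have h2 : q.roots.toFinset.card ≤ q.roots.card := Multiset.toFinset_card_le _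
  have h3 := Finset.card_le_card hsub
  have heq : Finset.univ.image g = q.roots.toFinset :=
    Finset.eq_of_subset_of_card_le hsub (by omega)
  have hnd : q.roots.Nodup := Multiset.toFinset_card_eq_card_iff_nodup.mp (by omega)
  refine ⟨fun z hz => ?_, fun j hj => ?_⟩
  · have : z ∈ Finset.univ.image g := by
      rw [heq]; exact Multiset.mem_toFinset.mpr ((hroot _).mpr hz)
    obtain ⟨j, -, h⟩ := Finset.mem_image.mp this
    exact ⟨j, h⟩
  · have h4 : 1 < q.rootMultiplicity (g j) := by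
      rw [Polynomial.one_lt_rootMultiplicity_iff_isRoot hq0]
      refine ⟨?_, ?_⟩
      · rw [Polynomial.IsRoot, hq]; simp [hv j]
      · rw [Polynomial.IsRoot, hq]; simpa using hj
    have h5 := Multiset.nodup_iff_count_le_one.mp hnd (g j)
    rw [Polynomial.count_roots] at h5
    omega

/-- Bounded distortion at a repelling fixed point. -/
theorem angle_at_fixed {G : ℂ → ℂ} (hG : Differentiable ℂ G) {q : ℂ} (hq : G q = q)
    (hμ : 2 ≤ ‖deriv G q‖) {A B : Set ℂ} (hA : IsCompact A) (hB : IsCompact B) {η₀ : ℝ}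
    (hη₀ : 0 < η₀) (hAi : ∀ x ∈ A, ‖x - q‖ < η₀ → G x ∈ A) (hBi : ∀ x ∈ B, ‖x - q‖ < η₀ → G x ∈ B)
    (hAB : ∀ x ∈ A, x ∈ B → ‖x - q‖ < η₀ → x = q) :
    ∃ η C, 0 < η ∧ 0 < C ∧ ∀ x ∈ A, ∀ y ∈ B, ‖x - q‖ ≤ η → ‖y - q‖ ≤ η →
      ‖x - q‖ ≤ C * ‖x - y‖ := by
  obtain ⟨C, hC0, hC⟩ := exists_quad hG (‖q‖ + 1)
  set μ := ‖deriv G q‖ with hμdef
  set η₁ := min (min (η₀ / 2) 1) (1 / (8 * C)) with hη₁
  have hη₁0 : 0 < η₁ := lt_min (lt_min (by linarith) one_pos) (by positivity)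
  have hη₁a : η₁ < η₀ := ((min_le_left _ _).trans (min_le_left _ _)).trans_lt (by linarith)
  have hη₁b : η₁ ≤ 1 := (min_le_left _ _).trans (min_le_right _ _)
  have hη₁c : C * η₁ ≤ 1 / 8 := by
    have : η₁ ≤ 1 / (8 * C) := min_le_right _ _
    rw [le_div_iff₀ (by positivity)] at this
    linarith
  set η := η₁ / (μ + 1) with hη
  have hη0 : 0 < η := by positivity
  have hηη : (μ + 1) * η = η₁ := by rw [hη]; field_simp
  have hηle : η ≤ η₁ := by nlinarith
  have hball : ∀ x : ℂ, ‖x - q‖ ≤ 1 → x ∈ closedBall (0 : ℂ) (‖q‖ + 1) := fun x hx => by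
    rw [mem_closedBall, dist_zero_right]
    linarith [norm_le_norm_add_norm_sub' x q]
  have hest : ∀ x y : ℂ, ‖x - q‖ ≤ 1 → ‖y - q‖ ≤ 1 →
      (μ - C * max ‖x - q‖ ‖y - q‖) * ‖x - y‖ ≤ ‖G x - G y‖ ∧
      ‖G x - G y‖ ≤ (μ + C * max ‖x - q‖ ‖y - q‖) * ‖x - y‖ := by
    intro x y hx hy
    have h := hC q (hball q (by simp)) x (hball x hx) y (hball y hy)
    have h1 := norm_le_norm_add_norm_sub' (G x - G y) (deriv G q * (x - y))
    have h2 := norm_le_norm_add_norm_sub (G x - G y) (deriv G q * (x - y))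
    rw [norm_mul] at h1 h2
    constructor <;> linarith
  set S : Set (ℂ × ℂ) := (A ×ˢ B) ∩
    ({p | η ≤ max ‖p.1 - q‖ ‖p.2 - q‖} ∩ {p | max ‖p.1 - q‖ ‖p.2 - q‖ ≤ η₁}) with hS
  have hSc : IsCompact S := (hA.prod hB).inter_right
    ((isClosed_le (by fun_prop) (by fun_prop)).inter (isClosed_le (by fun_prop) (by fun_prop)))
  obtain ⟨c, hc0, hc⟩ : ∃ c, 0 < c ∧ ∀ p ∈ S, c ≤ ‖p.1 - p.2‖ := by
    obtain ⟨c, hc0, hc⟩ := hSc.exists_forall_le' (f := fun p : ℂ × ℂ => ‖p.1 - p.2‖) (a := 0)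
      (by fun_prop) (by
        rintro ⟨x, y⟩ ⟨⟨hx, hy⟩, h1, h2⟩
        simp only [norm_pos_iff, sub_ne_zero, mem_ofPred_eq] at h1 h2 ⊢
        rintro rfl
        simp only [max_self] at h1 h2
        have := hAB x hx hy (by linarith)
        rw [this] at h1
        simp at h1
        linarith)
    exact ⟨c, hc0, hc⟩
  have main : ∀ n : ℕ, ∀ x ∈ A, ∀ y ∈ B, max ‖x - q‖ ‖y - q‖ ≤ η₁ →
      η ≤ (3 / 2) ^ n * max ‖x - q‖ ‖y - q‖ →
      c / (2 * η₁) * max ‖x - q‖ ‖y - q‖ ≤ ‖x - y‖ * (1 - 4 * C * max ‖x - q‖ ‖y - q‖) := by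
    have base : ∀ x ∈ A, ∀ y ∈ B, max ‖x - q‖ ‖y - q‖ ≤ η₁ → η ≤ max ‖x - q‖ ‖y - q‖ →
        c / (2 * η₁) * max ‖x - q‖ ‖y - q‖ ≤ ‖x - y‖ * (1 - 4 * C * max ‖x - q‖ ‖y - q‖) := by
      intro x hx y hy h1 h2
      have h3 := hc (x, y) ⟨⟨hx, hy⟩, h2, h1⟩
      simp only at h3
      set m := max ‖x - q‖ ‖y - q‖
      have h4 : c / (2 * η₁) * m ≤ c / 2 := by
        rw [div_mul_eq_mul_div, div_le_div_iff₀ (by positivity) (by positivity)]; nlinarith
      have h5 : C * m ≤ 1 / 8 := by nlinarith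
      nlinarith
    intro n
    induction n with
    | zero => intro x hx y hy h1 h2; exact base x hx y hy h1 (by simpa using h2)
    | succ n ih =>
      intro x hx y hy h1 h2
      by_cases h3 : η ≤ max ‖x - q‖ ‖y - q‖
      · exact base x hx y hy h1 h3
      push Not at h3
      set m := max ‖x - q‖ ‖y - q‖ with hm
      have hxm : ‖x - q‖ ≤ m := le_max_left _ _
      have hym : ‖y - q‖ ≤ m := le_max_right _ _
      have hm0 : 0 ≤ m := (norm_nonneg _).trans hxm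
      have hCm : C * m ≤ 1 / 8 := by nlinarith
      have hCm0 : 0 ≤ C * m := by positivity
      obtain ⟨-, e2⟩ := hest x y (by linarith) (by linarith)
      obtain ⟨x1, x2⟩ := hest x q (by linarith) (by simp)
      obtain ⟨y1, y2⟩ := hest y q (by linarith) (by simp)
      simp only [sub_self, norm_zero, hq, max_eq_left (norm_nonneg _)] at x1 x2 y1 y2
      rw [← hm] at e2
      set m' := max ‖G x - q‖ ‖G y - q‖ with hm'
      have hCx : C * ‖x - q‖ ≤ C * m := by gcongr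
      have hCy : C * ‖y - q‖ ≤ C * m := by gcongr
      have hlow : (μ - C * m) * m ≤ m' := by
        rcases max_cases ‖x - q‖ ‖y - q‖ with h | h
        · rw [← hm] at h
          rw [← h.1] at x1
          exact x1.trans (le_max_left _ _)
        · rw [← hm] at h
          rw [← h.1] at y1
          exact y1.trans (le_max_right _ _)
      have hup : m' ≤ η₁ := by
        refine max_le (x2.trans ?_) (y2.trans ?_)
        · rw [← hηη]; gcongr <;> linarith
        · rw [← hηη]; gcongr <;> linarith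
      have hlow' : 3 / 2 * m ≤ m' := le_trans (by gcongr; linarith) hlow
      have := ih (G x) (hAi x hx (by linarith)) (G y) (hBi y hy (by linarith)) hup
        (h2.trans (by rw [pow_succ, mul_assoc]; gcongr))
      rw [← hm'] at this
      have hCm' : C * m' ≤ 1 / 8 := by nlinarith
      have hCm'' : 3 / 2 * (C * m) ≤ C * m' := by nlinarith
      have k1 : ‖G x - G y‖ * (1 - 4 * C * m') ≤
          (μ + C * m) * ‖x - y‖ * (1 - 6 * (C * m)) := by
        exact mul_le_mul e2 (by linarith) (by linarith) (by positivity)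
      have k2 : (μ + C * m) * (1 - 6 * (C * m)) ≤ (μ - C * m) * (1 - 4 * (C * m)) := by nlinarith
      have k3 : c / (2 * η₁) * ((μ - C * m) * m) ≤ c / (2 * η₁) * m' := by gcongr
      have k4 : (μ - C * m) * (c / (2 * η₁) * m) ≤
          (μ - C * m) * (‖x - y‖ * (1 - 4 * C * m)) := by
        have k5 := mul_le_mul_of_nonneg_left k2 (norm_nonneg (x - y))
        linarith
      exact le_of_mul_le_mul_left k4 (by linarith)
  refine ⟨η₁, 2 * η₁ / c, hη₁0, by positivity, fun x hx y hy h1 h2 => ?_⟩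
  set m := max ‖x - q‖ ‖y - q‖ with hm
  have hxm : ‖x - q‖ ≤ m := le_max_left _ _
  rcases ((norm_nonneg _).trans hxm).eq_or_lt with h0 | h0
  · have : ‖x - q‖ ≤ 0 := by linarith
    exact this.trans (by positivity)
  obtain ⟨n, hn⟩ := pow_unbounded_of_one_lt (η / m) (show (1 : ℝ) < 3 / 2 by norm_num)
  rw [div_lt_iff₀ h0] at hn
  have := main n x hx y hy (max_le h1 h2) hn.le
  rw [← hm] at this
  have h3 : c / (2 * η₁) * m ≤ ‖x - y‖ := by
    have : 0 ≤ ‖x - y‖ * (4 * C * m) := by positivity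
    linarith
  rw [div_mul_eq_mul_div, div_le_iff₀ (by positivity)] at h3
  rw [div_mul_eq_mul_div, le_div_iff₀ hc0]
  nlinarith

end Pool.Agent.MP_28f04c_an

end

-- part MP_28f04c_an.Cross
section

/-!
Two curves whose ends go to infinity in alternating directions meet.
-/

set_option autoImplicit false

open Set Filter Topology Metric Complex

namespace Pool.Agent.MP_28f04c_an

/-- The point of the unit circle with angle `θ` (in full turns). -/
noncomputable def ee (θ : ℝ) : ℂ := cexp ((2 * Real.pi * θ : ℝ) * I)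

theorem norm_ee (θ : ℝ) : ‖ee θ‖ = 1 := norm_exp_ofReal_mul_I _

theorem ee_ne_zero (θ : ℝ) : ee θ ≠ 0 := exp_ne_zero _

theorem ee_add (x y : ℝ) : ee (x + y) = ee x * ee y := by
  simp only [ee, ← Complex.exp_add]; congr 1; push_cast; ring

theorem ee_zero : ee 0 = 1 := by simp [ee]

theorem ee_half : ee (1 / 2) = -1 := by
  rw [ee, ← exp_pi_mul_I]; congr 1; push_cast; ring

theorem ee_neg_half : ee (-(1 / 2)) = -1 := by
  have h := ee_add (1 / 2) (-(1 / 2))
  rw [add_neg_cancel, ee_zero, ee_half] at h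
  linear_combination h

theorem continuous_ee : Continuous ee := by unfold ee; fun_prop

theorem ee_eq_iff {x y : ℝ} : ee x = ee y ↔ ∃ k : ℤ, x = y + k := by
  rw [ee, ee, exp_eq_exp_iff_exists_int]
  refine exists_congr fun k => ⟨fun h => ?_, fun h => ?_⟩
  · have h1 := congrArg Complex.im h
    simp at h1
    have h2 : (2 * Real.pi) * x = (2 * Real.pi) * (y + k) := by linarith
    exact mul_left_cancel₀ (by positivity) h2
  · rw [h]; push_cast; ring

theorem ee_ne {x y : ℝ} (h1 : x < y) (h2 : y < x + 1) : ee x ≠ ee y := by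
  intro h
  obtain ⟨k, hk⟩ := ee_eq_iff.mp h
  have h3 : (k : ℝ) < 0 := by linarith
  have h4 : (-1 : ℝ) < k := by linarith
  have h5 : k < 0 := by exact_mod_cast h3
  have h6 : -1 < k := by exact_mod_cast h4
  omega

theorem arg_ee {y : ℝ} (h1 : -(1 / 2) < y) (h2 : y < 1 / 2) :
    arg (ee y) = 2 * Real.pi * y ∧ ee y ∈ slitPlane := by
  have hpi := Real.pi_pos
  have h : arg (ee y) = 2 * Real.pi * y := by
    rw [← log_im, ee, log_exp] <;> simp <;> nlinarith
  refine ⟨h, mem_slitPlane_iff_arg.mpr ⟨?_, ee_ne_zero _⟩⟩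
  rw [h]; nlinarith

theorem exp_sub_eq {X : Type*} [TopologicalSpace X] {S : Set X} (hS : IsPreconnected S)
    {g : X → ℂ} (hg : ContinuousOn g S) {c : ℂ} (h : ∀ x ∈ S, cexp (g x) = c) {x y : X}
    (hx : x ∈ S) (hy : y ∈ S) : g x = g y :=
  isCoveringMap_exp.constOn_of_comp hS hg
    (fun a ha a' ha' => Subtype.ext ((h a ha).trans (h a' ha').symm)) hx hy

theorem slit_of_far {z P : ℂ} {A B C x b : ℝ} (hA : 0 ≤ A) (hB : 0 ≤ B)
    (hz : ‖z - A * ee x‖ ≤ C) (hP : ‖P - B * ee b‖ ≤ C) (hT : 4 * C < B * ‖ee x - ee b‖) :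
    -(z - P) * ee (-b) ∈ slitPlane := by
  rw [mem_slitPlane_iff]
  by_contra hc
  push Not at hc
  set y := -(-(z - P) * ee (-b)).re with hy
  have hy0 : 0 ≤ y := by linarith [hc.1]
  have h1 : (z - P) * ee (-b) = y := by
    apply Complex.ext
    · rw [ofReal_re, hy, neg_mul, neg_re, neg_neg]
    · have := hc.2
      rw [neg_mul, neg_im, neg_eq_zero] at this
      rw [this, ofReal_im]
  have h2 : z - P = y * ee b := by
    rw [← h1, mul_assoc, ← ee_add, neg_add_cancel, ee_zero, mul_one]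
  have h3 : ‖A * ee x - (B + y : ℝ) * ee b‖ ≤ 2 * C := by
    have : A * ee x - (B + y : ℝ) * ee b = (P - B * ee b) - (z - A * ee x) := by
      push_cast; linear_combination h2
    rw [this]
    linarith [norm_sub_le (P - B * ee b) (z - A * ee x)]
  have h4 : |A - (B + y)| ≤ 2 * C := by
    have := abs_norm_sub_norm_le (A * ee x) ((B + y : ℝ) * ee b)
    rw [norm_mul, norm_mul, norm_ee, norm_ee, norm_real, norm_real, mul_one, mul_one,
      Real.norm_of_nonneg hA, Real.norm_of_nonneg (by linarith)] at this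
    linarith
  have h5 : (B + y) * ‖ee x - ee b‖ ≤ 4 * C := by
    have e : ((B + y : ℝ) : ℂ) * (ee x - ee b) =
        (A * ee x - (B + y : ℝ) * ee b) - ((A - (B + y) : ℝ) : ℂ) * ee x := by
      push_cast; ring
    have := norm_sub_le (A * ee x - (B + y : ℝ) * ee b) (((A - (B + y) : ℝ) : ℂ) * ee x)
    rw [← e, norm_mul, norm_mul, norm_ee, norm_real, norm_real, mul_one,
      Real.norm_of_nonneg (by linarith), Real.norm_eq_abs] at this
    linarith
  nlinarith [norm_nonneg (ee x - ee b)]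

theorem tendsto_scaled {α : ℝ → ℂ} {t C : ℝ} (h1 : ∀ u, 0 ≤ u → ‖α u - Real.exp u * ee t‖ ≤ C)
    (P : ℂ) : Tendsto (fun u => (Real.exp (-u) : ℂ) * (α u - P)) atTop (𝓝 (ee t)) := by
  rw [tendsto_iff_norm_sub_tendsto_zero]
  have h0 : Tendsto (fun u => Real.exp (-u) * (C + ‖P‖)) atTop (𝓝 0) := by
    simpa using Real.tendsto_exp_neg_atTop_nhds_zero.mul_const (C + ‖P‖)
  refine squeeze_zero' (Eventually.of_forall fun _ => norm_nonneg _) ?_ h0
  filter_upwards [eventually_ge_atTop 0] with u hu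
  have e : (Real.exp (-u) : ℂ) * (α u - P) - ee t =
      (Real.exp (-u) : ℂ) * ((α u - Real.exp u * ee t) - P) := by
    have : (Real.exp (-u) : ℂ) * Real.exp u = 1 := by
      rw [← ofReal_mul, ← Real.exp_add]; simp
    linear_combination (ee t) * this
  rw [e, norm_mul, norm_real, Real.norm_of_nonneg (Real.exp_pos _).le]
  gcongr
  exact (norm_sub_le _ _).trans (by gcongr; exact h1 u hu)

theorem tendsto_arg {α : ℝ → ℂ} {t C b : ℝ} (h1 : ∀ u, 0 ≤ u → ‖α u - Real.exp u * ee t‖ ≤ C)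
    (P : ℂ) (hs : -ee t * ee (-b) ∈ slitPlane) :
    Tendsto (fun u => arg (-(α u - P) * ee (-b))) atTop (𝓝 (arg (-ee t * ee (-b)))) := by
  have := (continuousAt_arg hs).tendsto.comp ((tendsto_scaled h1 P).neg.mul_const (ee (-b)))
  refine this.congr fun u => ?_
  simp only [Function.comp]
  rw [← arg_real_mul (-(α u - P) * ee (-b)) (Real.exp_pos (-u))]
  congr 1; ring

theorem variation {α : ℝ → ℂ} (hα : Continuous α) {s t C b T : ℝ} {P : ℂ}
    (h1 : ∀ u, 0 ≤ u → ‖α u - Real.exp u * ee t‖ ≤ C)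
    (h2 : ∀ u, 0 ≤ u → ‖α (-u) - Real.exp u * ee s‖ ≤ C)
    (hP : ‖P - Real.exp T * ee b‖ ≤ C) (hTs : 4 * C < Real.exp T * ‖ee s - ee b‖)
    (hTt : 4 * C < Real.exp T * ‖ee t - ee b‖) (hs : -ee s * ee (-b) ∈ slitPlane)
    (ht : -ee t * ee (-b) ∈ slitPlane) {Θ : ℝ → ℂ} (hΘ : Continuous Θ)
    (he : ∀ u, cexp (Θ u) = α u - P) :
    Tendsto (fun u => (Θ u - Θ (-u)).im) atTop
      (𝓝 (arg (-ee t * ee (-b)) - arg (-ee s * ee (-b)))) := by
  have hslit : ∀ u, -(α u - P) * ee (-b) ∈ slitPlane := fun u => by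
    rcases le_total 0 u with hu | hu
    · exact slit_of_far (Real.exp_pos _).le (Real.exp_pos _).le (h1 u hu) hP hTt
    · have := h2 (-u) (by linarith)
      rw [neg_neg] at this
      exact slit_of_far (Real.exp_pos _).le (Real.exp_pos _).le this hP hTs
  have hconst : ∀ u v, Θ u - log (-(α u - P) * ee (-b)) = Θ v - log (-(α v - P) * ee (-b)) := by
    intro u v
    refine exp_sub_eq (g := fun u => Θ u - log (-(α u - P) * ee (-b))) isPreconnected_univ
      (hΘ.sub (Continuous.clog (by fun_prop) hslit)).continuousOn (c := -(ee (-b))⁻¹)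
      (fun x _ => ?_) (mem_univ u) (mem_univ v)
    have h3 : α x - P ≠ 0 := by rw [← he]; exact exp_ne_zero _
    have h4 := ee_ne_zero (-b)
    rw [Complex.exp_sub, he, exp_log (slitPlane_ne_zero (hslit x))]
    field_simp
  refine ((tendsto_arg h1 P ht).sub (tendsto_arg (α := fun u => α (-u)) h2 P hs)).congr
    fun u => ?_
  have := congrArg Complex.im (hconst u (-u))
  simp only [sub_im, log_im] at this ⊢
  linarith

theorem tendsto_side {α β : ℝ → ℂ} (hβ : Continuous β) {t C : ℝ}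
    (h1 : ∀ u, 0 ≤ u → ‖α u - Real.exp u * ee t‖ ≤ C) {Θ : ℝ → ℝ → ℂ}
    (hΘ : ∀ u, Continuous (Θ u)) (he : ∀ u v, cexp (Θ u v) = α u - β v) :
    Tendsto (fun u => (Θ u 1 - Θ u 0).im) atTop (𝓝 0) := by
  obtain ⟨B, hB⟩ := (isCompact_Icc (a := (0 : ℝ)) (b := 1)).exists_bound_of_continuousOn
    hβ.continuousOn
  have hα : Tendsto (fun u => ‖α u‖) atTop atTop := by
    refine tendsto_atTop_mono' atTop ?_ (tendsto_atTop_add_const_right _ (-C) Real.tendsto_exp_atTop)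
    filter_upwards [eventually_ge_atTop 0] with u hu
    have := norm_sub_norm_le ((Real.exp u : ℂ) * ee t) (α u)
    rw [norm_mul, norm_ee, norm_real, Real.norm_of_nonneg (Real.exp_pos _).le,
      norm_sub_rev] at this
    linarith [h1 u hu]
  have hlim : ∀ P : ℂ, Tendsto (fun u => arg (1 + -(P / α u))) atTop (𝓝 0) := fun P => by
    have k1 : Tendsto (fun u => P / α u) atTop (𝓝 0) := by
      rw [tendsto_zero_iff_norm_tendsto_zero]
      simp only [norm_div]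
      exact hα.const_div_atTop _
    have k2 : Tendsto (fun u => 1 + -(P / α u)) atTop (𝓝 1) := by
      simpa using k1.neg.const_add 1
    simpa [Function.comp_def] using (continuousAt_arg one_mem_slitPlane).tendsto.comp k2
  have := (hlim (β 1)).sub (hlim (β 0))
  rw [sub_zero] at this
  refine this.congr' ?_
  filter_upwards [hα.eventually_gt_atTop (max B 0)] with u hu
  have hu0 : α u ≠ 0 := norm_pos_iff.mp ((le_max_right _ _).trans_lt hu)
  have hslit : ∀ v ∈ Icc (0 : ℝ) 1, 1 + -(β v / α u) ∈ slitPlane := fun v hv => by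
    refine mem_slitPlane_of_norm_lt_one ?_
    rw [norm_neg, norm_div, div_lt_one (norm_pos_iff.mpr hu0)]
    exact (hB v hv).trans_lt ((le_max_left _ _).trans_lt hu)
  have := exp_sub_eq (g := fun v => Θ u v - log (1 + -(β v / α u))) isPreconnected_Icc
    ((hΘ u).continuousOn.sub (ContinuousOn.clog (by fun_prop) hslit)) (c := α u)
    (fun v hv => by
      have h3 : α u - β v ≠ 0 := by rw [← he]; exact exp_ne_zero _
      have h4 : 1 + -(β v / α u) = (α u - β v) / α u := by field_simp; ring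
      rw [Complex.exp_sub, he, exp_log (slitPlane_ne_zero (hslit v hv)), h4]
      field_simp) (x := 1) (y := 0) (by simp) (by simp)
  have := congrArg Complex.im this
  simp only [sub_im, log_im] at this ⊢
  linarith

theorem cross {α β : ℝ → ℂ} (hα : Continuous α) (hβ : Continuous β) {s a t b C T : ℝ}
    (hsa : s < a) (hat : a < t) (htb : t < b) (hbs : b < s + 1)
    (h1 : ∀ u, 0 ≤ u → ‖α u - Real.exp u * ee t‖ ≤ C)
    (h2 : ∀ u, 0 ≤ u → ‖α (-u) - Real.exp u * ee s‖ ≤ C)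
    (h3 : ‖β 0 - Real.exp T * ee a‖ ≤ C) (h4 : ‖β 1 - Real.exp T * ee b‖ ≤ C)
    (hsa' : 4 * C < Real.exp T * ‖ee s - ee a‖) (hta' : 4 * C < Real.exp T * ‖ee t - ee a‖)
    (hsb' : 4 * C < Real.exp T * ‖ee s - ee b‖) (htb' : 4 * C < Real.exp T * ‖ee t - ee b‖)
    (hne : ∀ u v, α u ≠ β v) : False := by
  obtain ⟨Θ, ⟨-, hΘ⟩, -⟩ := isCoveringMapOn_exp.existsUnique_continuousMap_lifts
    (A := ℝ × ℝ) ⟨fun p => α p.1 - β p.2, by fun_prop⟩ (a₀ := (0, 0))
    (exp_log (sub_ne_zero.mpr (hne 0 0))) (fun p => sub_ne_zero.mpr (hne p.1 p.2))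
  have he : ∀ u v, cexp (Θ (u, v)) = α u - β v := fun u v => congrFun hΘ (u, v)
  have e1 : ∀ x y : ℝ, -ee x * ee (-y) = ee (x - y + 1 / 2) := fun x y => by
    rw [ee_add, ee_half, sub_eq_add_neg, ee_add]; ring
  have e2 : ∀ x y : ℝ, -ee x * ee (-y) = ee (x - y + -(1 / 2)) := fun x y => by
    rw [ee_add, ee_neg_half, sub_eq_add_neg, ee_add]; ring
  obtain ⟨a1, b1⟩ := arg_ee (y := s - b + 1 / 2) (by linarith) (by linarith)
  obtain ⟨a2, b2⟩ := arg_ee (y := t - b + 1 / 2) (by linarith) (by linarith)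
  obtain ⟨a3, b3⟩ := arg_ee (y := s - a + 1 / 2) (by linarith) (by linarith)
  obtain ⟨a4, b4⟩ := arg_ee (y := t - a + -(1 / 2)) (by linarith) (by linarith)
  rw [← e1] at a1 b1 a2 b2 a3 b3
  rw [← e2] at a4 b4
  have v1 := variation hα h1 h2 h4 hsb' htb' b1 b2 (Θ := fun u => Θ (u, 1)) (by fun_prop)
    (fun u => he u 1)
  have v0 := variation hα h1 h2 h3 hsa' hta' b3 b4 (Θ := fun u => Θ (u, 0)) (by fun_prop)
    (fun u => he u 0)
  have w1 := tendsto_side hβ h1 (Θ := fun u v => Θ (u, v)) (fun u => by fun_prop) he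
  have w0 := tendsto_side (α := fun u => α (-u)) hβ h2 (Θ := fun u v => Θ (-u, v))
    (fun u => by fun_prop) (fun u v => he (-u) v)
  have := tendsto_nhds_unique ((v1.sub v0).congr fun u => by simp only [sub_im]; ring) (w1.sub w0)
  rw [a1, a2, a3, a4] at this
  nlinarith [Real.pi_pos]

end Pool.Agent.MP_28f04c_an

end

-- part MP_28f04c_an.Bottcher
section

/-!
The Boettcher coordinate on the basin of infinity of a polynomial with connected Julia set.
-/

set_option autoImplicit false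

open Set Filter Topology Metric Complex

namespace Pool.Agent.MP_28f04c_an

namespace Esc

variable {f : Polynomial ℂ} {R : ℝ}

theorem exists_phi (h : Esc f R) (hd : 2 ≤ f.natDegree) (hJ : IsConnected (frontier (KK f))) :
    ∃ (φ : ℂ → ℂ) (c : ℂ) (C R' : ℝ), c ≠ 0 ∧ 0 ≤ C ∧ R ≤ R' ∧ DifferentiableOn ℂ φ (KK f)ᶜ ∧
      (∀ z ∉ KK f, φ (ev f z) = φ z ^ f.natDegree) ∧ ∀ z, R' ≤ ‖z‖ → ‖φ z - c * z‖ ≤ C := by
  obtain ⟨a, ha⟩ := hJ.nonempty
  obtain ⟨l, C₀, lc, hlc, hl1, hl2, hl3⟩ := h.exists_log hd hJ.isPreconnected ha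
  have haK : a ∈ KK f := h.isClosed.frontier_subset ha
  set C := max C₀ 0 with hC
  have hC0 : 0 ≤ C := le_max_right _ _
  have hR1 := h.1
  set d := f.natDegree with hdd
  obtain ⟨c, hc⟩ := IsAlgClosed.exists_pow_nat_eq lc (n := d - 1) (by omega)
  have hc0 : c ≠ 0 := by
    rintro rfl
    rw [zero_pow (by omega)] at hc
    exact hlc hc.symm
  have hd2 : (2 : ℝ) ≤ d := by exact_mod_cast hd
  set T : ℕ → ℂ → ℂ := fun n z => l ((ev f)^[n] z) / (d : ℂ) ^ (n + 1) with hT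
  have hTb : ∀ n z (ρ : ℝ), 4 * R < ρ → ρ ≤ ‖(ev f)^[n] z‖ → ‖T n z‖ ≤ C / ρ / 2 / 2 ^ n := by
    intro n z ρ h1 h2
    have k1 : ‖l ((ev f)^[n] z)‖ ≤ C / ρ := by
      refine (hl3 _ (h1.trans_le h2)).trans ?_
      exact div_le_div₀ hC0 (le_max_left _ _) (by linarith) h2
    have k2 : (2 : ℝ) ^ (n + 1) ≤ (d : ℝ) ^ (n + 1) := pow_le_pow_left₀ (by norm_num) hd2 _
    simp only [hT, norm_div, norm_pow, Complex.norm_natCast]
    rw [div_div (C / ρ), ← pow_succ']
    have hρ : 0 < ρ := by linarith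
    exact div_le_div₀ (by positivity) k1 (by positivity) k2
  have hTb' : ∀ N n, ∀ z ∈ Om f R N, ‖T (n + N) z‖ ≤ C / 2 / 2 ^ n := by
    intro N n z hz
    have k1 : 4 * R < ‖(ev f)^[n + N] z‖ := h.Om_mono (Nat.le_add_left N n) hz
    refine (hTb _ z _ k1 le_rfl).trans ?_
    have k2 : C / ‖(ev f)^[n + N] z‖ ≤ C := div_le_self hC0 (by linarith)
    have k3 : (2 : ℝ) ^ n ≤ 2 ^ (n + N) := pow_le_pow_right₀ (by norm_num) (Nat.le_add_right _ _)
    exact div_le_div₀ (by positivity) (by linarith) (by positivity) k3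
  have hsum : ∀ z ∉ KK f, Summable fun n => T n z := by
    intro z hz
    obtain ⟨N, hN⟩ := h.exists_Om hz
    rw [← summable_nat_add_iff N]
    exact Summable.of_norm_bounded (summable_geometric_two' C) fun n => hTb' N n z hN
  have hTd : ∀ n, DifferentiableOn ℂ (T n) (KK f)ᶜ := fun n =>
    (hl1.comp ((diff_ev f).iterate n).differentiableOn
      (fun z (hz : z ∉ KK f) hz' => hz ((h.iter_mem_iff n).mp hz'))).div_const _
  set S : ℂ → ℂ := fun z => ∑' n, T n z with hS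
  have hSd : DifferentiableOn ℂ S (KK f)ᶜ := by
    intro z hz
    obtain ⟨N, hN⟩ := h.exists_Om hz
    have hsub : Om f R N ⊆ (KK f)ᶜ := fun w hw => h.Om_not_mem hw
    have k1 : DifferentiableOn ℂ (fun w => ∑' n, T (n + N) w) (Om f R N) :=
      differentiableOn_tsum_of_summable_norm (summable_geometric_two' C)
        (fun n => (hTd _).mono hsub) (isOpen_Om f R N) (hTb' N)
    have k2 : DifferentiableOn ℂ (fun w => ∑ n ∈ Finset.range N, T n w) (Om f R N) :=
      DifferentiableOn.fun_sum fun n _ => (hTd n).mono hsub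
    have k3 := (isOpen_Om f R N).mem_nhds hN
    refine (((k2.add k1).differentiableAt k3).congr_of_eventuallyEq ?_).differentiableWithinAt
    filter_upwards [k3] with w hw
    exact ((hsum w (hsub hw)).sum_add_tsum_nat_add N).symm
  have hd0 : (d : ℂ) ≠ 0 := by exact_mod_cast (show d ≠ 0 by omega)
  have hSf : ∀ z ∉ KK f, d * S z = l z + S (ev f z) := by
    intro z hz
    simp only [hS]
    rw [(hsum z hz).tsum_eq_zero_add, mul_add, ← tsum_mul_left]
    congr 1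
    · simp only [hT]; simp; field_simp
    · refine tsum_congr fun n => ?_
      simp only [hT, Function.iterate_succ_apply]
      rw [pow_succ (d : ℂ) (n + 1)]; field_simp
  have hSb : ∀ z, 4 * R < ‖z‖ → ‖S z‖ ≤ C / ‖z‖ := fun z hz =>
    tsum_of_norm_bounded (hasSum_geometric_two' (C / ‖z‖))
      fun n => hTb n z _ hz (h.four.le_iter hz.le n)
  refine ⟨fun z => c * (z - a) * cexp (S z), c, ‖c‖ * (4 * C + R), max (5 * R) C, hc0,
    by positivity, le_max_of_le_left (by linarith), ?_, fun z hz => ?_, fun z hz => ?_⟩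
  · exact DifferentiableOn.mul (by fun_prop) hSd.cexp
  · simp only
    rw [← hl2 z hz, mul_pow, mul_pow, ← Complex.exp_nat_mul, hSf z hz, Complex.exp_add, ← hc]
    have : c ^ d = c * c ^ (d - 1) := by rw [← pow_succ']; congr 1; omega
    rw [this]; ring
  · have k1 : 4 * R < ‖z‖ := by linarith [le_max_left (5 * R) C]
    have k0 : 0 < ‖z‖ := by linarith
    have k2 := hSb z k1
    have k3 : C / ‖z‖ ≤ 1 := by rw [div_le_one k0]; exact (le_max_right _ _).trans hz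
    have k4 := norm_exp_sub_one_le (k2.trans k3)
    have k5 := h.norm_lt haK
    have k6 : ‖z - a‖ ≤ 2 * ‖z‖ := by linarith [norm_sub_le z a]
    have e : c * (z - a) * cexp (S z) - c * z = c * ((z - a) * (cexp (S z) - 1) - a) := by ring
    simp only
    rw [e, norm_mul]
    gcongr
    refine (norm_sub_le _ _).trans ?_
    rw [norm_mul]
    have k7 : ‖z - a‖ * ‖cexp (S z) - 1‖ ≤ 2 * ‖z‖ * (2 * (C / ‖z‖)) := by
      gcongr; linarith
    have k8 : 2 * ‖z‖ * (2 * (C / ‖z‖)) = 4 * C := by field_simp; ring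
    linarith

end Esc

/-- The data of a Boettcher coordinate. -/
structure Phi (f : Polynomial ℂ) (R : ℝ) where
  φ : ℂ → ℂ
  c : ℂ
  C : ℝ
  esc : Esc f R
  hd : 2 ≤ f.natDegree
  hc : c ≠ 0
  hC : 0 ≤ C
  diff : DifferentiableOn ℂ φ (KK f)ᶜ
  semi : ∀ z ∉ KK f, φ (ev f z) = φ z ^ f.natDegree
  asym : ∀ z, R ≤ ‖z‖ → ‖φ z - c * z‖ ≤ C

namespace Phi

variable {f : Polynomial ℂ} {R : ℝ} (P : Phi f R)

theorem iter {z : ℂ} (hz : z ∉ KK f) (n : ℕ) :
    P.φ ((ev f)^[n] z) = P.φ z ^ (f.natDegree ^ n) := by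
  induction n with
  | zero => simp
  | succ n ih =>
    rw [Function.iterate_succ_apply', P.semi _ (fun h => hz ((P.esc.iter_mem_iff n).mp h)), ih,
      ← pow_mul, pow_succ]

theorem exit : ∃ M, 1 ≤ M ∧ ∀ z ∉ KK f, ‖z‖ ≤ R →
    ∃ n, R < ‖(ev f)^[n] z‖ ∧ ‖P.φ z‖ ^ (f.natDegree ^ n) ≤ M := by
  obtain ⟨B, hB⟩ := (isCompact_closedBall (0 : ℂ) R).exists_bound_of_continuousOn
    (diff_ev f).continuous.continuousOn
  refine ⟨max 1 (‖P.c‖ * B + P.C), le_max_left _ _, fun z hz hzR => ?_⟩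
  classical
  have hex := P.esc.not_mem_iff.mp hz
  have h1 := Nat.find_spec hex
  refine ⟨Nat.find hex, h1, ?_⟩
  rw [← norm_pow, ← P.iter hz]
  have h0 : Nat.find hex ≠ 0 := by
    intro h; rw [h] at h1; simp at h1; linarith
  obtain ⟨m, hm⟩ := Nat.exists_eq_succ_of_ne_zero h0
  have h2 := Nat.find_min hex (m := m) (by omega)
  have h3 := P.asym _ h1.le
  have h4 : ‖(ev f)^[Nat.find hex] z‖ ≤ B := by
    rw [hm, Function.iterate_succ_apply']
    exact hB _ (by simpa using h2)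
  have h5 := norm_le_norm_add_norm_sub' (P.φ ((ev f)^[Nat.find hex] z))
    (P.c * (ev f)^[Nat.find hex] z)
  rw [norm_mul] at h5
  have h6 : ‖P.c‖ * ‖(ev f)^[Nat.find hex] z‖ ≤ ‖P.c‖ * B := by gcongr
  exact le_max_of_le_right (by linarith)

theorem global : ∃ C, 0 < C ∧ ∀ z ∉ KK f, ‖P.φ z - P.c * z‖ ≤ C := by
  obtain ⟨M, hM1, hM⟩ := P.exit
  have hR := P.esc.1
  have hC := P.hC
  refine ⟨P.C + M + ‖P.c‖ * R, by positivity, fun z hz => ?_⟩
  rcases le_total R ‖z‖ with h | h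
  · have := P.asym z h
    have : 0 ≤ ‖P.c‖ * R := by positivity
    linarith
  · obtain ⟨n, -, hn⟩ := hM z hz h
    have h1 : ‖P.φ z‖ ≤ M := by
      rcases le_total ‖P.φ z‖ 1 with k | k
      · linarith
      · exact (le_self_pow₀ k (pow_ne_zero _ (by have := P.hd; omega))).trans hn
    have h2 := norm_sub_le (P.φ z) (P.c * z)
    rw [norm_mul] at h2
    have h3 : ‖P.c‖ * ‖z‖ ≤ ‖P.c‖ * R := by gcongr
    linarith

theorem one_lt {z : ℂ} (hz : z ∉ KK f) : 1 < ‖P.φ z‖ := by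
  obtain ⟨C, hC0, hC⟩ := P.global
  by_contra hc
  push Not at hc
  apply hz
  refine (isBounded_closedBall (x := (0 : ℂ)) (r := (1 + C) / ‖P.c‖)).subset ?_
  rintro _ ⟨n, rfl⟩
  have h1 := hC _ (fun h => hz ((P.esc.iter_mem_iff n).mp h))
  have h2 : ‖P.φ ((ev f)^[n] z)‖ ≤ 1 := by
    rw [P.iter hz, norm_pow]; exact pow_le_one₀ (norm_nonneg _) hc
  have h3 := norm_le_norm_add_norm_sub (P.φ ((ev f)^[n] z)) (P.c * (ev f)^[n] z)
  rw [norm_mul] at h3
  rw [mem_closedBall, dist_zero_right, le_div_iff₀' (norm_pos_iff.mpr P.hc)]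
  linarith

theorem inj_far : ∃ R', R ≤ R' ∧ ∀ z, R' < ‖z‖ → ∀ z' ∉ KK f, P.φ z' = P.φ z → z' = z := by
  obtain ⟨C, hC0, hC⟩ := P.global
  have hc := norm_pos_iff.mpr P.hc
  set ρ := 4 * C / ‖P.c‖ with hρ
  have hρ0 : 0 < ρ := by positivity
  refine ⟨R + ρ, by linarith, fun z hz z' hz' e => ?_⟩
  have hsub : ball z ρ ⊆ (KK f)ᶜ := by
    intro w hw hK
    rw [mem_ball, dist_eq_norm] at hw
    linarith [P.esc.norm_lt hK, norm_le_norm_add_norm_sub w z]
  have hzK : z ∉ KK f := hsub (mem_ball_self hρ0)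
  have e1 : (P.φ z' - P.c * z') - (P.φ z - P.c * z) = -(P.c * (z' - z)) := by rw [e]; ring
  have h1 : ‖P.c‖ * ‖z' - z‖ ≤ 2 * C := by
    have := norm_sub_le (P.φ z' - P.c * z') (P.φ z - P.c * z)
    rw [e1, norm_neg, norm_mul] at this
    linarith [hC z hzK, hC z' hz']
  have hρc : ‖P.c‖ * ρ = 4 * C := by rw [hρ]; field_simp
  have h2 : z' ∈ ball z ρ := by
    rw [mem_ball, dist_eq_norm]
    exact lt_of_mul_lt_mul_left (by linarith) hc.le
  have h3 := dist_le_div_mul_dist_of_mapsTo_ball (f := fun w => P.φ w - P.c * w) (R₂ := 2 * C)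
    ((P.diff.mono hsub).sub (by fun_prop)) (fun w hw => by
      rw [mem_closedBall, dist_eq_norm]
      linarith [norm_sub_le (P.φ w - P.c * w) (P.φ z - P.c * z), hC z hzK, hC w (hsub hw)]) h2
  rw [dist_eq_norm, dist_eq_norm, e1, norm_neg, norm_mul] at h3
  have h4 : 2 * C / ρ = ‖P.c‖ / 2 := by rw [hρ]; field_simp; ring
  rw [h4] at h3
  have h5 : ‖z' - z‖ ≤ 0 := by nlinarith [norm_nonneg (z' - z)]
  exact sub_eq_zero.mp (norm_le_zero_iff.mp h5)

theorem nhds_le {z : ℂ} (hz : z ∉ KK f) : 𝓝 (P.φ z) ≤ map P.φ (𝓝 z) := by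
  have ho : IsOpen (KK f)ᶜ := P.esc.isClosed.isOpen_compl
  refine (P.diff.analyticAt (ho.mem_nhds hz)).eventually_constant_or_nhds_le_map_nhds.resolve_left
    fun h => ?_
  obtain ⟨R', hR', hinj⟩ := P.inj_far
  obtain ⟨n, hn⟩ := (P.esc.mono hR').not_mem_iff.mp hz
  have h1 : ∀ᶠ w in 𝓝 z, (ev f)^[n] w = (ev f)^[n] z := by
    filter_upwards [h, ho.mem_nhds hz] with w hw hw'
    refine hinj _ hn _ (fun h => hw' ((P.esc.iter_mem_iff n).mp h)) ?_
    rw [P.iter hz, P.iter hw', hw]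
  have h2 : ∀ᶠ v in 𝓝 ((ev f)^[n] z), v = (ev f)^[n] z :=
    (isOpenMap_iter P.hd n).nhds_le z h1
  exact (h2.filter_mono (nhdsWithin_le_nhds (s := {(ev f)^[n] z}ᶜ))).and self_mem_nhdsWithin
    |>.exists.elim fun v hv => hv.2 hv.1

theorem surj {w : ℂ} (hw : 1 < ‖w‖) : ∃ z ∉ KK f, P.φ z = w := by
  have hpre : IsPreconnected {w : ℂ | 1 < ‖w‖} := by
    have h1 := (convex_halfSpace_re_gt 0).isPreconnected.image cexp (by fun_prop)
    convert h1 using 1
    ext w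
    constructor
    · intro hw
      have hw' : 1 < ‖w‖ := hw
      refine ⟨log w, ?_, exp_log (norm_pos_iff.mp (by linarith))⟩
      simp only [mem_ofPred_eq, log_re]
      exact Real.log_pos hw'
    · rintro ⟨ζ, hζ, rfl⟩
      simp only [mem_ofPred_eq, norm_exp] at hζ ⊢
      exact Real.one_lt_exp_iff.mpr hζ
  have ho : IsOpen (P.φ '' (KK f)ᶜ) := by
    rw [isOpen_iff_mem_nhds]
    rintro _ ⟨z, hz, rfl⟩
    exact P.nhds_le hz (image_mem_map (P.esc.isClosed.isOpen_compl.mem_nhds hz))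
  refine hpre.subset_of_closure_inter_subset ho ?_ ?_ hw
  · have : (R : ℂ) ∉ KK f := fun h => by
      have := P.esc.norm_lt h
      rw [norm_real, Real.norm_of_nonneg (by linarith [P.esc.1])] at this
      exact lt_irrefl _ this
    exact ⟨_, P.one_lt this, _, this, rfl⟩
  · rintro w ⟨hw1, hw2⟩
    have hw2' : 1 < ‖w‖ := hw2
    obtain ⟨M, hM1, hM⟩ := P.exit
    obtain ⟨C, hC0, hC⟩ := P.global
    set t := (1 + ‖w‖) / 2 with ht
    have ht1 : 1 < t := by linarith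
    obtain ⟨N, hN⟩ := pow_unbounded_of_one_lt M ht1
    set Q := closedBall (0 : ℂ) ((‖w‖ + 1 + C) / ‖P.c‖) ∩ {z | R ≤ ‖(ev f)^[N] z‖} with hQ
    have hQc : IsCompact Q := (isCompact_closedBall _ _).inter_right
      (isClosed_le continuous_const (cont_iter f N).norm)
    have hQK : Q ⊆ (KK f)ᶜ := fun z hz hK => absurd (P.esc.lt_of_mem hK N) (not_lt.mpr hz.2)
    have hcl : IsClosed (P.φ '' Q) :=
      (hQc.image_of_continuousOn (P.diff.continuousOn.mono hQK)).isClosed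
    have hU : IsOpen ({v : ℂ | t < ‖v‖} ∩ {v : ℂ | ‖v‖ < ‖w‖ + 1}) :=
      (isOpen_lt continuous_const continuous_norm).inter (isOpen_lt continuous_norm continuous_const)
    have h1 := hU.inter_closure ⟨⟨show t < ‖w‖ by linarith, show ‖w‖ < ‖w‖ + 1 by linarith⟩, hw1⟩
    refine image_mono hQK (hcl.closure_subset_iff.mpr ?_ h1)
    rintro _ ⟨⟨k1, k2⟩, z, hz, rfl⟩
    simp only [mem_ofPred_eq] at k1 k2
    refine ⟨z, ⟨?_, ?_⟩, rfl⟩
    · rw [mem_closedBall, dist_zero_right, le_div_iff₀' (norm_pos_iff.mpr P.hc)]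
      have h3 := norm_le_norm_add_norm_sub (P.φ z) (P.c * z)
      rw [norm_mul] at h3
      linarith [hC z hz]
    · rcases le_total R ‖z‖ with h | h
      · exact h.trans (P.esc.le_iter h N)
      · obtain ⟨n, hn1, hn2⟩ := hM z hz h
        have k3 : t ^ (f.natDegree ^ n) ≤ ‖P.φ z‖ ^ (f.natDegree ^ n) :=
          pow_le_pow_left₀ (by linarith) k1.le _
        have k4 : f.natDegree ^ n < N := (pow_lt_pow_iff_right₀ ht1).mp (by linarith)
        have k5 : n < f.natDegree ^ n := Nat.lt_pow_self (by have := P.hd; omega)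
        exact hn1.le.trans (P.esc.le_iter' hn1.le (by omega))

theorem step {z : ℂ} (hz : z ∉ KK f) (hv : ∀ u ∉ KK f, P.φ u = P.φ (ev f z) → u = ev f z) :
    (∀ z' ∉ KK f, P.φ z' = P.φ z → z' = z) ∧ f.derivative.eval z ≠ 0 := by
  have hd := P.hd
  have hζ := Complex.isPrimitiveRoot_exp f.natDegree (by omega)
  set ζ := cexp (2 * Real.pi * I / f.natDegree) with hζdef
  have hζ1 : ‖ζ‖ = 1 := hζ.norm'_eq_one (by omega)
  have h0 : P.φ z ≠ 0 := norm_pos_iff.mp (by linarith [P.one_lt hz])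
  have hex : ∀ j : Fin f.natDegree, ∃ u ∉ KK f, P.φ u = P.φ z * ζ ^ (j : ℕ) := fun j =>
    P.surj (by rw [norm_mul, norm_pow, hζ1, one_pow, mul_one]; exact P.one_lt hz)
  choose g hg1 hg2 using hex
  have hginj : Function.Injective g := fun j k e => by
    have := hg2 j
    rw [e, hg2 k] at this
    exact Fin.ext (hζ.pow_inj j.2 k.2 (mul_left_cancel₀ h0 this).symm)
  have hgv : ∀ j, f.eval (g j) = ev f z := fun j => by
    refine hv _ (fun h => hg1 j (P.esc.map_mem_iff.mp h)) ?_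
    change P.φ (ev f (g j)) = _
    rw [P.semi _ (hg1 j), P.semi _ hz, hg2, mul_pow, ← pow_mul, mul_comm (j : ℕ), pow_mul,
      hζ.pow_eq_one, one_pow, mul_one]
  obtain ⟨k1, k2⟩ := count_roots rfl (by omega) hginj hgv
  have key : ∀ z' ∉ KK f, P.φ z' = P.φ z → g ⟨0, by omega⟩ = z' := by
    intro z' hz' e
    obtain ⟨j, hj⟩ := k1 z' (hv _ (fun h => hz' (P.esc.map_mem_iff.mp h))
      (by change P.φ (ev f z') = _; rw [P.semi _ hz', P.semi _ hz, e]))
    have h1 := hg2 j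
    rw [hj, e] at h1
    have h2 : ζ ^ (j : ℕ) = ζ ^ 0 := by
      apply mul_left_cancel₀ h0; rw [← h1]; simp
    rw [← hj]; congr 1
    exact Fin.ext (hζ.pow_inj j.2 (by omega) h2).symm
  refine ⟨fun z' hz' e => (key z' hz' e).symm.trans (key z hz rfl), ?_⟩
  rw [← key z hz rfl]; exact k2 _

theorem inj {z z' : ℂ} (hz : z ∉ KK f) (hz' : z' ∉ KK f) (e : P.φ z' = P.φ z) : z' = z := by
  obtain ⟨R', hR', hinj⟩ := P.inj_far
  obtain ⟨n, hn⟩ := (P.esc.mono hR').not_mem_iff.mp hz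
  induction n generalizing z z' with
  | zero => exact hinj z hn z' hz' e
  | succ n ih =>
    refine (P.step hz fun u hu e' => ?_).1 z' hz' e
    exact ih (fun h => hz (P.esc.map_mem_iff.mp h)) hu e' hn

include P in
theorem crit {z : ℂ} (hz : z ∉ KK f) : f.derivative.eval z ≠ 0 :=
  (P.step hz fun _ hu e => P.inj (fun h => hz (P.esc.map_mem_iff.mp h)) hu e).2

end Phi

/-- The inverse Boettcher coordinate, in logarithmic polar coordinates. -/
structure Rays (F : ℂ → ℂ) (D : ℕ) (K : Set ℂ) where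
  Ψ : ℝ → ℝ → ℂ
  c : ℂ
  C : ℝ
  hc : c ≠ 0
  cont : ContinuousOn (fun p : ℝ × ℝ => Ψ p.1 p.2) (Ioi 0 ×ˢ univ)
  not_mem : ∀ τ θ, 0 < τ → Ψ τ θ ∉ K
  surj : ∀ z ∉ K, ∃ τ θ, 0 < τ ∧ Ψ τ θ = z
  inj : ∀ τ θ τ' θ', 0 < τ → 0 < τ' → Ψ τ θ = Ψ τ' θ' → ∃ k : ℤ, θ = θ' + k
  per : ∀ τ θ, Ψ τ (θ + 1) = Ψ τ θ
  semi : ∀ τ θ, 0 < τ → F (Ψ τ θ) = Ψ (D * τ) (D * θ)
  asym : ∀ τ θ, 0 < τ → ‖c * Ψ τ θ - Real.exp τ * ee θ‖ ≤ C

theorem ee_pow (θ : ℝ) (n : ℕ) : ee θ ^ n = ee (n * θ) := by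
  simp only [ee, ← Complex.exp_nat_mul]; congr 1; push_cast; ring

theorem Phi.rays {f : Polynomial ℂ} {R : ℝ} (P : Phi f R) :
    Nonempty (Rays (ev f) f.natDegree (KK f)) := by
  classical
  obtain ⟨C, hC0, hC⟩ := P.global
  set ψ := Function.invFunOn P.φ (KK f)ᶜ with hψ
  have hn : ∀ (τ θ : ℝ), ‖(Real.exp τ : ℂ) * ee θ‖ = Real.exp τ := fun τ θ => by
    rw [norm_mul, norm_ee, norm_real, Real.norm_of_nonneg (Real.exp_pos _).le, mul_one]
  have hn1 : ∀ (τ θ : ℝ), 0 < τ → 1 < ‖(Real.exp τ : ℂ) * ee θ‖ := fun τ θ h => by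
    rw [hn]; exact Real.one_lt_exp_iff.mpr h
  have h1 : ∀ w : ℂ, 1 < ‖w‖ → ψ w ∉ KK f := fun w hw => Function.invFunOn_mem (P.surj hw)
  have h2 : ∀ w : ℂ, 1 < ‖w‖ → P.φ (ψ w) = w := fun w hw => Function.invFunOn_eq (P.surj hw)
  have h3 : ∀ z ∉ KK f, ψ (P.φ z) = z := fun z hz =>
    P.inj hz (h1 _ (P.one_lt hz)) (h2 _ (P.one_lt hz))
  have h4 : ∀ w : ℂ, 1 < ‖w‖ → ContinuousAt ψ w := by
    intro w hw
    obtain ⟨z, hz, rfl⟩ := P.surj hw
    rw [ContinuousAt, h3 z hz]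
    refine (map_mono (P.nhds_le hz)).trans ?_
    rw [map_map]
    refine Tendsto.congr' ?_ tendsto_id
    filter_upwards [P.esc.isClosed.isOpen_compl.mem_nhds hz] with v hv using (h3 v hv).symm
  have hd0 : (0 : ℝ) < f.natDegree := by have := P.hd; positivity
  refine ⟨⟨fun τ θ => ψ (Real.exp τ * ee θ), P.c, C, P.hc, ?_, fun τ θ h => h1 _ (hn1 τ θ h),
    fun z hz => ?_, fun τ θ τ' θ' h h' e => ?_, fun τ θ => ?_, fun τ θ h => ?_,
    fun τ θ h => ?_⟩⟩
  · intro p hp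
    have := continuous_ee
    exact (ContinuousAt.comp (f := fun p : ℝ × ℝ => (Real.exp p.1 : ℂ) * ee p.2)
      (h4 _ (hn1 _ _ hp.1)) (by fun_prop)).continuousWithinAt
  · have hw := P.one_lt hz
    refine ⟨Real.log ‖P.φ z‖, arg (P.φ z) / (2 * Real.pi), Real.log_pos hw, ?_⟩
    rw [Real.exp_log (by linarith), ee, mul_div_cancel₀ _ (by positivity),
      norm_mul_exp_arg_mul_I, h3 z hz]
  · have e' := congrArg P.φ e
    rw [h2 _ (hn1 _ _ h), h2 _ (hn1 _ _ h')] at e'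
    have e2 := congrArg norm e'
    rw [hn, hn] at e2
    rw [e2] at e'
    exact ee_eq_iff.mp (mul_left_cancel₀ (by simp) e')
  · rw [(ee_eq_iff (x := θ + 1) (y := θ)).mpr ⟨1, by simp⟩]
  · have k1 := h1 _ (hn1 τ θ h)
    rw [← h3 _ (fun h => k1 (P.esc.map_mem_iff.mp h)), P.semi _ k1, h2 _ (hn1 τ θ h), mul_pow,
      ee_pow, Real.exp_nat_mul]
    push_cast; rfl
  · have := hC _ (h1 _ (hn1 τ θ h))
    rwa [h2 _ (hn1 τ θ h), norm_sub_rev] at this

theorem Rays.iterate {F : ℂ → ℂ} {D : ℕ} {K : Set ℂ} (hD : 0 < D) (P : Rays F D K) (n : ℕ) :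
    ∃ P' : Rays F^[n] (D ^ n) K, P'.c = P.c ∧ P'.C = P.C := by
  refine ⟨⟨P.Ψ, P.c, P.C, P.hc, P.cont, P.not_mem, P.surj, P.inj, P.per, ?_, P.asym⟩, rfl, rfl⟩
  intro τ θ h
  induction n with
  | zero => simp
  | succ n ih =>
    rw [Function.iterate_succ_apply', ih, P.semi _ _ (by positivity)]
    congr 1 <;> push_cast <;> ring

theorem exists_rays {f : Polynomial ℂ} (hd : 2 ≤ f.natDegree)
    (hJ : IsConnected (frontier (KK f))) : Nonempty (Rays (ev f) f.natDegree (KK f)) ∧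
      ∀ z ∉ KK f, f.derivative.eval z ≠ 0 := by
  obtain ⟨R, hR⟩ := exists_esc hd
  obtain ⟨φ, c, C, R', h1, h2, h3, h4, h5, h6⟩ := hR.exists_phi hd hJ
  let P : Phi f R' := ⟨φ, c, C, hR.mono h3, hd, h1, h2, h4, h5, h6⟩
  exact ⟨P.rays, fun z hz => P.crit hz⟩

end Pool.Agent.MP_28f04c_an

end

-- part MP_28f04c_an.Comb
section

/-!
Combinatorics of the landing pattern of external rays.
-/

set_option autoImplicit false

open Set Filter Topology

namespace Pool.Agent.MP_28f04c_an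

/-- The open interval `(a,b)` is saturated for the relation `γ s = γ t` modulo integers. -/
def Sat (γ : ℝ → ℂ) (a b : ℝ) : Prop :=
  ∀ s ∈ Ioo a b, ∀ t ∈ Icc b (a + 1), γ s ≠ γ t

/-- A saturated interval whose end points land at different points. -/
def Good (γ : ℝ → ℂ) (a b : ℝ) : Prop :=
  a < b ∧ b ≤ a + 1 ∧ Sat γ a b ∧ γ a ≠ γ b

/-- The classes are pairwise unlinked. -/
def Unlinked (γ : ℝ → ℂ) : Prop :=
  ∀ s a t b : ℝ, s < a → a < t → t < b → b < s + 1 → γ s = γ t → γ a = γ b → γ s = γ a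

theorem per_int {γ : ℝ → ℂ} (hp : ∀ s, γ (s + 1) = γ s) (s : ℝ) (k : ℤ) : γ (s + k) = γ s := by
  have : Function.Periodic γ 1 := hp
  simpa using (this.int_mul k) s

theorem exists_int_mem_Ioc (a t : ℝ) : ∃ k : ℤ, t + k ∈ Ioc a (a + 1) := by
  refine ⟨⌊a - t⌋ + 1, ?_, ?_⟩
  · have := Int.lt_floor_add_one (a - t); push_cast; linarith
  · have := Int.floor_le (a - t); push_cast; linarith

theorem Sat.add_int {γ : ℝ → ℂ} (hp : ∀ s, γ (s + 1) = γ s) {a b : ℝ} (h : Sat γ a b) (k : ℤ) :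
    Sat γ (a + k) (b + k) := by
  intro s hs t ht e
  refine h (s - k) ⟨by linarith [hs.1], by linarith [hs.2]⟩ (t - k)
    ⟨by linarith [ht.1], by linarith [ht.2]⟩ ?_
  have h1 := per_int hp (s - k) k
  have h2 := per_int hp (t - k) k
  simp only [sub_add_cancel] at h1 h2
  rw [← h1, ← h2, e]

theorem Good.add_int {γ : ℝ → ℂ} (hp : ∀ s, γ (s + 1) = γ s) {a b : ℝ} (h : Good γ a b) (k : ℤ) :
    Good γ (a + k) (b + k) := by
  refine ⟨by linarith [h.1], by linarith [h.2.1], h.2.2.1.add_int hp k, ?_⟩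
  rw [per_int hp, per_int hp]; exact h.2.2.2

/-- A class that meets a saturated interval lies in it modulo integers. -/
theorem Sat.mem {γ : ℝ → ℂ} (hp : ∀ s, γ (s + 1) = γ s) {a b : ℝ} (h : Sat γ a b) {s t : ℝ}
    (hs : s ∈ Ioo a b) (e : γ s = γ t) : ∃ k : ℤ, t + k ∈ Ioo a b := by
  obtain ⟨k, hk⟩ := exists_int_mem_Ioc a t
  refine ⟨k, hk.1, ?_⟩
  by_contra hb
  exact h s hs (t + k) ⟨not_lt.mp hb, hk.2⟩ (by rw [per_int hp]; exact e)

theorem left_cut {γ : ℝ → ℂ} (hc : Continuous γ) (hp : ∀ s, γ (s + 1) = γ s) (hu : Unlinked γ)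
    {a b c : ℝ} (h : Good γ a b) (hcab : c ∈ Ioo a b) :
    ∃ s t, a < s ∧ s ≤ c ∧ c ≤ t ∧ t < b ∧ γ s = γ t ∧ Good γ a s ∧
      ∀ c' ∈ Ioo a c, γ c' = γ c → s ≤ c' := by
  obtain ⟨hab, hb1, hsat, hne⟩ := h
  set A : Set (ℝ × ℝ) := (Icc a c ×ˢ Icc c b) ∩ {p | γ p.1 = γ p.2} with hA
  have hAc : IsCompact A :=
    (isCompact_Icc.prod isCompact_Icc).inter_right (isClosed_eq (by fun_prop) (by fun_prop))
  have hAn : A.Nonempty := ⟨(c, c), ⟨⟨hcab.1.le, le_rfl⟩, ⟨le_rfl, hcab.2.le⟩⟩, rfl⟩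
  obtain ⟨⟨s, t⟩, ⟨⟨⟨hs1, hs2⟩, ⟨ht1, ht2⟩⟩, hst⟩, hmin⟩ :=
    hAc.exists_isMinOn hAn continuous_fst.continuousOn
  simp only [mem_ofPred_eq] at hs1 hs2 ht1 ht2 hst
  have hmin' : ∀ u v, a ≤ u → u ≤ c → c ≤ v → v ≤ b → γ u = γ v → s ≤ u := fun u v h1 h2 h3 h4 h5 =>
    hmin (a := (u, v)) ⟨⟨⟨h1, h2⟩, ⟨h3, h4⟩⟩, h5⟩
  have has : a < s := by
    rcases hs1.lt_or_eq with h | h
    · exact h
    · exfalso
      subst h
      rcases ht2.lt_or_eq with h | h
      · exact hsat t ⟨by linarith [hcab.1], h⟩ (a + 1) ⟨hb1, le_rfl⟩ (by rw [hp, hst])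
      · subst h; exact hne hst
  have hsb : s < b := by linarith [hcab.2]
  have htb : t < b := by
    rcases ht2.lt_or_eq with h | h
    · exact h
    · subst h; exact absurd hst (hsat s ⟨has, hsb⟩ t ⟨le_rfl, hb1⟩)
  refine ⟨s, t, has, hs2, ht1, htb, hst, ⟨has, by linarith, ?_, ?_⟩, ?_⟩
  · intro u hu' v hv e
    have hvb : v < b := by
      by_contra hvb
      exact hsat u ⟨hu'.1, by linarith [hu'.2]⟩ v ⟨not_lt.mp hvb, hv.2⟩ e
    by_cases hvc : c ≤ v
    · have := hmin' u v hu'.1.le (by linarith [hu'.2]) hvc hvb.le e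
      linarith [hu'.2]
    · push Not at hvc
      have key : γ u ≠ γ s := fun e2 => by
        have := hmin' u t hu'.1.le (by linarith [hu'.2]) ht1 ht2 (e2.trans hst)
        linarith [hu'.2]
      rcases hv.1.lt_or_eq with h | h
      · exact key (hu u s v t hu'.2 h (by linarith) (by linarith [hu'.1]) e hst)
      · subst h; exact key e
  · intro e
    exact hsat s ⟨has, hsb⟩ (a + 1) ⟨hb1, le_rfl⟩ (by rw [hp, e])
  · intro c' hc' e
    exact hmin' c' c hc'.1.le hc'.2.le le_rfl hcab.2.le e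

theorem Good.neg {γ : ℝ → ℂ} (hp : ∀ s, γ (s + 1) = γ s) {a b : ℝ} (h : Good γ a b) :
    Good (fun s => γ (-s)) (-b) (-a) := by
  obtain ⟨hab, hb1, hsat, hne⟩ := h
  refine ⟨by linarith, by linarith, ?_, by simpa using hne.symm⟩
  intro s hs t ht e
  refine hsat (-s) ⟨by linarith [hs.2], by linarith [hs.1]⟩ (-t + 1)
    ⟨by linarith [ht.2], by linarith [ht.1]⟩ ?_
  rw [hp]; exact e

theorem right_cut {γ : ℝ → ℂ} (hc : Continuous γ) (hp : ∀ s, γ (s + 1) = γ s) (hu : Unlinked γ)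
    {a b c : ℝ} (h : Good γ a b) (hcab : c ∈ Ioo a b) :
    ∃ t, c ≤ t ∧ t < b ∧ Good γ t b := by
  have hp' : ∀ s, (fun s => γ (-s)) (s + 1) = (fun s => γ (-s)) s := fun s => by
    have := hp (-(s + 1))
    simp only
    rw [← this]; congr 1; ring
  have hu' : Unlinked (fun s => γ (-s)) := by
    intro s a t b h1 h2 h3 h4 e1 e2
    simp only at e1 e2 ⊢
    have := hu (-b) (-t) (-a) (-s) (by linarith) (by linarith) (by linarith) (by linarith)
      e2.symm e1.symm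
    rw [e1, e2, this]
  obtain ⟨s, t, h1, h2, -, -, -, h3, -⟩ := left_cut (γ := fun s => γ (-s)) (c := -c)
    (by fun_prop) hp' hu' (h.neg hp) ⟨by linarith [hcab.2], by linarith [hcab.1]⟩
  refine ⟨-s, by linarith, by linarith, ?_⟩
  have := h3.neg hp'
  simpa using this

end Pool.Agent.MP_28f04c_an

end

-- part MP_28f04c_an.Landing
section

/-!
External rays land, and the inverse Boettcher map extends continuously to the unit circle.
-/

set_option autoImplicit false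

open Set Filter Topology Metric Complex

namespace Pool.Agent.MP_28f04c_an

theorem chain_bound {p : ℝ → ℂ} {x y s b : ℝ} (hs : 0 < s) (hb : 0 ≤ b)
    (h : ∀ τ ∈ Icc x y, ∀ τ' ∈ Icc x y, |τ - τ'| ≤ s → ‖p τ - p τ'‖ ≤ b) (k : ℕ) :
    ∀ τ ∈ Icc x y, ∀ τ' ∈ Icc x y, τ ≤ τ' → τ' - τ ≤ k * s → ‖p τ - p τ'‖ ≤ k * b := by
  induction k with
  | zero =>
    intro τ _ τ' _ h1 h2
    have : τ = τ' := by simp at h2; linarith
    simp [this]
  | succ k ih =>
    intro τ hτ τ' hτ' h1 h2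
    push_cast at h2 ⊢
    by_cases hc : τ' - τ ≤ s
    · have := h τ hτ τ' hτ' (by rw [abs_le]; constructor <;> linarith)
      have : 0 ≤ k * b := by positivity
      linarith
    · push Not at hc
      have hm : τ + s ∈ Icc x y := ⟨by linarith [hτ.1], by linarith [hτ'.2]⟩
      have k1 := h τ hτ _ hm (by rw [abs_le]; constructor <;> linarith)
      have k2 := ih _ hm τ' hτ' (by linarith) (by linarith)
      linarith [norm_sub_le_norm_sub_add_norm_sub (p τ) (p (τ + s)) (p τ')]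

namespace Rays

variable {F : ℂ → ℂ} {D : ℕ} {K : Set ℂ} (P : Rays F D K)

theorem perZ (τ θ : ℝ) (k : ℤ) : P.Ψ τ (θ + k) = P.Ψ τ θ := per_int (P.per τ) θ k

theorem contAt {τ : ℝ} (hτ : 0 < τ) (θ : ℝ) :
    ContinuousAt (fun p : ℝ × ℝ => P.Ψ p.1 p.2) (τ, θ) :=
  P.cont.continuousAt ((isOpen_Ioi.prod isOpen_univ).mem_nhds ⟨hτ, mem_univ _⟩)

theorem contAt_left {τ : ℝ} (hτ : 0 < τ) (θ : ℝ) : ContinuousAt (fun σ => P.Ψ σ θ) τ :=
  ContinuousAt.comp (f := fun σ : ℝ => (σ, θ)) (P.contAt hτ θ) (by fun_prop)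

theorem radial (hD : 2 ≤ D) {δ : ℝ} (hδ : 0 < δ)
    (hexp : ∀ τ θ : ℝ, 0 < τ → D * τ ≤ 1 → ∀ y, ‖y - P.Ψ τ θ‖ < δ →
      2 * ‖y - P.Ψ τ θ‖ ≤ ‖F y - F (P.Ψ τ θ)‖) :
    ∃ A, 0 < A ∧ ∀ (n : ℕ) (θ : ℝ), ∀ τ ∈ Icc (1 / (D : ℝ) ^ (n + 1)) (1 / (D : ℝ) ^ n),
      ∀ τ' ∈ Icc (1 / (D : ℝ) ^ (n + 1)) (1 / (D : ℝ) ^ n), τ ≤ τ' →
        ‖P.Ψ τ θ - P.Ψ τ' θ‖ ≤ A / 2 / 2 ^ n := by
  have hD2 : (2 : ℝ) ≤ D := by exact_mod_cast hD
  have hD0 : (0 : ℝ) < D := by linarith
  obtain ⟨η, hη, hη'⟩ : ∃ η, 0 < η ∧ ∀ θ : ℝ, ∀ τ ∈ Icc (1 / (D : ℝ)) 1, ∀ τ' ∈ Icc (1 / (D : ℝ)) 1,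
      |τ - τ'| ≤ η → ‖P.Ψ τ θ - P.Ψ τ' θ‖ ≤ δ / 2 := by
    have h1 := ((isCompact_Icc (a := 1 / (D : ℝ)) (b := 1)).prod
      (isCompact_Icc (a := (0 : ℝ)) (b := 1))).uniformContinuousOn_of_continuous
      (P.cont.mono fun p hp => ⟨lt_of_lt_of_le (by positivity) hp.1.1, mem_univ _⟩)
    obtain ⟨η, hη, h2⟩ := Metric.uniformContinuousOn_iff_le.mp h1 (δ / 2) (by positivity)
    refine ⟨η, hη, fun θ τ hτ τ' hτ' h => ?_⟩
    have hf : Int.fract θ ∈ Icc (0 : ℝ) 1 := ⟨Int.fract_nonneg _, (Int.fract_lt_one _).le⟩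
    have := h2 (τ, Int.fract θ) ⟨hτ, hf⟩ (τ', Int.fract θ) ⟨hτ', hf⟩
      (by rw [Prod.dist_eq, dist_self, Real.dist_eq]; exact max_le h hη.le)
    rw [dist_eq_norm] at this
    rw [← Int.fract_add_floor θ, P.perZ, P.perZ]
    exact this
  have step : ∀ (n : ℕ) (θ : ℝ), ∀ τ ∈ Icc (1 / (D : ℝ) ^ (n + 1)) (1 / (D : ℝ) ^ n),
      ∀ τ' ∈ Icc (1 / (D : ℝ) ^ (n + 1)) (1 / (D : ℝ) ^ n), |τ - τ'| ≤ η / (D : ℝ) ^ n →
        ‖P.Ψ τ θ - P.Ψ τ' θ‖ ≤ δ / 2 / 2 ^ n := by
    intro n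
    induction n with
    | zero => simpa using hη'
    | succ n ih =>
      intro θ τ hτ τ' hτ' h
      have hpos : ∀ σ ∈ Icc (1 / (D : ℝ) ^ (n + 1 + 1)) (1 / (D : ℝ) ^ (n + 1)), 0 < σ :=
        fun σ hσ => lt_of_lt_of_le (by positivity) hσ.1
      have hmul : ∀ σ ∈ Icc (1 / (D : ℝ) ^ (n + 1 + 1)) (1 / (D : ℝ) ^ (n + 1)),
          D * σ ∈ Icc (1 / (D : ℝ) ^ (n + 1)) (1 / (D : ℝ) ^ n) := fun σ hσ => by
        constructor
        · calc _ = D * (1 / (D : ℝ) ^ (n + 1 + 1)) := by field_simp; ring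
            _ ≤ _ := by gcongr; exact hσ.1
        · calc _ ≤ D * (1 / (D : ℝ) ^ (n + 1)) := by gcongr; exact hσ.2
            _ = _ := by field_simp; ring
      have hle1 : D * τ' ≤ 1 := (hmul τ' hτ').2.trans
        (by rw [div_le_one (by positivity)]; exact one_le_pow₀ (by linarith))
      have hsub : uIcc τ' τ ⊆ Icc (1 / (D : ℝ) ^ (n + 1 + 1)) (1 / (D : ℝ) ^ (n + 1)) :=
        uIcc_subset_Icc hτ' hτ
      have hkey : ∀ σ ∈ uIcc τ' τ, ‖P.Ψ σ θ - P.Ψ τ' θ‖ < δ →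
          2 * ‖P.Ψ σ θ - P.Ψ τ' θ‖ ≤ δ / 2 / 2 ^ n := by
        intro σ hσ h1
        refine (hexp τ' θ (hpos _ hτ') hle1 _ h1).trans ?_
        rw [P.semi _ _ (hpos _ (hsub hσ)), P.semi _ _ (hpos _ hτ')]
        refine ih _ _ (hmul _ (hsub hσ)) _ (hmul _ hτ') ?_
        rw [← mul_sub, abs_mul, abs_of_pos hD0]
        calc _ ≤ D * (η / (D : ℝ) ^ (n + 1)) := by
              gcongr; exact (abs_sub_left_of_mem_uIcc hσ).trans h
          _ = _ := by field_simp; ring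
      have h2n : δ / 2 / 2 ^ n ≤ δ / 2 := div_le_self (by positivity) (one_le_pow₀ (by norm_num))
      have hlt : ‖P.Ψ τ θ - P.Ψ τ' θ‖ < δ := by
        by_contra hc
        push Not at hc
        have hcont : ContinuousOn (fun σ => ‖P.Ψ σ θ - P.Ψ τ' θ‖) (uIcc τ' τ) := fun σ hσ =>
          ((P.contAt_left (hpos _ (hsub hσ)) θ).sub continuousAt_const).norm.continuousWithinAt
        obtain ⟨σ, hσ, e⟩ := intermediate_value_uIcc hcont (a := τ') (b := τ)
          (show δ / 2 ∈ _ from mem_uIcc.mpr (Or.inl ⟨by simp; linarith, by linarith⟩))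
        simp only at e
        have := hkey σ hσ (by linarith)
        linarith
      have := hkey τ right_mem_uIcc hlt
      rw [pow_succ, ← div_div]
      linarith
  obtain ⟨k, hk⟩ := exists_nat_ge (1 / η)
  rw [div_le_iff₀ hη] at hk
  have hk0 : (0 : ℝ) < k := by
    rcases (Nat.cast_nonneg (α := ℝ) k).eq_or_lt with h | h
    · rw [← h] at hk; linarith
    · exact h
  refine ⟨k * δ, by positivity, fun n θ τ hτ τ' hτ' h => ?_⟩
  have := chain_bound (p := fun σ => P.Ψ σ θ) (by positivity) (by positivity) (step n θ) k τ hτ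
    τ' hτ' h (by
      have k1 : 0 < τ := lt_of_lt_of_le (by positivity) hτ.1
      calc τ' - τ ≤ 1 / (D : ℝ) ^ n := by linarith [hτ'.2]
        _ ≤ k * η / (D : ℝ) ^ n := by gcongr
        _ = _ := by ring)
  refine this.trans (le_of_eq ?_)
  ring

theorem exists_ext (hD : 2 ≤ D) {δ : ℝ} (hδ : 0 < δ)
    (hexp : ∀ τ θ : ℝ, 0 < τ → D * τ ≤ 1 → ∀ y, ‖y - P.Ψ τ θ‖ < δ →
      2 * ‖y - P.Ψ τ θ‖ ≤ ‖F y - F (P.Ψ τ θ)‖) :
    ∃ Q : ℝ → ℝ → ℂ, Continuous (fun p : ℝ × ℝ => Q p.1 p.2) ∧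
      (∀ τ θ, 0 < τ → Q τ θ = P.Ψ τ θ) ∧ ∀ τ θ, τ ≤ 0 → Q τ θ = Q 0 θ := by
  obtain ⟨A, hA, hrad⟩ := P.radial hD hδ hexp
  have hD2 : (2 : ℝ) ≤ D := by exact_mod_cast hD
  have hmono : ∀ n : ℕ, 1 / (D : ℝ) ^ (n + 1) ≤ 1 / (D : ℝ) ^ n := fun n =>
    one_div_le_one_div_of_le (by positivity) (pow_le_pow_right₀ (by linarith) (Nat.le_succ n))
  have hseq : ∀ (θ : ℝ) (n : ℕ), dist (P.Ψ (1 / (D : ℝ) ^ n) θ) (P.Ψ (1 / (D : ℝ) ^ (n + 1)) θ) ≤
      A / 2 / 2 ^ n := fun θ n => by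
    rw [dist_comm, dist_eq_norm]
    exact hrad n θ _ ⟨le_rfl, hmono n⟩ _ ⟨hmono n, le_rfl⟩ (hmono n)
  choose γ hγ using fun θ => cauchySeq_tendsto_of_complete (cauchySeq_of_le_geometric_two (hseq θ))
  have hγ1 : ∀ (θ : ℝ) (n : ℕ), dist (P.Ψ (1 / (D : ℝ) ^ n) θ) (γ θ) ≤ A / 2 ^ n := fun θ n =>
    dist_le_of_le_geometric_two_of_tendsto (hseq θ) (hγ θ) n
  have hA0 : Tendsto (fun n : ℕ => A / 2 ^ n) atTop (𝓝 0) :=
    tendsto_const_nhds.div_atTop (tendsto_pow_atTop_atTop_of_one_lt (by norm_num))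
  have hU : ∀ ε, 0 < ε → ∃ τ₀, 0 < τ₀ ∧ ∀ τ θ, 0 < τ → τ ≤ τ₀ → dist (P.Ψ τ θ) (γ θ) < ε := by
    intro ε hε
    obtain ⟨n₀, hn₀⟩ := (hA0.eventually (gt_mem_nhds (half_pos hε))).exists
    refine ⟨1 / (D : ℝ) ^ n₀, by positivity, fun τ θ h1 h2 => ?_⟩
    have hex : ∃ j : ℕ, 1 / (D : ℝ) ^ (n₀ + j + 1) ≤ τ := by
      obtain ⟨j, hj⟩ := pow_unbounded_of_one_lt (1 / τ) (show (1 : ℝ) < D by linarith)
      refine ⟨j, ?_⟩
      rw [one_div_le (by positivity) h1]
      exact hj.le.trans (pow_le_pow_right₀ (by linarith) (by omega))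
    classical
    have k1 := Nat.find_spec hex
    have k2 : τ ≤ 1 / (D : ℝ) ^ (n₀ + Nat.find hex) := by
      rcases Nat.eq_zero_or_pos (Nat.find hex) with h | h
      · rw [h]; exact h2
      · have := Nat.find_min hex (m := Nat.find hex - 1) (by omega)
        rw [show n₀ + (Nat.find hex - 1) + 1 = n₀ + Nat.find hex by omega] at this
        exact (not_le.mp this).le
    set n := n₀ + Nat.find hex with hn
    have k3 := hrad n θ τ ⟨k1, k2⟩ _ ⟨hmono n, le_rfl⟩ k2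
    have k4 := hγ1 θ n
    have k5 : A / 2 ^ n ≤ A / 2 ^ n₀ := by
      gcongr
      · norm_num
      · omega
    have k6 : A / 2 / 2 ^ n ≤ A / 2 ^ n := by gcongr; linarith
    rw [← dist_eq_norm] at k3
    linarith [dist_triangle (P.Ψ τ θ) (P.Ψ (1 / (D : ℝ) ^ n) θ) (γ θ)]
  have hγc : Continuous γ := by
    refine TendstoUniformly.continuous (F := fun (n : ℕ) θ => P.Ψ (1 / (D : ℝ) ^ n) θ)
      (p := atTop) ?_ (Frequently.of_forall fun n => ?_)
    · rw [Metric.tendstoUniformly_iff]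
      intro ε hε
      filter_upwards [hA0.eventually (gt_mem_nhds hε)] with n hn θ
      rw [dist_comm]; exact (hγ1 θ n).trans_lt hn
    · rw [continuous_iff_continuousAt]
      intro θ
      exact ContinuousAt.comp (f := fun θ : ℝ => (1 / (D : ℝ) ^ n, θ))
        (P.contAt (by positivity) θ) (by fun_prop)
  refine ⟨fun τ θ => if 0 < τ then P.Ψ τ θ else γ θ, ?_, fun τ θ h => if_pos h,
    fun τ θ h => (if_neg (not_lt.mpr h)).trans (if_neg (lt_irrefl _)).symm⟩
  rw [continuous_iff_continuousAt]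
  rintro ⟨τ, θ⟩
  rcases lt_trichotomy τ 0 with h | h | h
  · refine (hγc.comp continuous_snd).continuousAt.congr ?_
    filter_upwards [(isOpen_lt continuous_fst continuous_const).mem_nhds
      (show (τ, θ) ∈ {p : ℝ × ℝ | p.1 < 0} from h)] with p hp
    exact (if_neg (not_lt.mpr (le_of_lt hp))).symm
  · subst h
    rw [ContinuousAt, Metric.tendsto_nhds]
    intro ε hε
    obtain ⟨τ₀, h1, h2⟩ := hU (ε / 2) (half_pos hε)
    filter_upwards [(isOpen_lt continuous_fst continuous_const).mem_nhds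
      (show ((0 : ℝ), θ) ∈ {p : ℝ × ℝ | p.1 < τ₀} from h1),
      ((hγc.comp continuous_snd).tendsto ((0 : ℝ), θ)).eventually
        (ball_mem_nhds _ (half_pos hε))] with p hp hp'
    simp only [lt_self_iff_false, if_false]
    have hp2 : dist (γ p.2) (γ θ) < ε / 2 := hp'
    split_ifs with a
    · linarith [h2 p.1 p.2 a (le_of_lt hp), dist_triangle (P.Ψ p.1 p.2) (γ p.2) (γ θ)]
    · linarith
  · refine (P.contAt h θ).congr ?_
    filter_upwards [(isOpen_lt continuous_const continuous_fst).mem_nhds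
      (show (τ, θ) ∈ {p : ℝ × ℝ | 0 < p.1} from h)] with p hp
    exact (if_pos hp).symm

end Rays

end Pool.Agent.MP_28f04c_an

end

-- part MP_28f04c_an.Model
section

/-!
An abstract model of the boundary values of the inverse Boettcher map, and the existence of
a short saturated interval with periodic end points.
-/

set_option autoImplicit false

open Set Filter Topology

namespace Pool.Agent.MP_28f04c_an

/-- The properties of the landing map that are used in the construction. -/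
structure Model where
  γ : ℝ → ℂ
  F : ℂ → ℂ
  D : ℕ
  δ : ℝ
  ε : ℝ
  hD : 2 ≤ D
  hδ : 0 < δ
  hε : 0 < ε
  hεD : D * ε ≤ 1
  cont : Continuous γ
  per : ∀ s, γ (s + 1) = γ s
  semi : ∀ s, F (γ s) = γ (D * s)
  diff : Differentiable ℂ F
  unif : ∀ s t, |s - t| ≤ ε → dist (γ s) (γ t) < δ / 2
  expand : ∀ s t, dist (γ s) (γ t) < δ → 2 * dist (γ s) (γ t) ≤ dist (γ (D * s)) (γ (D * t))
  deriv_ge : ∀ s, 2 ≤ ‖deriv F (γ s)‖
  inj : ∀ (s t : ℝ) (k : ℤ), γ s = γ t → D * s = D * t + k → ∃ j : ℤ, s = t + j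
  surj : ∀ s t : ℝ, γ (D * s) = γ t → ∃ u, γ u = γ s ∧ ∃ k : ℤ, D * u = t + k
  unlinked : Unlinked γ
  good : ∃ a b, Good γ a b

namespace Model

variable (M : Model)

theorem two_le : (2 : ℝ) ≤ M.D := by exact_mod_cast M.hD

theorem D_pos : (0 : ℝ) < M.D := by linarith [M.two_le]

theorem one_le_pow (n : ℕ) : (1 : ℝ) ≤ (M.D : ℝ) ^ n := one_le_pow₀ (by linarith [M.two_le])

theorem two_le_pow {n : ℕ} (hn : 1 ≤ n) : (2 : ℝ) ≤ (M.D : ℝ) ^ n := by
  calc (2 : ℝ) ≤ (M.D : ℝ) ^ 1 := by simpa using M.two_le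
    _ ≤ (M.D : ℝ) ^ n := pow_le_pow_right₀ (by linarith [M.two_le]) hn

theorem eps_le_half : M.ε ≤ 1 / 2 := by nlinarith [M.two_le, M.hεD, M.hε]

theorem perZ (s : ℝ) (k : ℤ) : M.γ (s + k) = M.γ s := per_int M.per s k

theorem map_eq {s t : ℝ} (h : M.γ s = M.γ t) : M.γ (M.D * s) = M.γ (M.D * t) := by
  rw [← M.semi, ← M.semi, h]

theorem map_eq_pow {s t : ℝ} (h : M.γ s = M.γ t) (n : ℕ) :
    M.γ ((M.D : ℝ) ^ n * s) = M.γ ((M.D : ℝ) ^ n * t) := by
  induction n with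
  | zero => simpa using h
  | succ n ih =>
    have := M.map_eq ih
    rw [← mul_assoc, ← mul_assoc, ← pow_succ'] at this
    exact this

theorem eq_of_close {s t : ℝ} (h : dist (M.γ s) (M.γ t) < M.δ)
    (e : M.γ (M.D * s) = M.γ (M.D * t)) : M.γ s = M.γ t := by
  have := M.expand s t h
  rw [e, dist_self] at this
  exact dist_le_zero.mp (by linarith)

theorem close_eq {s t : ℝ} (h : |s - t| ≤ M.ε) (e : M.γ (M.D * s) = M.γ (M.D * t)) :
    M.γ s = M.γ t :=
  M.eq_of_close (by linarith [M.unif s t h, M.hδ]) e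

theorem sat_push {a b : ℝ} (h : Sat M.γ a b) :
    Sat M.γ (M.D * a) (M.D * b) := by
  intro s' hs' t' ht' e
  have hD := M.D_pos
  have hs : s' / M.D ∈ Ioo a b :=
    ⟨by rw [lt_div_iff₀ hD]; linarith [hs'.1], by rw [div_lt_iff₀ hD]; linarith [hs'.2]⟩
  have e' : M.γ (M.D * (s' / M.D)) = M.γ t' := by rw [mul_div_cancel₀ _ hD.ne']; exact e
  obtain ⟨u, hu, k, hk⟩ := M.surj _ _ e'
  obtain ⟨l, hl1, hl2⟩ := h.mem M.per hs hu.symm
  have h1 : (M.D : ℝ) * a < M.D * (u + l) := by gcongr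
  have h2 : (M.D : ℝ) * (u + l) < M.D * b := by gcongr
  have h3 : (0 : ℝ) < ((-k - M.D * l : ℤ) : ℝ) := by push_cast; linarith [ht'.1]
  have h4 : ((-k - M.D * l : ℤ) : ℝ) < 1 := by push_cast; linarith [ht'.2]
  have h5 : (0 : ℤ) < -k - M.D * l := by exact_mod_cast h3
  have h6 : -k - M.D * l < (1 : ℤ) := by exact_mod_cast h4
  omega

theorem good_push {a b : ℝ} (h : Good M.γ a b) (hl : b - a ≤ M.ε) :
    Good M.γ (M.D * a) (M.D * b) := by
  have hD := M.D_pos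
  refine ⟨by nlinarith [h.1], by nlinarith [M.hεD], M.sat_push h.2.2.1, fun e => h.2.2.2 ?_⟩
  exact M.close_eq (by rw [abs_sub_comm, abs_of_pos (by linarith [h.1])]; exact hl) e

theorem good_push_pow {a b : ℝ} (h : Good M.γ a b) (n : ℕ) (hl : (M.D : ℝ) ^ n * (b - a) ≤ M.ε) :
    Good M.γ ((M.D : ℝ) ^ n * a) ((M.D : ℝ) ^ n * b) := by
  induction n with
  | zero => simpa using h
  | succ n ih =>
    have h0 : 0 ≤ (M.D : ℝ) ^ n * (b - a) := mul_nonneg (by positivity) (by linarith [h.1])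
    have hl' : (M.D : ℝ) ^ n * (b - a) ≤ M.ε := by
      rw [pow_succ', mul_assoc] at hl
      nlinarith [M.two_le]
    have := M.good_push (ih hl') (by linarith)
    rw [← mul_assoc, ← mul_assoc, ← pow_succ'] at this
    exact this

theorem sat_pull {a b : ℝ} (h : Sat M.γ (M.D * a) (M.D * b)) (hl : b - a ≤ M.ε) :
    Sat M.γ a b := by
  intro s hs t ht e
  have hD := M.D_pos
  have hs' : (M.D : ℝ) * s ∈ Ioo (M.D * a) (M.D * b) := ⟨by nlinarith [hs.1], by nlinarith [hs.2]⟩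
  obtain ⟨k, hk1, hk2⟩ := h.mem M.per hs' (M.map_eq e)
  have hu : (M.D : ℝ) * (t + k / M.D) = M.D * t + k := by field_simp
  have hu1 : a < t + k / M.D := by
    rw [← hu] at hk1; exact lt_of_mul_lt_mul_left hk1 hD.le
  have hu2 : t + k / M.D < b := by
    rw [← hu] at hk2; exact lt_of_mul_lt_mul_left hk2 hD.le
  have e2 : M.γ (t + k / M.D) = M.γ s := by
    refine M.close_eq ?_ ?_
    · rw [abs_le]; constructor <;> linarith [hs.1, hs.2]
    · rw [hu, M.perZ, M.map_eq e]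
  obtain ⟨j, hj⟩ := M.inj _ t k (e2.trans e) hu
  have h3 : (j : ℝ) < 0 := by linarith [ht.1]
  have h4 : (-1 : ℝ) < j := by linarith [ht.2]
  have h5 : j < 0 := by exact_mod_cast h3
  have h6 : -1 < j := by exact_mod_cast h4
  omega

theorem sat_pull_pow {a b : ℝ} (hab : a ≤ b) (n : ℕ)
    (h : Sat M.γ ((M.D : ℝ) ^ n * a) ((M.D : ℝ) ^ n * b))
    (hl : (M.D : ℝ) ^ n * (b - a) ≤ M.ε) : Sat M.γ a b := by
  induction n with
  | zero => simpa using h
  | succ n ih =>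
    have h0 : 0 ≤ (M.D : ℝ) ^ n * (b - a) := mul_nonneg (by positivity) (by linarith)
    have hl' : (M.D : ℝ) ^ n * (b - a) ≤ M.ε := by
      rw [pow_succ', mul_assoc] at hl
      nlinarith [M.two_le]
    refine ih (M.sat_pull ?_ (by linarith)) hl'
    rw [← mul_assoc, ← mul_assoc, ← pow_succ']
    exact h

/-- An inverse branch of an iterate of multiplication by `D` modulo one. -/
def IsPB (μ : ℝ → ℝ) (n : ℕ) : Prop := ∃ j : ℤ, ∀ u, (M.D : ℝ) ^ n * μ u = u + j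

variable {M}

theorem IsPB.comp {μ ν : ℝ → ℝ} {n m : ℕ} (h1 : M.IsPB μ n) (h2 : M.IsPB ν m) :
    M.IsPB (μ ∘ ν) (m + n) := by
  obtain ⟨j, hj⟩ := h1
  obtain ⟨k, hk⟩ := h2
  refine ⟨k + (M.D : ℤ) ^ m * j, fun u => ?_⟩
  simp only [Function.comp]
  rw [pow_add, mul_assoc, hj, mul_add, hk]; push_cast; ring

theorem IsPB.sub {μ : ℝ → ℝ} {n : ℕ} (h : M.IsPB μ n) (u v : ℝ) :
    (M.D : ℝ) ^ n * (μ v - μ u) = v - u := by
  obtain ⟨j, hj⟩ := h
  rw [mul_sub, hj, hj]; ring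

theorem IsPB.strictMono {μ : ℝ → ℝ} {n : ℕ} (h : M.IsPB μ n) : StrictMono μ := by
  intro u v huv
  have h1 := h.sub u v
  have h2 : (0 : ℝ) < (M.D : ℝ) ^ n := pow_pos M.D_pos n
  by_contra hc
  push Not at hc
  nlinarith

theorem IsPB.sub_le {μ : ℝ → ℝ} {n : ℕ} (h : M.IsPB μ n) {u v : ℝ} (huv : u ≤ v) :
    μ v - μ u ≤ v - u := by
  have h1 := h.sub u v
  have h2 := M.one_le_pow n
  have h3 : 0 ≤ μ v - μ u := sub_nonneg.mpr (h.strictMono.monotone huv)
  nlinarith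

theorem IsPB.sat {μ : ℝ → ℝ} {n : ℕ} (h : M.IsPB μ n) {u v : ℝ} (huv : u ≤ v)
    (hs : Sat M.γ u v) (hl : v - u ≤ M.ε) : Sat M.γ (μ u) (μ v) := by
  refine M.sat_pull_pow (h.strictMono.monotone huv) n ?_ (by rw [h.sub]; exact hl)
  obtain ⟨j, hj⟩ := h
  rw [hj, hj]
  exact hs.add_int M.per j

theorem IsPB.gamma {μ : ℝ → ℝ} {n : ℕ} (h : M.IsPB μ n) (u : ℝ) :
    M.γ ((M.D : ℝ) ^ n * μ u) = M.γ u := by
  obtain ⟨j, hj⟩ := h
  rw [hj, M.perZ]

variable (M)

theorem far_step {s t η : ℝ} (e : M.γ s = M.γ t) (h : ∀ k : ℤ, η ≤ |s - t - k|) (k : ℤ) :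
    min (M.D * η) (M.D * M.ε) ≤ |M.D * s - M.D * t - k| := by
  by_contra hc
  push Not at hc
  rw [lt_min_iff] at hc
  have hD := M.D_pos
  have hu : (M.D : ℝ) * (t + k / M.D) = M.D * t + k := by field_simp
  have h1 : |M.D * s - M.D * t - k| = M.D * |s - (t + k / M.D)| := by
    rw [← abs_of_pos hD, ← abs_mul, abs_of_pos hD]; congr 1; rw [mul_sub, hu]; ring
  rw [h1] at hc
  have h2 : |s - (t + k / M.D)| ≤ M.ε := (lt_of_mul_lt_mul_left hc.2 hD.le).le
  have h3 : |s - (t + k / M.D)| < η := lt_of_mul_lt_mul_left hc.1 hD.le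
  have e2 : M.γ s = M.γ (t + k / M.D) := M.close_eq h2 (by rw [hu, M.perZ, M.map_eq e])
  obtain ⟨j, hj⟩ := M.inj _ t k (e2.symm.trans e) hu
  have := h j
  rw [hj] at h3
  have h4 : s - (t + j) = s - t - j := by ring
  rw [h4] at h3
  linarith

theorem far_pow {s t η : ℝ} (e : M.γ s = M.γ t) (h : ∀ k : ℤ, η ≤ |s - t - k|) (n : ℕ) (k : ℤ) :
    min ((M.D : ℝ) ^ n * η) M.ε ≤ |(M.D : ℝ) ^ n * s - (M.D : ℝ) ^ n * t - k| := by
  induction n generalizing k with
  | zero => simpa using Or.inl (h k)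
  | succ n ih =>
    have := M.far_step (M.map_eq_pow e n) ih k
    rw [← mul_assoc, ← mul_assoc, ← pow_succ'] at this
    refine le_trans ?_ this
    have h2 := M.two_le
    have hε := M.hε
    rw [le_min_iff, mul_min_of_nonneg _ _ M.D_pos.le, le_min_iff, ← mul_assoc, ← pow_succ']
    refine ⟨⟨min_le_left _ _, ?_⟩, ?_⟩ <;> exact (min_le_right _ _).trans (by nlinarith)

end Model

theorem sat_trans {γ : ℝ → ℂ} (hp : ∀ s, γ (s + 1) = γ s) {a a' b' b'' : ℝ} (h1 : Sat γ a b')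
    (h2 : Sat γ a' b') (h3 : Sat γ a' b'') (ha : a ≤ a') (hab : a' < b'') (hbb : b'' ≤ b')
    (hb : b' ≤ a + 1) :
    Sat γ a b'' := by
  intro u hu v hv e
  by_cases hua : a' < u
  · exact h3 u ⟨hua, hu.2⟩ v ⟨hv.1, by linarith [hv.2]⟩ e
  · push Not at hua
    by_cases hvb : v < b'
    · exact h2 v ⟨by linarith [hv.1], hvb⟩ (u + 1) ⟨by linarith [hu.1], by linarith⟩
        (by rw [hp, e])
    · push Not at hvb
      exact h1 u ⟨hu.1, by linarith⟩ v ⟨hvb, hv.2⟩ e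

end Pool.Agent.MP_28f04c_an

end

-- part MP_28f04c_an.ToModel
section

/-!
The landing map of the external rays satisfies the requirements of the abstract model.
-/

set_option autoImplicit false

open Set Filter Topology Metric Complex

namespace Pool.Agent.MP_28f04c_an

/-- Rays together with their continuous extension to potential zero. -/
structure Ext (F : ℂ → ℂ) (D : ℕ) (K : Set ℂ) extends Rays F D K where
  Q : ℝ → ℝ → ℂ
  Qcont : Continuous (fun p : ℝ × ℝ => Q p.1 p.2)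
  Qpos : ∀ τ θ, 0 < τ → Q τ θ = Ψ τ θ
  Qneg : ∀ τ θ, τ ≤ 0 → Q τ θ = Q 0 θ
  hD : 2 ≤ D
  hF : Continuous F
  hK : IsClosed K

namespace Ext

variable {F : ℂ → ℂ} {D : ℕ} {K : Set ℂ} (E : Ext F D K)

theorem cont_left (θ : ℝ) : Continuous fun τ => E.Q τ θ :=
  E.Qcont.comp (f := fun τ : ℝ => (τ, θ)) (by fun_prop)

theorem cont_right (τ : ℝ) : Continuous (E.Q τ) :=
  E.Qcont.comp (f := fun θ : ℝ => (τ, θ)) (by fun_prop)

theorem lim (θ : ℝ) : Tendsto (fun τ => E.Ψ τ θ) (𝓝[>] 0) (𝓝 (E.Q 0 θ)) := by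
  refine (((E.cont_left θ).tendsto 0).mono_left nhdsWithin_le_nhds).congr' ?_
  filter_upwards [self_mem_nhdsWithin] with τ hτ using E.Qpos τ θ hτ

theorem per0 (θ : ℝ) : E.Q 0 (θ + 1) = E.Q 0 θ :=
  tendsto_nhds_unique ((E.lim (θ + 1)).congr fun τ => E.per τ θ) (E.lim θ)

theorem semi0 (θ : ℝ) : F (E.Q 0 θ) = E.Q 0 (D * θ) := by
  have hD : (0 : ℝ) < D := by have := E.hD; positivity
  have h1 : Tendsto (fun τ : ℝ => D * τ) (𝓝[>] 0) (𝓝[>] 0) := by
    refine tendsto_nhdsWithin_iff.mpr ⟨?_, ?_⟩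
    · have : Tendsto (fun τ : ℝ => D * τ) (𝓝 0) (𝓝 (D * 0)) :=
        (continuous_const.mul continuous_id).tendsto 0
      rw [mul_zero] at this
      exact this.mono_left nhdsWithin_le_nhds
    · filter_upwards [self_mem_nhdsWithin] with τ hτ using mul_pos hD hτ
  refine tendsto_nhds_unique ((E.hF.tendsto _).comp (E.lim θ))
    (((E.lim (D * θ)).comp h1).congr' ?_)
  filter_upwards [self_mem_nhdsWithin] with τ hτ using (E.semi τ θ hτ).symm

theorem asym0 {τ : ℝ} (hτ : 0 ≤ τ) (θ : ℝ) : ‖E.c * E.Q τ θ - Real.exp τ * ee θ‖ ≤ E.C := by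
  rcases hτ.eq_or_lt with rfl | h
  · have h1 : Tendsto (fun τ : ℝ => (Real.exp τ : ℂ) * ee θ) (𝓝[>] 0)
        (𝓝 ((Real.exp 0 : ℂ) * ee θ)) :=
      (Continuous.tendsto (by fun_prop) 0).mono_left nhdsWithin_le_nhds
    refine le_of_tendsto (((E.lim θ).const_mul E.c).sub h1).norm ?_
    filter_upwards [self_mem_nhdsWithin] with τ hτ using E.asym τ θ hτ
  · rw [E.Qpos τ θ h]; exact E.asym τ θ h

theorem norm_le {τ : ℝ} (hτ : 0 ≤ τ) (θ : ℝ) :
    ‖E.c‖ * ‖E.Q τ θ‖ ≤ Real.exp τ + E.C ∧ Real.exp τ - E.C ≤ ‖E.c‖ * ‖E.Q τ θ‖ := by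
  have h1 := E.asym0 hτ θ
  have h2 := abs_norm_sub_norm_le (E.c * E.Q τ θ) (Real.exp τ * ee θ)
  rw [norm_mul, norm_mul, norm_ee, norm_real, Real.norm_of_nonneg (Real.exp_pos _).le, mul_one,
    abs_le] at h2
  constructor <;> linarith [h2.1, h2.2]

theorem not_interior (θ : ℝ) : E.Q 0 θ ∉ interior K := by
  refine (isOpen_interior (s := K)).isClosed_compl.mem_of_tendsto (E.lim θ) ?_
  filter_upwards [self_mem_nhdsWithin] with τ hτ h using E.not_mem τ θ hτ (interior_subset h)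

theorem mem0 (θ : ℝ) : E.Q 0 θ ∈ K := by
  by_contra hc
  obtain ⟨τ, θ', hτ, e⟩ := E.surj _ hc
  have hD2 : (2 : ℝ) ≤ D := by exact_mod_cast E.hD
  have key : ∀ n : ℕ, E.Ψ ((D : ℝ) ^ n * τ) ((D : ℝ) ^ n * θ') = E.Q 0 ((D : ℝ) ^ n * θ) := by
    intro n
    induction n with
    | zero => simpa using e
    | succ n ih =>
      rw [pow_succ', mul_assoc, mul_assoc, mul_assoc, ← E.semi _ _ (by positivity), ← E.semi0, ih]
  obtain ⟨n, hn⟩ := pow_unbounded_of_one_lt (2 * E.C / τ) (show (1 : ℝ) < D by linarith)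
  rw [div_lt_iff₀ hτ] at hn
  have h1 := (E.norm_le (τ := (D : ℝ) ^ n * τ) (by positivity) ((D : ℝ) ^ n * θ')).2
  rw [E.Qpos _ _ (by positivity), key] at h1
  have h2 := (E.norm_le le_rfl ((D : ℝ) ^ n * θ)).1
  rw [Real.exp_zero] at h2
  linarith [Real.add_one_le_exp ((D : ℝ) ^ n * τ)]

theorem frontier_eq : frontier K = range (E.Q 0) := by
  refine Subset.antisymm (fun x hx => ?_) ?_
  · set T := ‖E.c‖ * (‖x‖ + 1) + E.C with hT
    have hcl : IsClosed ((fun p : ℝ × ℝ => E.Q p.1 p.2) '' (Icc 0 T ×ˢ Icc 0 1)) :=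
      ((isCompact_Icc.prod isCompact_Icc).image E.Qcont).isClosed
    have h1 : x ∈ closure Kᶜ := by rw [closure_compl]; exact hx.2
    have h2 := (isOpen_ball (x := x) (ε := 1)).inter_closure ⟨mem_ball_self one_pos, h1⟩
    have h3 : ball x 1 ∩ Kᶜ ⊆ (fun p : ℝ × ℝ => E.Q p.1 p.2) '' (Icc 0 T ×ˢ Icc 0 1) := by
      rintro z ⟨hz1, hz2⟩
      obtain ⟨τ, θ, hτ, rfl⟩ := E.surj z hz2
      refine ⟨(τ, Int.fract θ), ⟨⟨hτ.le, ?_⟩, Int.fract_nonneg _, (Int.fract_lt_one _).le⟩, ?_⟩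
      · have k1 := (E.norm_le hτ.le θ).2
        rw [E.Qpos _ _ hτ] at k1
        rw [mem_ball, dist_eq_norm] at hz1
        have k2 : ‖E.Ψ τ θ‖ ≤ ‖x‖ + 1 := by linarith [norm_le_norm_add_norm_sub' (E.Ψ τ θ) x]
        have k3 : ‖E.c‖ * ‖E.Ψ τ θ‖ ≤ ‖E.c‖ * (‖x‖ + 1) := by gcongr
        simp only
        linarith [Real.add_one_le_exp τ]
      · simp only
        rw [E.Qpos _ _ hτ, ← E.toRays.perZ τ (Int.fract θ) ⌊θ⌋, Int.fract_add_floor]
    obtain ⟨⟨τ, θ⟩, ⟨hτ, -⟩, e⟩ := hcl.closure_subset_iff.mpr h3 h2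
    rcases hτ.1.eq_or_lt with h | h
    · simp only at h e
      exact ⟨θ, by rw [h, e]⟩
    · simp only at h e
      rw [E.Qpos _ _ h] at e
      exact absurd (E.hK.frontier_subset hx) (e ▸ E.not_mem τ θ h)
  · rintro _ ⟨θ, rfl⟩
    rw [E.hK.frontier_eq]
    exact ⟨E.mem0 θ, E.not_interior θ⟩

/-- Two rays that land together separate the plane. -/
theorem sep {s a t b : ℝ} (hsa : s < a) (hat : a < t) (htb : t < b) (hbs : b < s + 1)
    (e : E.Q 0 s = E.Q 0 t) {S : Set ℂ} (hS : IsPreconnected S) (hSK : S ⊆ K)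
    (hx : E.Q 0 s ∉ S) (ha : E.Q 0 a ∈ S) (hb : E.Q 0 b ∈ S) : False := by
  set x := E.Q 0 s with hxdef
  set α : ℝ → ℂ := fun u => E.Q (-u) s + E.Q u t - x with hα
  have hαc : Continuous α :=
    (((E.cont_left s).comp continuous_neg).add (E.cont_left t)).sub continuous_const
  have hα1 : ∀ u, 0 ≤ u → α u = E.Q u t := fun u hu => by
    simp only [hα]; rw [E.Qneg _ _ (by linarith)]; ring
  have hα2 : ∀ u, 0 ≤ u → α (-u) = E.Q u s := fun u hu => by
    simp only [hα]; rw [E.Qneg (-u) t (by linarith), neg_neg, ← e]; ring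
  have hαcases : ∀ u, α u = x ∨ ∃ τ, 0 < τ ∧ (α u = E.Ψ τ s ∨ α u = E.Ψ τ t) := fun u => by
    rcases lt_trichotomy u 0 with h | h | h
    · right
      refine ⟨-u, by linarith, Or.inl ?_⟩
      rw [← E.Qpos _ _ (by linarith), ← hα2 _ (by linarith), neg_neg]
    · left; rw [h, hα1 0 le_rfl, e]
    · right
      exact ⟨u, h, Or.inr (by rw [hα1 u h.le, E.Qpos _ _ h])⟩
  have hc0 := norm_pos_iff.mpr E.hc
  have hcl : IsClosed (range α) := by
    refine (isProperMap_iff_tendsto_cocompact.mpr ⟨hαc, ?_⟩).isClosed_range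
    rw [← Metric.cobounded_eq_cocompact (α := ℂ), ← tendsto_norm_atTop_iff_cobounded]
    refine tendsto_atTop_mono (f := fun u => (‖u‖ - E.C) / ‖E.c‖) (fun u => ?_)
      ((tendsto_atTop_add_const_right _ (-E.C) tendsto_norm_cocompact_atTop).atTop_div_const hc0)
    rw [div_le_iff₀' hc0, Real.norm_eq_abs]
    rcases le_total 0 u with h | h
    · rw [hα1 u h, abs_of_nonneg h]
      linarith [(E.norm_le h t).2, Real.add_one_le_exp u]
    · have := hα2 (-u) (by linarith)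
      rw [neg_neg] at this
      rw [this, abs_of_nonpos h]
      linarith [(E.norm_le (τ := -u) (by linarith) s).2, Real.add_one_le_exp (-u)]
  have hxK : x ∈ K := E.mem0 s
  have hSZ : S ⊆ (range α)ᶜ := by
    rintro _ hz ⟨u, rfl⟩
    rcases hαcases u with h | ⟨τ, hτ, h | h⟩
    · exact hx (h ▸ hz)
    · exact E.not_mem τ s hτ (h ▸ hSK hz)
    · exact E.not_mem τ t hτ (h ▸ hSK hz)
  have hray : ∀ θ T, E.Q 0 θ ∈ S → ee θ ≠ ee s → ee θ ≠ ee t →
      (fun τ => E.Q τ θ) '' Icc 0 T ⊆ (range α)ᶜ := by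
    rintro θ T hθ h1 h2 _ ⟨τ, hτ, rfl⟩
    rcases hτ.1.eq_or_lt with h | h
    · simp only
      rw [← h]; exact hSZ hθ
    · rintro ⟨u, hu⟩
      simp only at hu
      rw [E.Qpos _ _ h] at hu
      rcases hαcases u with k | ⟨τ', hτ', k | k⟩
      · exact E.not_mem τ θ h (by rw [← hu, k]; exact hxK)
      · exact h1 (ee_eq_iff.mpr (E.inj _ _ _ _ h hτ' (hu.symm.trans k)))
      · exact h2 (ee_eq_iff.mpr (E.inj _ _ _ _ h hτ' (hu.symm.trans k)))
  have n1 : ee s ≠ ee a := ee_ne hsa (by linarith)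
  have n2 : ee a ≠ ee t := ee_ne hat (by linarith)
  have n3 : ee s ≠ ee b := ee_ne (by linarith) hbs
  have n4 : ee t ≠ ee b := ee_ne htb (by linarith)
  have hev : ∀ z w : ℂ, z ≠ w → ∀ᶠ T in atTop, 4 * E.C < Real.exp T * ‖z - w‖ := fun z w h =>
    (Real.tendsto_exp_atTop.atTop_mul_const
      (norm_pos_iff.mpr (sub_ne_zero.mpr h))).eventually_gt_atTop _
  obtain ⟨T, hT0, t1, t2, t3, t4⟩ := ((eventually_ge_atTop (0 : ℝ)).and ((hev _ _ n1).and
    ((hev _ _ n2.symm).and ((hev _ _ n3).and (hev _ _ n4))))).exists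
  have p1 : IsPreconnected ((fun τ => E.Q τ a) '' Icc 0 T) :=
    isPreconnected_Icc.image _ (E.cont_left a).continuousOn
  have p2 : IsPreconnected ((fun τ => E.Q τ b) '' Icc 0 T) :=
    isPreconnected_Icc.image _ (E.cont_left b).continuousOn
  have p3 := (p1.union (E.Q 0 a) (mem_image_of_mem (fun τ => E.Q τ a) (left_mem_Icc.mpr hT0))
    ha hS).union (E.Q 0 b) (Or.inr hb)
    (mem_image_of_mem (fun τ => E.Q τ b) (left_mem_Icc.mpr hT0)) p2
  have p4 : (fun τ => E.Q τ a) '' Icc 0 T ∪ S ∪ (fun τ => E.Q τ b) '' Icc 0 T ⊆ (range α)ᶜ :=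
    union_subset (union_subset (hray a T ha n1.symm n2) hSZ) (hray b T hb n3.symm n4.symm)
  have m1 : E.Q T a ∈ (fun τ => E.Q τ a) '' Icc 0 T ∪ S ∪ (fun τ => E.Q τ b) '' Icc 0 T :=
    Or.inl (Or.inl ⟨T, ⟨hT0, le_rfl⟩, rfl⟩)
  have m2 : E.Q T b ∈ (fun τ => E.Q τ a) '' Icc 0 T ∪ S ∪ (fun τ => E.Q τ b) '' Icc 0 T :=
    Or.inr ⟨T, ⟨hT0, le_rfl⟩, rfl⟩
  have hpc : IsPathConnected (connectedComponentIn (range α)ᶜ (E.Q T a)) :=
    (hcl.isOpen_compl.connectedComponentIn.isConnected_iff_isPathConnected).mp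
      (isConnected_connectedComponentIn_iff.mpr (p4 m1))
  obtain ⟨β, hβ⟩ := (hpc.joinedIn _ (mem_connectedComponentIn (p4 m1)) _
    (p3.subset_connectedComponentIn m1 p4 m2)).mono (connectedComponentIn_subset _ _)
  refine cross (α := fun u => E.c * α u) (β := fun v => E.c * β.extend v) (by fun_prop)
    (by fun_prop) hsa hat htb hbs (C := E.C) (T := T) (fun u hu => ?_) (fun u hu => ?_) ?_ ?_
    t1 t2 t3 t4 (fun u v h => ?_)
  · rw [hα1 u hu]; exact E.asym0 hu t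
  · rw [hα2 u hu]; exact E.asym0 hu s
  · rw [Path.extend_zero]; exact E.asym0 hT0 a
  · rw [Path.extend_one]; exact E.asym0 hT0 b
  · exact hβ _ ⟨u, mul_left_cancel₀ E.hc h⟩

theorem unlinked : Unlinked (E.Q 0) := by
  intro s a t b h1 h2 h3 h4 e1 e2
  by_contra hc
  exact E.sep h1 h2 h3 h4 e1 (S := {E.Q 0 a}) isPreconnected_singleton
    (singleton_subset_iff.mpr (E.mem0 a)) hc rfl e2.symm

end Ext

theorem exists_exit {K : Set ℂ} (hK : IsCompact K) {c v : ℂ} (hc : c ∈ interior K) (hv : ‖v‖ = 1) :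
    ∃ t : ℝ, 0 < t ∧ c + t * v ∈ frontier K ∧ ∀ s : ℝ, 0 ≤ s → s < t → c + s * v ∈ interior K := by
  obtain ⟨B, hB⟩ := hK.isBounded.exists_norm_le
  have hcont : Continuous fun s : ℝ => c + s * v := by fun_prop
  set A := Ici (0 : ℝ) ∩ (fun s : ℝ => c + s * v) ⁻¹' (interior K)ᶜ with hA
  have hAc : IsClosed A := isClosed_Ici.inter (isOpen_interior.isClosed_compl.preimage hcont)
  have hB0 : 0 ≤ B := (norm_nonneg _).trans (hB c (interior_subset hc))
  have hAn : A.Nonempty := by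
    refine ⟨B + ‖c‖ + 1, by simp only [mem_Ici]; positivity, fun h => ?_⟩
    have h1 := hB _ (interior_subset h)
    have h2 := norm_sub_le (c + ((B + ‖c‖ + 1 : ℝ) : ℂ) * v) c
    rw [add_sub_cancel_left, norm_mul, hv, norm_real, Real.norm_of_nonneg (by positivity)] at h2
    simp only at h1
    linarith
  have hAb : BddBelow A := ⟨0, fun s hs => hs.1⟩
  have h1 := hAc.csInf_mem hAn hAb
  have h2 : ∀ s : ℝ, 0 ≤ s → s < sInf A → c + s * v ∈ interior K := fun s hs hs' => by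
    by_contra hc'
    exact absurd (csInf_le hAb (show s ∈ A from ⟨hs, hc'⟩)) (not_le.mpr hs')
  have h3 : 0 < sInf A := by
    rcases (show 0 ≤ sInf A from h1.1).eq_or_lt with h | h
    · exact absurd (by rw [← h]; simpa using hc) h1.2
    · exact h
  refine ⟨sInf A, h3, ⟨?_, h1.2⟩, h2⟩
  refine mem_closure_of_tendsto ((hcont.tendsto (sInf A)).mono_left
    (nhdsWithin_le_nhds (s := Iio (sInf A)))) ?_
  filter_upwards [Ioo_mem_nhdsLT h3] with s hs using interior_subset (h2 s hs.1.le hs.2)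

theorem exists_chord {K : Set ℂ} (hK : IsCompact K) {c : ℂ} (hc : c ∈ interior K) :
    ∃ (y z : ℂ) (S : Set ℂ), y ≠ z ∧ y ∈ frontier K ∧ z ∈ frontier K ∧ IsPreconnected S ∧ S ⊆ K ∧
      y ∈ S ∧ z ∈ S ∧ ∀ x ∈ S, x ∉ interior K → x = y ∨ x = z := by
  obtain ⟨t, ht, h1, h2⟩ := exists_exit hK hc (v := 1) (by simp)
  obtain ⟨t', ht', k1, k2⟩ := exists_exit hK hc (v := -1) (by simp)
  have key : ∀ s ∈ Icc (-t') t, c + (s : ℂ) ∉ interior K →
      c + (s : ℂ) = c + t * 1 ∨ c + (s : ℂ) = c + t' * -1 := by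
    intro s hs hx
    rcases le_total 0 s with h | h
    · left
      rcases hs.2.eq_or_lt with e | e
      · rw [e, mul_one]
      · exact absurd (by simpa using h2 s h e) hx
    · right
      rcases hs.1.eq_or_lt with e | e
      · rw [← e]; simp
      · exact absurd (by simpa using k2 (-s) (by linarith) (by linarith)) hx
  refine ⟨_, _, (fun s : ℝ => c + s) '' Icc (-t') t, ?_, h1, k1,
    isPreconnected_Icc.image _ (by fun_prop), ?_, ⟨t, ⟨by linarith, le_rfl⟩, by simp⟩,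
    ⟨-t', ⟨le_rfl, by linarith⟩, by simp⟩, ?_⟩
  · intro e
    have := congrArg Complex.re e
    simp at this
    linarith
  · rintro _ ⟨s, hs, rfl⟩
    by_cases hx : c + (s : ℂ) ∈ interior K
    · exact interior_subset hx
    · rcases key s hs hx with e | e
      · simp only; rw [e]; exact hK.isClosed.frontier_subset h1
      · simp only; rw [e]; exact hK.isClosed.frontier_subset k1
  · rintro _ ⟨s, hs, rfl⟩ hx
    exact key s hs hx

namespace Ext

variable {F : ℂ → ℂ} {D : ℕ} {K : Set ℂ} (E : Ext F D K)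

theorem good (hK : IsCompact K) (hi : (interior K).Nonempty) : ∃ a b, Good (E.Q 0) a b := by
  obtain ⟨c, hc⟩ := hi
  obtain ⟨y, z, S, hyz, hy, hz, hS, hSK, hyS, hzS, hS'⟩ := exists_chord hK hc
  rw [E.frontier_eq] at hy hz
  obtain ⟨a', rfl⟩ := hy
  obtain ⟨b'', rfl⟩ := hz
  obtain ⟨k, hk1, hk2⟩ := exists_int_mem_Ioc a' b''
  have hb' : E.Q 0 (b'' + k) = E.Q 0 b'' := per_int E.per0 _ _
  set b' := b'' + k with hb'def
  have hcont := E.cont_right 0
  obtain ⟨a, ⟨ha1, ha2⟩, hamax⟩ := (isCompact_Icc.inter_right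
    (isClosed_eq hcont continuous_const)).exists_isGreatest
    (s := Icc a' b' ∩ {s | E.Q 0 s = E.Q 0 a'}) ⟨a', ⟨le_rfl, hk1.le⟩, rfl⟩
  obtain ⟨b, ⟨hb1, hb2⟩, hbmin⟩ := (isCompact_Icc.inter_right
    (isClosed_eq hcont continuous_const)).exists_isLeast
    (s := Icc a b' ∩ {s | E.Q 0 s = E.Q 0 b''}) ⟨b', ⟨ha1.2, le_rfl⟩, hb'⟩
  simp only [mem_ofPred_eq] at ha2 hb2
  have hne : E.Q 0 a ≠ E.Q 0 b := by rw [ha2, hb2]; exact hyz
  have hab : a < b := lt_of_le_of_ne hb1.1 fun e => hne (by rw [e])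
  refine ⟨a, b, hab, by linarith [hb1.2, ha1.1], fun s hs t ht e => ?_, hne⟩
  have h1 : E.Q 0 s ≠ E.Q 0 a' := fun e' =>
    absurd (hamax ⟨⟨by linarith [ha1.1, hs.1], by linarith [hb1.2, hs.2]⟩, e'⟩) (not_le.mpr hs.1)
  have h2 : E.Q 0 s ≠ E.Q 0 b'' := fun e' =>
    absurd (hbmin ⟨⟨hs.1.le, by linarith [hb1.2, hs.2]⟩, e'⟩) (not_le.mpr hs.2)
  have h3 : b < t := lt_of_le_of_ne ht.1 fun e' => h2 (by rw [e, ← e', hb2])
  have h4 : t < a + 1 := lt_of_le_of_ne ht.2 fun e' => h1 (by rw [e, e', E.per0, ha2])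
  refine E.sep hs.2 h3 h4 (by linarith [hs.1]) e hS hSK (fun hx => ?_) (hb2 ▸ hzS)
    (by rw [E.per0, ha2]; exact hyS)
  rcases hS' _ hx (E.not_interior s) with e' | e'
  · exact h1 e'
  · exact h2 e'

end Ext

end Pool.Agent.MP_28f04c_an

end

-- part MP_28f04c_an.Expand
section

/-!
A hyperbolic polynomial has an iterate that is expanding outside the interior of the filled
Julia set.
-/

set_option autoImplicit false

open Set Filter Topology Metric Complex

namespace Pool.Agent.MP_28f04c_an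

/-- The `n`-th iterate as a polynomial. -/
noncomputable def itP (f : Polynomial ℂ) (n : ℕ) : Polynomial ℂ := f.comp^[n] Polynomial.X

theorem itP_eval (f : Polynomial ℂ) (n : ℕ) (z : ℂ) : (itP f n).eval z = (ev f)^[n] z := by
  rw [itP, Polynomial.iterate_comp_eval, Polynomial.eval_X]; rfl

theorem ev_itP (f : Polynomial ℂ) (n : ℕ) : ev (itP f n) = (ev f)^[n] := funext (itP_eval f n)

theorem itP_natDegree (f : Polynomial ℂ) (n : ℕ) : (itP f n).natDegree = f.natDegree ^ n := by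
  rw [itP, Polynomial.natDegree_iterate_comp, Polynomial.natDegree_X, mul_one]

theorem deriv_ev (f : Polynomial ℂ) (z : ℂ) : deriv (ev f) z = f.derivative.eval z :=
  f.deriv

/-- The union of the forward orbits of the critical points. -/
def PC (f : Polynomial ℂ) : Set ℂ :=
  ⋃ c ∈ {c : ℂ | f.derivative.eval c = 0}, Set.range (fun n : ℕ => (ev f)^[n] c)

theorem mem_PC_of_deriv {f : Polynomial ℂ} {n : ℕ} {x : ℂ} (h : deriv (ev f)^[n] x = 0) :
    (ev f)^[n] x ∈ PC f := by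
  induction n generalizing x with
  | zero => simp at h
  | succ n ih =>
    rw [Function.iterate_succ, deriv_comp _ ((diff_ev f).iterate n _) (diff_ev f _),
      mul_eq_zero] at h
    rcases h with h | h
    · exact ih h
    · rw [deriv_ev] at h
      exact mem_biUnion h ⟨n + 1, rfl⟩

theorem exists_branch {f : Polynomial ℂ} {n : ℕ} {w z : ℂ} {δ : ℝ} (hδ : 0 < δ)
    (hw : (ev f)^[n] w = z) (hPC : ∀ u ∈ ball z δ, u ∉ PC f) :
    ∃ g : ℂ → ℂ, DifferentiableOn ℂ g (ball z δ) ∧ g z = w ∧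
      (∀ u ∈ ball z δ, (ev f)^[n] (g u) = u) ∧ deriv g z = (deriv (ev f)^[n] w)⁻¹ := by
  classical
  have hcov := (itP f n).isCoveringMapOn_eval
  have := (convex_ball z δ).contractibleSpace ⟨z, mem_ball_self hδ⟩
  have := (isOpen_ball (x := z) (ε := δ)).locallyPathConnectedSpace
  obtain ⟨G, ⟨hG1, hG2⟩, -⟩ := hcov.existsUnique_continuousMap_lifts (A := ball z δ)
    ⟨Subtype.val, continuous_subtype_val⟩ (a₀ := ⟨z, mem_ball_self hδ⟩) (e₀ := w)
    (by simpa [itP_eval] using hw) (by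
      rintro ⟨u, hu⟩ ⟨x, hx, e⟩
      refine hPC u hu ?_
      simp only [mem_ofPred_eq, ← deriv_ev, ev_itP] at hx
      have := mem_PC_of_deriv hx
      have e' : (itP f n).eval x = u := e
      rw [← itP_eval, e'] at this
      exact this)
  set g : ℂ → ℂ := fun u => if hu : u ∈ ball z δ then G ⟨u, hu⟩ else 0 with hg
  have h1 : ∀ u (hu : u ∈ ball z δ), g u = G ⟨u, hu⟩ := fun u hu => by simp only [hg, dif_pos hu]
  have h2 : ∀ u ∈ ball z δ, (ev f)^[n] (g u) = u := fun u hu => by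
    rw [h1 u hu, ← itP_eval]; exact congrFun hG2 ⟨u, hu⟩
  have h3 : ContinuousOn g (ball z δ) := by
    rw [continuousOn_iff_continuous_domRestrict]
    convert G.continuous using 1
    ext u; exact h1 u u.2
  have h4 : ∀ u ∈ ball z δ, HasDerivAt g (deriv (ev f)^[n] (g u))⁻¹ u := fun u hu => by
    refine HasDerivAt.of_local_left_inverse (h3.continuousAt (isOpen_ball.mem_nhds hu))
      ((diff_ev f).iterate n _).hasDerivAt (fun h => hPC u hu ?_) ?_
    · have := mem_PC_of_deriv h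
      rwa [h2 u hu] at this
    · filter_upwards [isOpen_ball.mem_nhds hu] with v hv using h2 v hv
  have h5 : g z = w := by rw [h1 z (mem_ball_self hδ), hG1]
  exact ⟨g, fun u hu => (h4 u hu).differentiableAt.differentiableWithinAt, h5, h2,
    by rw [(h4 z (mem_ball_self hδ)).deriv, h5]⟩

theorem exists_ball_subset {δ B : ℝ} (hδ : 0 < δ) (hB : 0 < B) : ∃ r, 0 < r ∧
    ∀ (g : ℂ → ℂ) (z : ℂ), DifferentiableOn ℂ g (ball z δ) → (∀ u ∈ ball z δ, ‖g u‖ ≤ B) →
      1 / 4 ≤ ‖deriv g z‖ → ball (g z) r ⊆ g '' ball z δ := by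
  set M := 2 * B / δ with hM
  have hM0 : 0 < M := by positivity
  set t := min (δ / 2) (δ / (16 * M)) with ht
  have ht0 : 0 < t := lt_min (by positivity) (by positivity)
  have ht1 : t < δ := (min_le_left _ _).trans_lt (by linarith)
  have ht2 : 2 * M / δ * t ≤ 1 / 8 := by
    have : t ≤ δ / (16 * M) := min_le_right _ _
    calc _ ≤ 2 * M / δ * (δ / (16 * M)) := by gcongr
      _ = 1 / 8 := by field_simp; norm_num
  refine ⟨t / 8 / 2, by positivity, fun g z hg hb hd => ?_⟩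
  have hz := mem_ball_self (x := z) hδ
  have h1 : ∀ u ∈ ball z δ, ‖dslope g z u‖ ≤ M := fun u hu =>
    norm_dslope_le_div_of_mapsTo_ball hg (fun v hv => by
      rw [mem_closedBall, dist_eq_norm]
      linarith [norm_sub_le (g v) (g z), hb v hv, hb z hz]) hu
  have h2 : DifferentiableOn ℂ (dslope g z) (ball z δ) :=
    (differentiableOn_dslope (ball_mem_nhds z hδ)).mpr hg
  have h3 : ∀ u ∈ closedBall z t, ‖u - z‖ / 8 ≤ ‖g u - g z‖ := fun u hu => by
    have hu' : u ∈ ball z δ := closedBall_subset_ball ht1 hu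
    have k1 := dist_le_div_mul_dist_of_mapsTo_ball h2 (R₂ := 2 * M) (fun v hv => by
      rw [mem_closedBall, dist_eq_norm]
      linarith [norm_sub_le (dslope g z v) (dslope g z z), h1 v hv, h1 z hz]) hu'
    have k2 : 2 * M / δ * dist u z ≤ 2 * M / δ * t := by gcongr; exact hu
    rw [dist_eq_norm, dslope_same] at k1
    have k3 := norm_le_norm_add_norm_sub (dslope g z u) (deriv g z)
    rw [← sub_smul_dslope g z u, norm_smul]
    have k4 : 1 / 8 ≤ ‖dslope g z u‖ := by linarith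
    nlinarith [norm_nonneg (u - z)]
  have h4 : DiffContOnCl ℂ g (ball z t) :=
    (hg.mono (by rw [closure_ball z ht0.ne']; exact closedBall_subset_ball ht1)).diffContOnCl
  refine (h4.ball_subset_image_closedBall ht0 (ε := t / 8) (fun u hu => ?_) ?_).trans
    (image_mono (closedBall_subset_ball ht1))
  · have := h3 u (sphere_subset_closedBall hu)
    rwa [mem_sphere_iff_norm.mp hu] at this
  · refine Frequently.filter_mono (Eventually.frequently ?_) (nhdsWithin_le_nhds (s := {z}ᶜ))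
    filter_upwards [self_mem_nhdsWithin,
      mem_nhdsWithin_of_mem_nhds (closedBall_mem_nhds z ht0)] with u hu hu' e
    have := h3 u hu'
    rw [e, sub_self, norm_zero] at this
    have k : 0 < ‖u - z‖ := norm_pos_iff.mpr (sub_ne_zero.mpr hu)
    linarith

theorem exists_expanding {f : Polynomial ℂ}
    (hcrit : ∀ z ∉ KK f, f.derivative.eval z ≠ 0) {R : ℝ} (h : Esc f R)
    (hPC : Disjoint (closure (PC f)) (frontier (KK f))) (R₁ : ℝ) :
    ∃ N, 1 ≤ N ∧ ∀ w ∉ interior (KK f), (ev f)^[N] w ∉ interior (KK f) →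
      ‖(ev f)^[N] w‖ ≤ R₁ → 4 ≤ ‖deriv (ev f)^[N] w‖ := by
  have hsub : PC f ⊆ KK f := by
    intro u hu
    obtain ⟨c, hc, n, rfl⟩ := mem_iUnion₂.mp hu
    refine (h.iter_mem_iff n).mpr ?_
    by_contra hK
    exact hcrit c hK hc
  have hcl : closure (PC f) ⊆ KK f := h.isClosed.closure_subset_iff.mpr hsub
  have hint : closure (PC f) ⊆ interior (KK f) := fun u hu => by
    by_contra hc
    exact hPC.ne_of_mem hu (by rw [h.isClosed.frontier_eq]; exact ⟨hcl hu, hc⟩) rfl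
  obtain ⟨δ, hδ, hδ'⟩ := (h.isCompact.of_isClosed_subset isClosed_closure
    hcl).exists_thickening_subset_open isOpen_interior hint
  have hball : ∀ z ∉ interior (KK f), ∀ u ∈ ball z δ, u ∉ PC f := fun z hz u hu hu' =>
    hz (hδ' (mem_thickening_iff.mpr ⟨u, subset_closure hu', by rwa [dist_comm]⟩))
  set B := max R (R₁ + δ) with hB
  have hBe : Esc f B := h.mono (le_max_left _ _)
  have hB0 : 0 < B := by linarith [hBe.1]
  have hB1 : R₁ + δ ≤ B := le_max_right _ _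
  obtain ⟨r, hr0, hr⟩ := exists_ball_subset hδ hB0
  obtain ⟨N, hN⟩ := ((isCompact_closedBall (0 : ℂ) B).inter_right
    (isOpen_interior (s := KK f)).isClosed_compl).elim_directed_cover
    (fun N => thickening r {y | B < ‖(ev f)^[N] y‖}) (fun _ => isOpen_thickening) (by
      rintro w ⟨-, hw⟩
      rw [← closure_compl, Metric.mem_closure_iff] at hw
      obtain ⟨y, hy, hwy⟩ := hw r hr0
      obtain ⟨n, hn⟩ := hBe.not_mem_iff.mp hy
      exact mem_iUnion.mpr ⟨n, mem_thickening_iff.mpr ⟨y, hn, hwy⟩⟩)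
    (Monotone.directed_le fun n m hnm => thickening_subset_of_subset r
      fun y (hy : B < _) => lt_of_lt_of_le hy (hBe.le_iter' hy.le hnm))
  refine ⟨N + 1, by omega, fun w hw hz hzR => ?_⟩
  by_contra hc
  push Not at hc
  obtain ⟨g, g1, g2, g3, g4⟩ := exists_branch hδ rfl (hball _ hz)
  set z := (ev f)^[N + 1] w with hzdef
  have hlt : ∀ u ∈ ball z δ, ‖u‖ < B := fun u hu => by
    rw [mem_ball, dist_eq_norm] at hu
    linarith [norm_le_norm_add_norm_sub' u z]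
  have hgb : ∀ u ∈ ball z δ, ‖g u‖ ≤ B := fun u hu => by
    by_contra hc'
    push Not at hc'
    have := hBe.le_iter hc'.le (N + 1)
    rw [g3 u hu] at this
    linarith [hlt u hu]
  have hne : deriv (ev f)^[N + 1] w ≠ 0 := fun e =>
    hball _ hz z (mem_ball_self hδ) (mem_PC_of_deriv e)
  have hsubset := hr g z g1 hgb (by
    rw [g4, norm_inv, one_div]
    exact inv_anti₀ (norm_pos_iff.mpr hne) hc.le)
  have hwB : ‖w‖ ≤ B := g2 ▸ hgb z (mem_ball_self hδ)
  obtain ⟨y, hy, hwy⟩ := mem_thickening_iff.mp (hN ⟨by simpa using hwB, hw⟩)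
  obtain ⟨u, hu, rfl⟩ := hsubset (show y ∈ ball (g z) r by rw [g2, mem_ball, dist_comm]; exact hwy)
  have k1 : B < ‖(ev f)^[N] (g u)‖ := hy
  have k2 := hBe.le_iter' k1.le (Nat.le_succ N)
  rw [g3 u hu] at k2
  linarith [hlt u hu]

end Pool.Agent.MP_28f04c_an

end
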