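import Pool.Agent.MP_28f04c_an.Mg.Main
import Pool.Agent.MP_28f04c_an.H67.Defs

/-!
The Julia set is the boundary of the filled Julia set; hyperbolicity keeps the closure of the
critical orbits away from it; the two forms of the quasisymmetry condition.
-/

set_option autoImplicit false

open Set Filter Topology Metric
open scoped NNReal

namespace Pool.Agent.MP_28f04c_an.H67

theorem iter_eq (f : Polynomial ℂ) (n : ℕ) : iter f n = (ev f)^[n] := rfl

theorem one_le_sq (z : ℂ) : 1 ≤ Real.sqrt (1 + ‖z‖ ^ 2) :=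
  Real.le_sqrt_of_sq_le (by nlinarith [sq_nonneg ‖z‖])

theorem norm_le_sq (z : ℂ) : ‖z‖ ≤ Real.sqrt (1 + ‖z‖ ^ 2) :=
  Real.le_sqrt_of_sq_le (by linarith)

theorem sq_le_add (z : ℂ) : Real.sqrt (1 + ‖z‖ ^ 2) ≤ 1 + ‖z‖ :=
  Real.sqrt_le_iff.2 ⟨by positivity, by nlinarith [norm_nonneg z]⟩

theorem chord_le (z w : ℂ) : chord z w ≤ 2 * ‖z - w‖ := by
  unfold chord
  have h1 := one_le_sq z
  have h2 := one_le_sq w
  exact div_le_self (by positivity) (by nlinarith)

theorem chord_le_far {z w : ℂ} {M : ℝ} (hM : 0 < M) (hz : M ≤ ‖z‖) (hw : M ≤ ‖w‖) :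
    chord z w ≤ 4 / M := by
  unfold chord
  have h1 := norm_le_sq z
  have h2 := norm_le_sq w
  have h3 := norm_sub_le z w
  have h4 : ‖z‖ * ‖w‖ ≤ Real.sqrt (1 + ‖z‖ ^ 2) * Real.sqrt (1 + ‖w‖ ^ 2) := by
    gcongr
  have h5 : 0 < ‖z‖ * ‖w‖ := mul_pos (by linarith) (by linarith)
  rw [div_le_div_iff₀ (by linarith) hM]
  nlinarith [mul_le_mul_of_nonneg_left hz (norm_nonneg w),
    mul_le_mul_of_nonneg_left hw (norm_nonneg z)]

theorem chord_ge {z w : ℂ} {R : ℝ} (hR : 1 ≤ R) (hz : 2 * R ≤ ‖z‖) (hw : ‖w‖ ≤ R) :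
    1 / (4 * R) ≤ chord z w := by
  unfold chord
  have h1 := sq_le_add z
  have h2 := sq_le_add w
  have h3 := one_le_sq z
  have h4 := one_le_sq w
  have h5 : ‖z‖ ≤ ‖z - w‖ + ‖w‖ := by simpa using norm_add_le (z - w) w
  have h6 : Real.sqrt (1 + ‖z‖ ^ 2) * Real.sqrt (1 + ‖w‖ ^ 2) ≤ (2 * ‖z‖) * (2 * R) := by
    gcongr <;> linarith
  rw [div_le_div_iff₀ (by linarith) (by positivity)]
  nlinarith

theorem julia_eq {f : Polynomial ℂ} (hd : 2 ≤ f.natDegree) : julia f = frontier (KK f) := by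
  obtain ⟨R, hR⟩ := exists_esc hd
  have hR1 := hR.1
  ext z
  constructor
  · intro hz
    by_contra hc
    apply hz
    rw [hR.isClosed.frontier_eq] at hc
    by_cases hK : z ∈ KK f
    · have hi : z ∈ interior (KK f) := by
        by_contra h
        exact hc ⟨hK, h⟩
      refine ⟨interior (KK f), isOpen_interior.mem_nhds hi, fun w hw ε hε => ?_⟩
      obtain ⟨r, hr, hb⟩ := Metric.isOpen_iff.1 isOpen_interior w hw
      have hδ : 0 < min r (ε * r / (8 * R)) := by positivity
      filter_upwards [ball_mem_nhds w hδ] with w' hw' n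
      have h1 : dist w' w < r := (mem_ball.1 hw').trans_le (min_le_left _ _)
      have h2 : dist w' w < ε * r / (8 * R) := (mem_ball.1 hw').trans_le (min_le_right _ _)
      have h3 := Complex.dist_le_div_mul_dist_of_mapsTo_ball (f := (ev f)^[n]) (c := w) (z := w')
        (R₁ := r) (R₂ := 2 * R) ((diff_ev f).iterate n).differentiableOn (fun u hu => by
          have k1 := hR.lt_of_mem (interior_subset (hb hu)) n
          have k2 := hR.lt_of_mem (interior_subset hw) n
          have k3 := norm_sub_le ((ev f)^[n] u) ((ev f)^[n] w)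
          rw [mem_closedBall, dist_eq_norm]
          linarith) h1
      refine (chord_le _ _).trans_lt ?_
      rw [← dist_eq_norm, iter_eq]
      rw [lt_div_iff₀ (by positivity)] at h2
      rw [div_mul_eq_mul_div, le_div_iff₀ hr] at h3
      have h4 : 2 * dist ((ev f)^[n] w') ((ev f)^[n] w) * r < ε * r := by
        nlinarith [dist_nonneg (x := w') (y := w)]
      exact lt_of_mul_lt_mul_right h4 hr.le
    · refine ⟨(KK f)ᶜ, hR.isClosed.isOpen_compl.mem_nhds hK, fun w hw ε hε => ?_⟩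
      have hM := hR.mono (le_max_left R (8 / ε))
      obtain ⟨N, hN⟩ := hM.not_mem_iff.1 hw
      have e1 : ∀ᶠ w' in 𝓝 w, max R (8 / ε) < ‖(ev f)^[N] w'‖ :=
        (isOpen_lt continuous_const (cont_iter f N).norm).mem_nhds hN
      have e2 : ∀ᶠ w' in 𝓝 w, ∀ n ∈ Finset.range N,
          dist ((ev f)^[n] w') ((ev f)^[n] w) < ε / 2 := by
        rw [eventually_all_finset]
        intro n _
        exact (cont_iter f n).continuousAt.eventually (ball_mem_nhds _ (by positivity))
      filter_upwards [e1, e2] with w' h1 h2 n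
      rw [iter_eq]
      rcases lt_or_ge n N with hn | hn
      · refine (chord_le _ _).trans_lt ?_
        have := h2 n (Finset.mem_range.2 hn)
        rw [dist_eq_norm] at this
        linarith
      · have k1 := hM.le_iter' h1.le hn
        have k2 := hM.le_iter' hN.le hn
        have k3 : 8 / ε ≤ max R (8 / ε) := le_max_right _ _
        refine (chord_le_far (M := 8 / ε) (by positivity) (by linarith) (by linarith)).trans_lt ?_
        rw [div_div_eq_mul_div]
        linarith
  · rintro hz ⟨U, hU, h⟩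
    have h1 := h z (mem_of_mem_nhds hU) (1 / (4 * R)) (by positivity)
    have hK : z ∈ KK f := hR.isClosed.frontier_subset hz
    have h2 : z ∈ closure (KK f)ᶜ := by
      rw [frontier_eq_closure_inter_closure] at hz
      exact hz.2
    obtain ⟨w, hw1, hw2⟩ := mem_closure_iff_nhds.1 h2 _ h1
    obtain ⟨n, hn⟩ := (hR.mono (show R ≤ 2 * R by linarith)).not_mem_iff.1 hw2
    exact absurd (hw1 n) (not_lt.2 (chord_ge hR1 hn.le (hR.lt_of_mem hK n).le))

theorem attr_interior {f : Polynomial ℂ} {R : ℝ} (hR : Esc f R) {p : ℂ} {k : ℕ} (hk : 0 < k)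
    (hp : (ev f)^[k] p = p) (hd : ‖deriv (ev f)^[k] p‖ < 1) : p ∈ interior (KK f) := by
  have h1 := (((diff_ev f).iterate k) p).hasDerivAt
  have h2 := (hasDerivAt_iff_isLittleO.1 h1).def (sub_pos.2 hd)
  obtain ⟨r, hr, hb⟩ := Metric.eventually_nhds_iff.1 h2
  have h3 : MapsTo (ev f)^[k] (ball p r) (ball p r) := fun w hw => by
    have k1 := hb (mem_ball.1 hw)
    rw [hp, smul_eq_mul] at k1
    have k2 := norm_add_le ((ev f)^[k] w - p - (w - p) * deriv (ev f)^[k] p)
      ((w - p) * deriv (ev f)^[k] p)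
    rw [sub_add_cancel, norm_mul] at k2
    rw [mem_ball, dist_eq_norm] at hw ⊢
    nlinarith
  refine mem_interior.2 ⟨ball p r, fun w hw => ?_, isOpen_ball, mem_ball_self hr⟩
  by_contra hc
  have hM := hR.mono (le_max_left R (‖p‖ + r))
  obtain ⟨n, hn⟩ := hM.not_mem_iff.1 hc
  have k1 := hM.le_iter' hn.le (Nat.le_mul_of_pos_left n hk)
  have k2 := h3.iterate n hw
  rw [← Function.iterate_mul, mem_ball, dist_eq_norm] at k2
  have k3 : ‖(ev f)^[k * n] w‖ ≤ ‖(ev f)^[k * n] w - p‖ + ‖p‖ := by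
    simpa using norm_add_le ((ev f)^[k * n] w - p) p
  have k4 : ‖p‖ + r ≤ max R (‖p‖ + r) := le_max_right _ _
  linarith

theorem closure_orbit {a : ℕ → ℂ} {S T : Set ℂ} (hS : IsClosed S) (h1 : ∀ᶠ n in atTop, a n ∈ S)
    (h2 : S ⊆ T) (h3 : ∀ n, a n ∈ T) : closure (range a) ⊆ T := by
  obtain ⟨N, hN⟩ := eventually_atTop.1 h1
  have hc : IsClosed (a '' Iio N ∪ S) := ((finite_Iio N).image a).isClosed.union hS
  refine (closure_minimal ?_ hc).trans (union_subset ?_ h2)
  · rintro _ ⟨n, rfl⟩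
    rcases lt_or_ge n N with h | h
    · exact Or.inl ⟨n, h, rfl⟩
    · exact Or.inr (hN n h)
  · rintro _ ⟨n, -, rfl⟩
    exact h3 n

theorem disjoint_of_hyperbolic {f : Polynomial ℂ} (hd : 2 ≤ f.natDegree) (hf : Hyperbolic f) :
    Disjoint (closure (PC f)) (frontier (KK f)) := by
  obtain ⟨R, hR⟩ := exists_esc hd
  have hne : f.derivative ≠ 0 := fun h => by
    have := Polynomial.derivative_eq_zero.mp h
    omega
  have hfin : {c : ℂ | f.derivative.eval c = 0}.Finite := f.derivative.finite_setOfPred_isRoot hne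
  rw [PC, hfin.closure_biUnion, disjoint_iUnion₂_left]
  intro c hc
  rcases hf c hc with h | ⟨p, k, hk, hp, hdp, h⟩
  · have h1 := h.eventually_ge_atTop R
    have hcK : c ∉ KK f := fun hK => by
      obtain ⟨n, hn⟩ := h1.exists
      exact absurd (hR.lt_of_mem hK n) (not_lt.2 hn)
    have h2 := closure_orbit (a := fun n => (ev f)^[n] c) (S := {z | R ≤ ‖z‖}) (T := (KK f)ᶜ)
      (isClosed_le continuous_const continuous_norm) h1
      (fun z hz hK => absurd (hR.norm_lt hK) (not_lt.2 hz))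
      (fun n hK => hcK ((hR.iter_mem_iff n).1 hK))
    exact disjoint_left.2 fun z hz hz' => h2 hz (hR.isClosed.frontier_subset hz')
  · simp only [iter_eq] at hp hdp h
    have hpi := attr_interior hR hk hp hdp
    have hCf : (range fun j : ℕ => (ev f)^[j] p).Finite := by
      refine ((finite_Iio k).image fun j : ℕ => (ev f)^[j] p).subset ?_
      rintro _ ⟨j, rfl⟩
      exact ⟨j % k, Nat.mod_lt _ hk, Function.IsPeriodicPt.iterate_mod_apply hp j⟩
    obtain ⟨δ, hδ, hsub⟩ := hCf.isCompact.exists_cthickening_subset_open isOpen_interior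
      (by rintro _ ⟨j, rfl⟩; exact hR.iter_interior hd hpi j)
    have h1 : ∀ᶠ n in atTop, (ev f)^[n] c ∈ cthickening δ (range fun j : ℕ => (ev f)^[j] p) := by
      filter_upwards [h.eventually (gt_mem_nhds hδ)] with n hn
      exact thickening_subset_cthickening _ _
        ((mem_thickening_iff_infDist_lt (range_nonempty _)).2 hn)
    obtain ⟨N, hN⟩ := h1.exists
    have h2 := closure_orbit (a := fun n => (ev f)^[n] c) (T := interior (KK f))
      isClosed_cthickening h1 hsub
      (fun n => hR.iter_interior hd (hR.interior_of_iter (hsub hN)) n)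
    exact disjoint_left.2 fun z hz hz' => hz'.2 (h2 hz)

theorem isQS_of {J : Set ℂ} (h : J ≃ₜ J) {η : ℝ → ℝ} (h0 : η 0 = 0) (hm : StrictMonoOn η (Ici 0))
    (hc : ContinuousOn η (Ici 0)) (ht : Tendsto η atTop atTop)
    (hq : ∀ a x y : J, y ≠ a → dist (h x) (h a) ≤ η (dist x a / dist y a) * dist (h y) (h a)) :
    IsQuasisymmetry h := by
  have hn : ∀ t : ℝ≥0, 0 ≤ η t := fun t => h0 ▸ hm.monotoneOn self_mem_Ici t.2 t.2
  set e : ℝ≥0 → ℝ≥0 := fun t => ⟨η t, hn t⟩ with he
  have e1 : StrictMono e := fun s t hst => hm s.2 t.2 hst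
  have e2 : Function.Surjective e := fun s => by
    obtain ⟨T, hT1, hT2⟩ := ((ht.eventually_ge_atTop s).and (eventually_ge_atTop 0)).exists
    obtain ⟨t, ht1, ht2⟩ := intermediate_value_Icc hT2 (hc.mono Icc_subset_Ici_self)
      (show (s : ℝ) ∈ Icc (η 0) (η T) from ⟨by rw [h0]; exact s.2, hT1⟩)
    exact ⟨⟨t, ht1.1⟩, Subtype.ext ht2⟩
  refine ⟨(e1.orderIsoOfSurjective e e2).toHomeomorph, fun x a b t hx => ?_⟩
  change _ ≤ η t * _
  by_cases hb : b = x
  · subst hb
    rw [sub_self, norm_zero, mul_zero, norm_le_zero_iff, sub_eq_zero] at hx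
    rw [Subtype.ext hx]
    simp
  · have k := hq x a b hb
    have hpos : 0 < dist b x := dist_pos.2 hb
    simp only [Subtype.dist_eq, dist_eq_norm'] at k hpos
    refine k.trans (mul_le_mul_of_nonneg_right ?_ (norm_nonneg _))
    exact hm.monotoneOn (show (0 : ℝ) ≤ _ by positivity) t.2 ((div_le_iff₀ hpos).2 hx)

theorem main {f : Polynomial ℂ} (hd : 2 ≤ f.natDegree) (hf : Hyperbolic f)
    (hJ : IsConnected (julia f)) : {h : julia f ≃ₜ julia f | IsQuasisymmetry h}.Infinite := by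
  have e := julia_eq hd
  obtain ⟨M, hM⟩ := exists_model hd (disjoint_of_hyperbolic hd hf) (e ▸ hJ)
  refine (M.infinite_qs (julia f) (e.trans hM)).mono ?_
  rintro h ⟨η, h0, hm, hc, ht, hq⟩
  exact isQS_of h h0 hm hc ht hq

end Pool.Agent.MP_28f04c_an.H67
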