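import Pool.Agent.MP_28f04c_an.Mg.Expand

-- part MP_28f04c_an.Periodic
section

/-!
Existence of a short saturated interval with periodic end points.
-/

set_option autoImplicit false

open Set Filter Topology

namespace Pool.Agent.MP_28f04c_an

namespace Model

variable (M : Model)

/-- A contraction of a good interval into itself has a fixed point that cuts the interval. -/
theorem fixed_cut {a b : ℝ} (h : Good M.γ a b) (hl : b - a ≤ M.ε) {μ : ℝ → ℝ} {n : ℕ}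
    (hn : 1 ≤ n) (hμ : M.IsPB μ n) (ha : a < μ a) (hb : μ b < b) (hs : Sat M.γ a (μ b)) :
    ∃ r, μ a < r ∧ r < μ b ∧ (∃ k : ℤ, (M.D : ℝ) ^ n * r = r + k) ∧
      Sat M.γ a r ∧ Sat M.γ r b := by
  obtain ⟨hab, hb1, hsat, hne⟩ := h
  have hΔ := M.two_le_pow hn
  set Δ : ℝ := (M.D : ℝ) ^ n with hΔdef
  obtain ⟨j, hj⟩ := id hμ
  set r : ℝ := j / (Δ - 1) with hr
  have hrj : Δ * r = r + j := by
    rw [hr]; field_simp [show Δ - 1 ≠ 0 by linarith]; ring
  have hμu : ∀ u, μ u = r + (u - r) / Δ := fun u => by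
    have := hj u
    rw [← hΔdef] at this
    field_simp
    linarith
  have hμr : μ r = r := by rw [hμu]; simp
  have hit : ∀ (k : ℕ) u, μ^[k] u = r + (u - r) * (1 / Δ) ^ k := by
    intro k
    induction k with
    | zero => intro u; simp
    | succ k ih => intro u; rw [Function.iterate_succ_apply', ih, hμu]; ring
  have har : a < r := by
    by_contra hc
    push Not at hc
    rw [hμu] at ha
    have : (a - r) / Δ ≤ a - r := div_le_self (by linarith) (by linarith)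
    linarith
  have hrb : r < b := by
    by_contra hc
    push Not at hc
    rw [hμu] at hb
    have : (r - b) / Δ ≤ r - b := div_le_self (by linarith) (by linarith)
    have h2 : (b - r) / Δ = -((r - b) / Δ) := by ring
    linarith
  have hq0 : (0 : ℝ) < 1 / Δ := by positivity
  have hq1 : 1 / Δ < 1 := by rw [div_lt_one (by linarith)]; linarith
  have hqk : ∀ k : ℕ, 0 < (1 / Δ) ^ k ∧ (1 / Δ) ^ k ≤ 1 := fun k =>
    ⟨pow_pos hq0 k, pow_le_one₀ hq0.le hq1.le⟩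
  have hbk : ∀ k : ℕ, r < μ^[k] b ∧ μ^[k] b ≤ b := fun k => by
    rw [hit]; constructor <;> nlinarith [hqk k]
  have hak : ∀ k : ℕ, a ≤ μ^[k] a ∧ μ^[k] a < r := fun k => by
    rw [hit]; constructor <;> nlinarith [hqk k]
  have hS1 : ∀ k : ℕ, Sat M.γ a (μ^[k] b) := by
    intro k
    induction k with
    | zero => simpa using hsat
    | succ k ih =>
      rw [Function.iterate_succ_apply']
      refine sat_trans M.per hs (hμ.sat hab.le hsat hl)
        (hμ.sat (by linarith [hbk k]) ih (by linarith [hbk k])) ha.le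
        (hμ.strictMono (by linarith [hbk k])) (hμ.strictMono.monotone (hbk k).2) (by linarith)
  have hS2 : ∀ k : ℕ, Sat M.γ (μ^[k] a) (μ^[k] b) := by
    intro k
    induction k with
    | zero => simpa using hsat
    | succ k ih =>
      rw [Function.iterate_succ_apply', Function.iterate_succ_apply']
      exact hμ.sat (by linarith [hbk k, hak k]) ih (by linarith [hbk k, hak k])
  have hlim : ∀ u, Tendsto (fun k : ℕ => μ^[k] u) atTop (𝓝 r) := fun u => by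
    have := (tendsto_pow_atTop_nhds_zero_of_lt_one hq0.le hq1).const_mul (u - r)
    have := this.const_add r
    simpa [hit] using this
  have hexb : ∀ v, r < v → ∃ k : ℕ, μ^[k] b ≤ v := fun v hv =>
    ((hlim b).eventually (ge_mem_nhds hv)).exists
  have hexa : ∀ u, u < r → ∃ k : ℕ, u ≤ μ^[k] a := fun u hu =>
    ((hlim a).eventually (le_mem_nhds hu)).exists
  refine ⟨r, ?_, ?_, ⟨j, hrj⟩, ?_, ?_⟩
  · rw [← hμr]; exact hμ.strictMono har
  · rw [← hμr]; exact hμ.strictMono hrb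
  · intro u hu v hv e
    rcases hv.1.lt_or_eq with h | h
    · obtain ⟨k, hk⟩ := hexb v h
      exact hS1 k u ⟨hu.1, by linarith [hu.2, hbk k]⟩ v ⟨hk, hv.2⟩ e
    · obtain ⟨k, hk⟩ := hexa u hu.2
      refine hS2 k r ⟨(hak k).2, (hbk k).1⟩ (u + 1) ⟨by linarith [hbk k, hu.1], by linarith⟩ ?_
      rw [M.per, e, h]
  · intro u hu v hv e
    have hva : a + 1 < v := by
      by_contra hc
      exact hsat u ⟨by linarith [hu.1], hu.2⟩ v ⟨hv.1, not_lt.mp hc⟩ e
    obtain ⟨k, hk⟩ := hexb u hu.1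
    refine hS1 k (v - 1) ⟨by linarith, by linarith [hv.2, hbk k]⟩ u
      ⟨hk, by linarith [hu.2]⟩ ?_
    rw [e, ← M.per (v - 1), sub_add_cancel]

/-- Right end points of long good intervals that carry a long leaf. -/
def PY (y : ℝ) : Prop :=
  ∃ x z, Good M.γ x y ∧ M.ε / M.D < y - x ∧ y - x ≤ M.ε ∧ M.γ z = M.γ y ∧
    ∀ k : ℤ, M.ε ≤ |z - y - k|

theorem PY_sep {y y' : ℝ} (h : M.PY y) (h' : M.PY y') (hy : y < y') : M.ε / M.D ≤ y' - y := by
  by_contra hc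
  push Not at hc
  obtain ⟨x, z, -, -, -, hz, hfar⟩ := h
  obtain ⟨x', z', hg, h1, h2, -, -⟩ := h'
  obtain ⟨k, hk1, hk2⟩ := hg.2.2.1.mem M.per (s := y) ⟨by linarith, hy⟩ hz.symm
  have := hfar (-k)
  have h3 : |z - y - ((-k : ℤ) : ℝ)| < M.ε := by
    push_cast; rw [abs_lt]; constructor <;> linarith
  linarith

theorem PY_finite : {y : ℝ | y ∈ Ico (0 : ℝ) 1 ∧ M.PY y}.Finite := by
  have hη : 0 < M.ε / M.D := div_pos M.hε M.D_pos
  set η := M.ε / M.D with hηdef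
  refine Set.Finite.of_injOn (f := fun y => ⌊y / η⌋) (t := Icc (0 : ℤ) ⌊1 / η⌋) ?_ ?_
    (Set.finite_Icc _ _)
  · intro y hy
    refine ⟨Int.floor_nonneg.mpr (div_nonneg hy.1.1 hη.le), Int.floor_le_floor ?_⟩
    gcongr; exact hy.1.2.le
  · have key : ∀ y y', M.PY y → M.PY y' → y < y' → ⌊y / η⌋ ≠ ⌊y' / η⌋ := by
      intro y y' h h' hy e
      have h1 := M.PY_sep h h' hy
      have h2 : y / η + 1 ≤ y' / η := by
        rw [div_add_one hη.ne', div_le_div_iff_of_pos_right hη]; linarith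
      have h3 := Int.floor_le_floor h2
      rw [Int.floor_add_one] at h3
      omega
    intro y hy y' hy' e
    rcases lt_trichotomy y y' with h | h | h
    · exact absurd e (key y y' hy.2 hy'.2 h)
    · exact h
    · exact absurd e.symm (key y' y hy'.2 hy.2 h)

theorem PY_add_int {y : ℝ} (h : M.PY y) (k : ℤ) : M.PY (y + k) := by
  obtain ⟨x, z, hg, h1, h2, hz, hfar⟩ := h
  refine ⟨x + k, z + k, hg.add_int M.per k, by linarith, by linarith, ?_, fun l => ?_⟩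
  · rw [M.perZ, M.perZ, hz]
  · have := hfar l
    rwa [show z + k - (y + k) - l = z - y - l by ring]

/-- Every good interval with a leaf contains a pull-back of a neighbourhood of a point of `PY`. -/
theorem exists_child {a b c c' : ℝ} (h : Good M.γ a b) (hc : c ∈ Ioo a b) (hc' : c' ∈ Ioo a c)
    (e : M.γ c' = M.γ c) :
    ∃ y μ n, y ∈ Ico (0 : ℝ) 1 ∧ M.PY y ∧ 1 ≤ n ∧ M.IsPB μ n ∧ a < μ (y - M.ε / M.D) ∧
      μ y < b ∧ Sat M.γ a (μ y) := by
  obtain ⟨s, t, has, hsc, hct, htb, hst, hg, hmin⟩ := left_cut M.cont M.per M.unlinked h hc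
  have hsc' := hmin c' hc' e
  have hst' : s < t := by linarith [hc'.2]
  have hts1 : t - s < 1 := by linarith [h.2.1]
  have hD := M.D_pos
  have hD2 := M.two_le
  have hε := M.hε
  set η := min (t - s) (1 - (t - s)) with hη
  have hη0 : 0 < η := lt_min (by linarith) (by linarith)
  have hfar : ∀ k : ℤ, η ≤ |t - s - k| := by
    intro k
    rcases le_or_gt k 0 with hk | hk
    · have : (k : ℝ) ≤ 0 := by exact_mod_cast hk
      exact (min_le_left _ _).trans (le_trans (by linarith) (le_abs_self _))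
    · have : (1 : ℝ) ≤ k := by exact_mod_cast hk
      exact (min_le_right _ _).trans (le_trans (by linarith) (neg_le_abs _))
  have hm0 : 0 < min η M.ε / M.D := div_pos (lt_min hη0 hε) hD
  obtain ⟨a', ha1, ha2, hg'⟩ := right_cut M.cont M.per M.unlinked
    (c := max ((a + s) / 2) (s - min η M.ε / M.D)) hg
    ⟨lt_max_of_lt_left (by linarith), max_lt (by linarith) (by linarith)⟩
  have haa' : a < a' := by linarith [le_max_left ((a + s) / 2) (s - min η M.ε / M.D)]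
  have hsa : s - a' ≤ min η M.ε / M.D := by
    linarith [le_max_right ((a + s) / 2) (s - min η M.ε / M.D)]
  have hsa' : M.D * (s - a') ≤ min η M.ε := by rwa [le_div_iff₀' hD] at hsa
  have hex : ∃ n : ℕ, M.ε < (M.D : ℝ) ^ (n + 1) * (s - a') := by
    obtain ⟨n, hn⟩ := pow_unbounded_of_one_lt (M.ε / (s - a')) (show (1 : ℝ) < M.D by linarith)
    refine ⟨n, ?_⟩
    rw [div_lt_iff₀ (by linarith)] at hn
    have : (M.D : ℝ) ^ n ≤ (M.D : ℝ) ^ (n + 1) := pow_le_pow_right₀ (by linarith) (by omega)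
    nlinarith
  classical
  set n := Nat.find hex with hn
  have hn1 : M.ε < (M.D : ℝ) ^ (n + 1) * (s - a') := Nat.find_spec hex
  have hn0 : 1 ≤ n := by
    by_contra hc
    have : n = 0 := by omega
    rw [this] at hn1
    simp only [zero_add, pow_one] at hn1
    linarith [min_le_right η M.ε]
  have hn2 : (M.D : ℝ) ^ n * (s - a') ≤ M.ε := by
    have := Nat.find_min hex (m := n - 1) (by omega)
    rw [show n - 1 + 1 = n by omega] at this
    exact not_lt.mp this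
  have hΔ : (0 : ℝ) < (M.D : ℝ) ^ n := pow_pos hD n
  set Δ : ℝ := (M.D : ℝ) ^ n with hΔdef
  have hn3 : M.ε / M.D < Δ * (s - a') := by
    rw [div_lt_iff₀ hD]; rw [pow_succ] at hn1; linarith
  have hPY : M.PY (Δ * s) := by
    refine ⟨Δ * a', Δ * t, M.good_push_pow hg' n hn2, by linarith, by linarith,
      M.map_eq_pow hst.symm n, fun k => le_trans ?_ (M.far_pow hst.symm hfar n k)⟩
    refine le_min ?_ le_rfl
    have h1 : M.D * (s - a') ≤ η := hsa'.trans (min_le_left _ _)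
    rw [pow_succ] at hn1
    nlinarith
  refine ⟨Int.fract (Δ * s), fun u => (u + ⌊Δ * s⌋) / Δ, n,
    ⟨Int.fract_nonneg _, Int.fract_lt_one _⟩, ?_, hn0, ⟨⌊Δ * s⌋, fun u => ?_⟩, ?_, ?_, ?_⟩
  · have := M.PY_add_int hPY (-⌊Δ * s⌋)
    rwa [Int.cast_neg, ← sub_eq_add_neg] at this
  · rw [← hΔdef]; field_simp
  · simp only
    rw [lt_div_iff₀ hΔ]
    have := Int.fract_add_floor (Δ * s)
    nlinarith
  · simp only
    rw [Int.fract_add_floor, mul_div_cancel_left₀ _ hΔ.ne']; linarith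
  · simp only
    rw [Int.fract_add_floor, mul_div_cancel_left₀ _ hΔ.ne']; exact hg.2.2.1

theorem periodic_mul {r : ℝ} {n : ℕ} (h : ∃ k : ℤ, (M.D : ℝ) ^ n * r = r + k) (m : ℕ) :
    ∃ k : ℤ, (M.D : ℝ) ^ (n * m) * r = r + k := by
  obtain ⟨k, hk⟩ := h
  induction m with
  | zero => exact ⟨0, by simp⟩
  | succ m ih =>
    obtain ⟨l, hl⟩ := ih
    refine ⟨k + (M.D : ℤ) ^ n * l, ?_⟩
    rw [Nat.mul_succ, add_comm (n * m), pow_add, mul_assoc, hl, mul_add, hk]; push_cast; ring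

theorem exists_periodic_of_leaves
    (hA : ∀ a b, Good M.γ a b → ∃ c ∈ Ioo a b, ∃ c' ∈ Ioo a c, M.γ c' = M.γ c) :
    ∃ r₀ r₁ m, 1 ≤ m ∧ Good M.γ r₀ r₁ ∧ r₁ - r₀ ≤ M.ε ∧
      (∃ k : ℤ, (M.D : ℝ) ^ m * r₀ = r₀ + k) ∧ (∃ k : ℤ, (M.D : ℝ) ^ m * r₁ = r₁ + k) := by
  have hD := M.D_pos
  have hD2 := M.two_le
  have hε := M.hε
  have hεD : M.ε / M.D ≤ M.ε := div_le_self hε.le (by linarith)
  have hX : ∀ y, ∃ x, M.PY y → y - M.ε / M.D ≤ x ∧ Good M.γ x y := by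
    intro y
    by_cases hy : M.PY y
    · obtain ⟨x, z, hg, h1, -⟩ := id hy
      obtain ⟨t, ht1, -, ht2⟩ := right_cut M.cont M.per M.unlinked (c := y - M.ε / M.D) hg
        ⟨by linarith, by linarith [div_pos hε hD]⟩
      exact ⟨t, fun _ => ⟨ht1, ht2⟩⟩
    · exact ⟨0, fun h => absurd h hy⟩
  choose X hX using hX
  set Y : Set ℝ := {y : ℝ | y ∈ Ico (0 : ℝ) 1 ∧ M.PY y} with hY
  have hYf : Y.Finite := M.PY_finite
  have ch : ∀ a b, Good M.γ a b → ∃ y ∈ Y, ∃ μ n, 1 ≤ n ∧ M.IsPB μ n ∧ a < μ (X y) ∧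
      μ y < b ∧ Sat M.γ a (μ y) := by
    intro a b h
    obtain ⟨c, hc, c', hc', e⟩ := hA a b h
    obtain ⟨y, μ, n, h1, h2, h3, h4, h5, h6, h7⟩ := M.exists_child h hc hc' e
    exact ⟨y, ⟨h1, h2⟩, μ, n, h3, h4, h5.trans_le (h4.strictMono.monotone (hX y h2).1), h6, h7⟩
  have comp : ∀ a y y' μ n ν m, y ∈ Y → y' ∈ Y → M.IsPB μ n → M.IsPB ν m → a < μ (X y) →
      μ y ≤ a + 1 → Sat M.γ a (μ y) → X y < ν (X y') → ν y' < y → Sat M.γ (X y) (ν y') →
      μ (X y) < μ (ν (X y')) ∧ μ (ν y') < μ y ∧ Sat M.γ a (μ (ν y')) := by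
    intro a y y' μ n ν m hy hy' hμ hν h1 h2 h3 h4 h5 h6
    obtain ⟨hx1, hx2⟩ := hX y hy.2
    obtain ⟨-, hx2'⟩ := hX y' hy'.2
    have h7 : X y < ν y' := h4.trans (hν.strictMono hx2'.1)
    refine ⟨hμ.strictMono h4, hμ.strictMono h5, ?_⟩
    exact sat_trans M.per h3 (hμ.sat hx2.1.le hx2.2.2.1 (by linarith))
      (hμ.sat h7.le h6 (by linarith)) h1.le (hμ.strictMono h7) (hμ.strictMono h5).le h2
  set R : ℝ → ℝ → Prop := fun y y' => ∃ μ n, 1 ≤ n ∧ M.IsPB μ n ∧ X y < μ (X y') ∧ μ y' < y ∧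
    Sat M.γ (X y) (μ y') with hR
  have Rtrans : ∀ y y' y'', y ∈ Y → y' ∈ Y → y'' ∈ Y → R y y' → R y' y'' → R y y'' := by
    rintro y y' y'' hy hy' hy'' ⟨μ, n, h1, h2, h3, h4, h5⟩ ⟨ν, m, k1, k2, k3, k4, k5⟩
    have hg := (hX y hy.2).2
    obtain ⟨c1, c2, c3⟩ := comp (X y) y' y'' μ n ν m hy' hy'' h2 k2 h3
      (by linarith [hg.2.1]) h5 k3 k4 k5
    exact ⟨μ ∘ ν, m + n, by omega, h2.comp k2, h3.trans c1, c2.trans h4, c3⟩
  have hYn : Y.Nonempty := by
    obtain ⟨a, b, h⟩ := M.good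
    obtain ⟨y, hy, -⟩ := ch a b h
    exact ⟨y, hy⟩
  set reach : ℝ → Set ℝ := fun y => {y' | y' ∈ Y ∧ R y y'} with hreach
  have reach_fin : ∀ y, (reach y).Finite := fun y => hYf.subset fun _ h => h.1
  obtain ⟨y₀, hy₀, hmin⟩ := Set.exists_min_image Y (fun y => (reach y).ncard) hYf hYn
  have reach_eq : ∀ y, y ∈ Y → R y₀ y → reach y = reach y₀ := by
    intro y hy h
    exact Set.eq_of_subset_of_ncard_le
      (fun y' hy' => ⟨hy'.1, Rtrans y₀ y y' hy₀ hy hy'.1 h hy'.2⟩) (hmin y hy) (reach_fin y₀)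
  obtain ⟨y, hy, hy₀y⟩ : ∃ y ∈ Y, R y₀ y := by
    obtain ⟨y, hy, h⟩ := ch _ _ (hX y₀ hy₀.2).2
    exact ⟨y, hy, h⟩
  have back : ∀ y', y' ∈ Y → R y y' → R y' y := by
    intro y' hy' h
    have h1 := reach_eq y' hy' (Rtrans y₀ y y' hy₀ hy hy' hy₀y h)
    have h2 : y ∈ reach y' := by rw [h1]; exact ⟨hy, hy₀y⟩
    exact h2.2
  obtain ⟨hx, hg⟩ := hX y hy.2
  obtain ⟨y₁, hy₁, μ₁, n₁, a1, a2, a3, a4, a5⟩ := ch _ _ hg
  have hx₁ := (hX y₁ hy₁.2).2
  obtain ⟨s, -, hs1, hs2, -, -, -, hs3, -⟩ := left_cut M.cont M.per M.unlinked (c := μ₁ (X y₁)) hg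
    ⟨a3, (a2.strictMono hx₁.1).trans a4⟩
  obtain ⟨y₂, hy₂, μ₂, n₂, b1, b2, b3, b4, b5⟩ := ch _ _ hs3
  have hsy : s < y := hs2.trans_lt ((a2.strictMono hx₁.1).trans a4)
  obtain ⟨ν₁, m₁, c1, c2, c3, c4, c5⟩ := back y₁ hy₁ ⟨μ₁, n₁, a1, a2, a3, a4, a5⟩
  obtain ⟨ν₂, m₂, d1, d2, d3, d4, d5⟩ := back y₂ hy₂ ⟨μ₂, n₂, b1, b2, b3, b4.trans hsy, b5⟩
  obtain ⟨e1, e2, e3⟩ := comp (X y) y₁ y μ₁ n₁ ν₁ m₁ hy₁ hy a2 c2 a3
    (by linarith [hg.2.1]) a5 c3 c4 c5
  obtain ⟨f1, f2, f3⟩ := comp (X y) y₂ y μ₂ n₂ ν₂ m₂ hy₂ hy b2 d2 b3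
    (by linarith [hg.2.1]) b5 d3 d4 d5
  obtain ⟨r₁, g1, g2, g3, g4, -⟩ := M.fixed_cut hg (by linarith) (n := m₁ + n₁) (by omega)
    (a2.comp c2) (a3.trans e1) (e2.trans a4) e3
  obtain ⟨r₀, k1, k2, k3, -, k5⟩ := M.fixed_cut hg (by linarith) (n := m₂ + n₂) (by omega)
    (b2.comp d2) (b3.trans f1) (f2.trans (b4.trans hsy)) f3
  simp only [Function.comp] at g1 g2 k1 k2
  have hr : r₀ < r₁ := by linarith
  have hr0 : X y < r₀ := by linarith
  have hr1 : r₁ < y := by linarith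
  refine ⟨r₀, r₁, (m₂ + n₂) * (m₁ + n₁), Nat.one_le_iff_ne_zero.mpr (by positivity),
    ⟨hr, by linarith [hg.2.1], ?_, ?_⟩, by linarith, M.periodic_mul k3 _, ?_⟩
  · intro u hu v hv e
    by_cases hva : v ≤ X y + 1
    · exact g4 u ⟨by linarith [hu.1], hu.2⟩ v ⟨hv.1, hva⟩ e
    · exact k5 u ⟨hu.1, by linarith [hu.2]⟩ v ⟨by linarith [hg.2.1], hv.2⟩ e
  · exact g4 r₀ ⟨hr0, hr⟩ r₁ ⟨le_rfl, by linarith [hg.2.1]⟩
  · rw [mul_comm (m₂ + n₂)]; exact M.periodic_mul g3 _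

theorem exists_periodic :
    ∃ r₀ r₁ m, 1 ≤ m ∧ Good M.γ r₀ r₁ ∧ r₁ - r₀ ≤ M.ε ∧
      (∃ k : ℤ, (M.D : ℝ) ^ m * r₀ = r₀ + k) ∧ (∃ k : ℤ, (M.D : ℝ) ^ m * r₁ = r₁ + k) := by
  by_cases hA : ∀ a b, Good M.γ a b → ∃ c ∈ Ioo a b, ∃ c' ∈ Ioo a c, M.γ c' = M.γ c
  · exact M.exists_periodic_of_leaves hA
  push Not at hA
  obtain ⟨a, b, ⟨hab, hb1, hsat, -⟩, hinj⟩ := hA
  have hD2 := M.two_le
  have hε := M.hε
  set η := min ((b - a) / 3) M.ε with hη
  have hη0 : 0 < η := lt_min (by linarith) hε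
  obtain ⟨m, hm⟩ := pow_unbounded_of_one_lt (1 / η + 1) (show (1 : ℝ) < M.D by linarith)
  have hm1 : 1 ≤ m := by
    by_contra hc
    have : m = 0 := by omega
    rw [this, pow_zero] at hm
    have : 0 < 1 / η := by positivity
    linarith
  set N : ℝ := (M.D : ℝ) ^ m - 1 with hN
  have hN0 : 0 < N := by linarith [M.two_le_pow hm1]
  have hNη : 1 / N < η := by
    rw [div_lt_iff₀ hN0]
    have : 1 / η < N := by linarith
    rw [div_lt_iff₀ hη0] at this
    linarith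
  set j : ℤ := ⌊a * N⌋ + 1 with hj
  have hj1 : a < j / N := by
    rw [lt_div_iff₀ hN0, hj]; push_cast; exact Int.lt_floor_add_one _
  have hj2 : j / N ≤ a + 1 / N := by
    rw [div_le_iff₀ hN0, hj, add_mul, one_div_mul_cancel hN0.ne']; push_cast
    linarith [Int.floor_le (a * N)]
  have h3 : η ≤ (b - a) / 3 := min_le_left _ _
  have h4 : η ≤ M.ε := min_le_right _ _
  have h5 : 0 < 1 / N := by positivity
  have hinj' : ∀ u ∈ Ioo a b, ∀ v ∈ Ioo a b, u < v → M.γ u ≠ M.γ v := fun u hu v hv h =>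
    hinj v hv u ⟨hu.1, h⟩
  refine ⟨j / N, j / N + 1 / N, m, hm1, ⟨by linarith, by linarith [M.eps_le_half], ?_, ?_⟩,
    by linarith, ⟨j, ?_⟩, ⟨j + 1, ?_⟩⟩
  · intro u hu v hv e
    have hu' : u ∈ Ioo a b := ⟨by linarith [hu.1], by linarith [hu.2]⟩
    by_cases hvb : v < b
    · exact hinj' u hu' v ⟨by linarith [hv.1], hvb⟩ (by linarith [hu.2, hv.1]) e
    · by_cases hva : v ≤ a + 1
      · exact hsat u hu' v ⟨not_lt.mp hvb, hva⟩ e
      · refine hinj' (v - 1) ⟨by linarith, by linarith [hv.2]⟩ u hu' (by linarith [hu.1, hv.2]) ?_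
        rw [e, ← M.per (v - 1), sub_add_cancel]
  · exact hinj' _ ⟨hj1, by linarith⟩ _ ⟨by linarith, by linarith⟩ (by linarith)
  · have : (M.D : ℝ) ^ m = N + 1 := by rw [hN]; ring
    rw [this]; field_simp; ring
  · have : (M.D : ℝ) ^ m = N + 1 := by rw [hN]; ring
    rw [this]; push_cast; field_simp; ring

end Model

end Pool.Agent.MP_28f04c_an

end

-- part MP_28f04c_an.Angle
section

/-!
The two pieces into which a saturated interval with periodic end points cuts the range of the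
landing map meet at a positive angle.
-/

set_option autoImplicit false

open Set Filter Topology Metric

namespace Pool.Agent.MP_28f04c_an

/-- The piece over `[u,v]` and the piece over its complement meet at a positive angle. -/
def AC (γ : ℝ → ℂ) (u v : ℝ) : Prop :=
  ∃ C, 0 ≤ C ∧ ∀ s ∈ Icc u v, ∀ t ∈ Icc v (u + 1),
    dist (γ s) (γ u) ≤ C * dist (γ s) (γ t) ∨ dist (γ s) (γ v) ≤ C * dist (γ s) (γ t)

/-- The pieces over `[u,e]` and `[e,v]` meet at a positive angle. -/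
def ACpt (γ : ℝ → ℂ) (u e v : ℝ) : Prop :=
  ∃ C, 0 ≤ C ∧ ∀ s ∈ Icc u e, ∀ t ∈ Icc e v, dist (γ s) (γ e) ≤ C * dist (γ s) (γ t)

theorem AC.add_int {γ : ℝ → ℂ} (hp : ∀ s, γ (s + 1) = γ s) {a b : ℝ} (h : AC γ a b) (k : ℤ) :
    AC γ (a + k) (b + k) := by
  obtain ⟨C, hC0, hC⟩ := h
  refine ⟨C, hC0, fun s hs t ht => ?_⟩
  have := hC (s - k) ⟨by linarith [hs.1], by linarith [hs.2]⟩ (t - k)
    ⟨by linarith [ht.1], by linarith [ht.2]⟩
  have h1 := per_int hp (s - k) k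
  have h2 := per_int hp (t - k) k
  simp only [sub_add_cancel] at h1 h2
  rw [per_int hp, per_int hp, h1, h2]
  exact this

namespace Model

variable (M : Model)

theorem exists_bound : ∃ B, 0 < B ∧ ∀ s, ‖M.γ s‖ ≤ B := by
  have hp : Function.Periodic M.γ 1 := M.per
  obtain ⟨B, hB⟩ := (hp.compact_of_continuous one_ne_zero M.cont).isBounded.exists_norm_le
  exact ⟨max B 1, by positivity, fun s => (hB _ ⟨s, rfl⟩).trans (le_max_left _ _)⟩

theorem exists_diam : ∃ B, 0 < B ∧ ∀ s t, dist (M.γ s) (M.γ t) ≤ B := by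
  obtain ⟨B, hB0, hB⟩ := M.exists_bound
  refine ⟨2 * B, by positivity, fun s t => ?_⟩
  rw [dist_eq_norm]
  linarith [norm_sub_le (M.γ s) (M.γ t), hB s, hB t]

theorem exists_lip : ∃ L, 0 < L ∧ ∀ s t,
    dist (M.γ (M.D * s)) (M.γ (M.D * t)) ≤ L * dist (M.γ s) (M.γ t) := by
  obtain ⟨B, -, hB⟩ := M.exists_bound
  obtain ⟨L, hL0, hL⟩ := exists_lip_closedBall M.diff B
  refine ⟨L, hL0, fun s t => ?_⟩
  rw [← M.semi, ← M.semi, dist_eq_norm, dist_eq_norm]
  exact hL _ (by simpa using hB s) _ (by simpa using hB t)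

theorem exists_lip_pow (n : ℕ) : ∃ L, 0 < L ∧ ∀ s t,
    dist (M.γ ((M.D : ℝ) ^ n * s)) (M.γ ((M.D : ℝ) ^ n * t)) ≤ L * dist (M.γ s) (M.γ t) := by
  induction n with
  | zero => exact ⟨1, one_pos, by simp⟩
  | succ n ih =>
    obtain ⟨L, hL0, hL⟩ := M.exists_lip
    obtain ⟨L', hL0', hL'⟩ := ih
    refine ⟨L * L', by positivity, fun s t => ?_⟩
    rw [pow_succ', mul_assoc, mul_assoc, mul_assoc]
    exact (hL _ _).trans (by gcongr; exact hL' s t)

theorem le_of_close {s t : ℝ} (h : |s - t| ≤ M.ε) :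
    dist (M.γ s) (M.γ t) ≤ dist (M.γ (M.D * s)) (M.γ (M.D * t)) := by
  have := M.expand s t (by linarith [M.unif s t h, M.hδ])
  linarith [dist_nonneg (x := M.γ s) (y := M.γ t)]

theorem le_pow_of_close {s t : ℝ} (n : ℕ) (h : (M.D : ℝ) ^ n * |s - t| ≤ M.ε) :
    dist (M.γ s) (M.γ t) ≤ dist (M.γ ((M.D : ℝ) ^ n * s)) (M.γ ((M.D : ℝ) ^ n * t)) := by
  induction n with
  | zero => simp
  | succ n ih =>
    have h0 : 0 ≤ (M.D : ℝ) ^ n * |s - t| := by positivity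
    have hl' : (M.D : ℝ) ^ n * |s - t| ≤ M.ε := by
      rw [pow_succ', mul_assoc] at h
      nlinarith [M.two_le]
    refine (ih hl').trans ?_
    rw [pow_succ', mul_assoc, mul_assoc]
    refine M.le_of_close ?_
    rw [← mul_sub, abs_mul, abs_of_pos (pow_pos M.D_pos n)]; exact hl'

variable {M} in
theorem IsPB.dist_le {μ : ℝ → ℝ} {n : ℕ} (h : M.IsPB μ n) {u v : ℝ} (huv : |u - v| ≤ M.ε) :
    dist (M.γ (μ u)) (M.γ (μ v)) ≤ dist (M.γ u) (M.γ v) := by
  have := M.le_pow_of_close (s := μ u) (t := μ v) n (by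
    rw [← abs_of_pos (pow_pos M.D_pos n), ← abs_mul, h.sub]; exact huv)
  rwa [h.gamma, h.gamma] at this

variable {M} in
theorem IsPB.le_dist {μ : ℝ → ℝ} {n : ℕ} (h : M.IsPB μ n) : ∃ L, 0 < L ∧ ∀ u v,
    dist (M.γ u) (M.γ v) ≤ L * dist (M.γ (μ u)) (M.γ (μ v)) := by
  obtain ⟨L, hL0, hL⟩ := M.exists_lip_pow n
  refine ⟨L, hL0, fun u v => ?_⟩
  have := hL (μ u) (μ v)
  rwa [h.gamma, h.gamma] at this

theorem ac_pull {u v : ℝ} (hs : Sat M.γ u v) (hl : v - u ≤ M.ε)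
    (h : AC M.γ (M.D * u) (M.D * v)) : AC M.γ u v := by
  obtain ⟨C, hC0, hC⟩ := h
  obtain ⟨B, hB0, hB⟩ := M.exists_diam
  obtain ⟨L, hL0, hL⟩ := M.exists_lip
  have hδ := M.hδ
  have hD := M.D_pos
  refine ⟨max (2 * B / M.δ) (C * L), le_max_of_le_right (by positivity), fun s hs' t ht => ?_⟩
  have hd0 : 0 ≤ dist (M.γ s) (M.γ t) := dist_nonneg
  by_cases hfar : M.δ / 2 ≤ dist (M.γ s) (M.γ t)
  · left
    calc dist (M.γ s) (M.γ u) ≤ B := hB _ _
      _ = 2 * B / M.δ * (M.δ / 2) := by field_simp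
      _ ≤ 2 * B / M.δ * dist (M.γ s) (M.γ t) := by gcongr
      _ ≤ _ := by gcongr; exact le_max_left _ _
  push Not at hfar
  obtain ⟨k, hk1, hk2⟩ := exists_int_mem_Ioc (M.D * u) (M.D * t)
  have hkv : M.D * v ≤ M.D * t + k := by
    by_contra hc
    push Not at hc
    have hu : (M.D : ℝ) * (t + k / M.D) = M.D * t + k := by field_simp
    have hu1 : u < t + k / M.D := by
      rw [← hu] at hk1; exact lt_of_mul_lt_mul_left hk1 hD.le
    have hu2 : t + k / M.D < v := by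
      rw [← hu] at hc; exact lt_of_mul_lt_mul_left hc hD.le
    refine hs _ ⟨hu1, hu2⟩ t ht (M.eq_of_close ?_ (by rw [hu, M.perZ]))
    have h1 := M.unif (t + k / M.D) s (by rw [abs_le]; constructor <;> linarith [hs'.1, hs'.2])
    linarith [dist_triangle (M.γ (t + k / M.D)) (M.γ s) (M.γ t)]
  have := hC (M.D * s) ⟨by gcongr; exact hs'.1, by gcongr; exact hs'.2⟩ (M.D * t + k) ⟨hkv, hk2⟩
  rw [M.perZ] at this
  have key : C * dist (M.γ (M.D * s)) (M.γ (M.D * t)) ≤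
      max (2 * B / M.δ) (C * L) * dist (M.γ s) (M.γ t) := by
    calc _ ≤ C * (L * dist (M.γ s) (M.γ t)) := by gcongr; exact hL s t
      _ = C * L * dist (M.γ s) (M.γ t) := by ring
      _ ≤ _ := by gcongr; exact le_max_right _ _
  rcases this with h | h
  · left
    exact (M.le_of_close (by rw [abs_le]; constructor <;> linarith [hs'.1, hs'.2])).trans
      (h.trans key)
  · right
    exact (M.le_of_close (by rw [abs_le]; constructor <;> linarith [hs'.1, hs'.2])).trans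
      (h.trans key)

theorem ac_pull_pow {a b : ℝ} (hab : a ≤ b) (n : ℕ)
    (h : Sat M.γ ((M.D : ℝ) ^ n * a) ((M.D : ℝ) ^ n * b))
    (h' : AC M.γ ((M.D : ℝ) ^ n * a) ((M.D : ℝ) ^ n * b))
    (hl : (M.D : ℝ) ^ n * (b - a) ≤ M.ε) : AC M.γ a b := by
  induction n with
  | zero => simpa using h'
  | succ n ih =>
    have h0 : 0 ≤ (M.D : ℝ) ^ n * (b - a) := mul_nonneg (by positivity) (by linarith)
    have hl' : (M.D : ℝ) ^ n * (b - a) ≤ M.ε := by
      rw [pow_succ', mul_assoc] at hl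
      nlinarith [M.two_le]
    rw [pow_succ', mul_assoc, mul_assoc] at h h'
    have hs := M.sat_pull h (by linarith)
    exact ih hs (M.ac_pull hs (by linarith) h') hl'

variable {M} in
theorem IsPB.ac {μ : ℝ → ℝ} {n : ℕ} (h : M.IsPB μ n) {u v : ℝ} (huv : u ≤ v)
    (hs : Sat M.γ u v) (ha : AC M.γ u v) (hl : v - u ≤ M.ε) : AC M.γ (μ u) (μ v) := by
  have hm := h.strictMono.monotone huv
  have hl' := h.sub u v
  obtain ⟨j, hj⟩ := h
  refine M.ac_pull_pow hm n ?_ ?_ (by rw [hl']; exact hl)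
  · rw [hj, hj]; exact hs.add_int M.per j
  · rw [hj, hj]; exact ha.add_int M.per j

variable {M} in
theorem IsPB.surj {μ : ℝ → ℝ} {n : ℕ} (h : M.IsPB μ n) {u v s : ℝ} (hs : s ∈ Icc (μ u) (μ v)) :
    ∃ s' ∈ Icc u v, μ s' = s := by
  obtain ⟨j, hj⟩ := id h
  have hΔ : (0 : ℝ) < (M.D : ℝ) ^ n := pow_pos M.D_pos n
  have e : μ ((M.D : ℝ) ^ n * s - j) = s := by
    apply mul_left_cancel₀ hΔ.ne'
    rw [hj]; ring
  refine ⟨_, ⟨?_, ?_⟩, e⟩
  · rw [← h.strictMono.le_iff_le, e]; exact hs.1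
  · rw [← h.strictMono.le_iff_le, e]; exact hs.2

variable {M} in
theorem IsPB.acpt {μ : ℝ → ℝ} {n : ℕ} (h : M.IsPB μ n) {u e v : ℝ}
    (ha : ACpt M.γ u e v) (hl : e - u ≤ M.ε) : ACpt M.γ (μ u) (μ e) (μ v) := by
  obtain ⟨C, hC0, hC⟩ := ha
  obtain ⟨L, hL0, hL⟩ := h.le_dist
  refine ⟨C * L, by positivity, fun s hs t ht => ?_⟩
  obtain ⟨s', hs', rfl⟩ := h.surj hs
  obtain ⟨t', ht', rfl⟩ := h.surj ht
  calc _ ≤ dist (M.γ s') (M.γ e) :=
        h.dist_le (by rw [abs_le]; constructor <;> linarith [hs'.1, hs'.2])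
    _ ≤ C * dist (M.γ s') (M.γ t') := hC s' hs' t' ht'
    _ ≤ C * (L * dist (M.γ (μ s')) (M.γ (μ t'))) := by gcongr; exact hL _ _
    _ = _ := by ring

theorem exists_pos_le_dist {u v : ℝ} {x : ℂ} (h : ∀ s ∈ Icc u v, M.γ s ≠ x) :
    ∃ c, 0 < c ∧ ∀ s ∈ Icc u v, c ≤ dist (M.γ s) x := by
  have hc := M.cont
  obtain ⟨c, hc0, hc⟩ := (isCompact_Icc (a := u) (b := v)).exists_forall_le'
    (f := fun s => dist (M.γ s) x) (a := 0) (by fun_prop) (fun s hs => dist_pos.mpr (h s hs))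
  exact ⟨c, hc0, hc⟩

theorem acpt_of_left {u e v : ℝ} (hg : Good M.γ u v) (hue : u < e) (ha : AC M.γ u e) :
    ACpt M.γ u e v := by
  obtain ⟨C, hC0, hC⟩ := ha
  obtain ⟨B, hB0, hB⟩ := M.exists_diam
  obtain ⟨c, hc0, hc⟩ := M.exists_pos_le_dist (u := e) (v := v) (x := M.γ u) (fun t ht => by
    rcases ht.2.lt_or_eq with h | h
    · rw [← M.per u]
      exact hg.2.2.1 t ⟨by linarith [ht.1], h⟩ _ ⟨hg.2.1, le_rfl⟩
    · rw [h]; exact hg.2.2.2.symm)
  refine ⟨max C (B * (C + 1) / c), le_max_of_le_left hC0, fun s hs t ht => ?_⟩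
  have hd0 : 0 ≤ dist (M.γ s) (M.γ t) := dist_nonneg
  rcases hC s hs t ⟨ht.1, ht.2.trans hg.2.1⟩ with h | h
  · have h1 := hc t ht
    have h2 := dist_triangle_left (M.γ t) (M.γ u) (M.γ s)
    have h3 : c ≤ (C + 1) * dist (M.γ s) (M.γ t) := by linarith
    calc _ ≤ B := hB _ _
      _ = B / c * c := by field_simp
      _ ≤ B / c * ((C + 1) * dist (M.γ s) (M.γ t)) := by gcongr
      _ = B * (C + 1) / c * dist (M.γ s) (M.γ t) := by ring
      _ ≤ _ := by gcongr; exact le_max_right _ _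
  · exact h.trans (by gcongr; exact le_max_left _ _)

theorem acpt_of_right {u e v : ℝ} (hg : Good M.γ u v) (hev : e < v) (ha : AC M.γ e v) :
    ACpt M.γ u e v := by
  obtain ⟨C, hC0, hC⟩ := ha
  obtain ⟨B, hB0, hB⟩ := M.exists_diam
  obtain ⟨c, hc0, hc⟩ := M.exists_pos_le_dist (u := u) (v := e) (x := M.γ v) (fun s hs => by
    rcases hs.1.lt_or_eq with h | h
    · exact hg.2.2.1 s ⟨h, by linarith [hs.2]⟩ _ ⟨le_rfl, hg.2.1⟩
    · rw [← h]; exact hg.2.2.2)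
  refine ⟨max (C + 1) (B * (C + 1) / c), le_max_of_le_left (by linarith), fun s hs t ht => ?_⟩
  have hd0 : 0 ≤ dist (M.γ s) (M.γ t) := dist_nonneg
  have := hC t ht (s + 1) ⟨by linarith [hg.2.1, hs.1], by linarith [hs.2]⟩
  rw [M.per, dist_comm (M.γ t) (M.γ s)] at this
  rcases this with h | h
  · have h2 := dist_triangle (M.γ s) (M.γ t) (M.γ e)
    calc _ ≤ (C + 1) * dist (M.γ s) (M.γ t) := by linarith
      _ ≤ _ := by gcongr; exact le_max_left _ _
  · have h1 := hc s hs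
    have h2 := dist_triangle (M.γ s) (M.γ t) (M.γ v)
    have h3 : c ≤ (C + 1) * dist (M.γ s) (M.γ t) := by linarith
    calc _ ≤ B := hB _ _
      _ = B / c * c := by field_simp
      _ ≤ B / c * ((C + 1) * dist (M.γ s) (M.γ t)) := by gcongr
      _ = B * (C + 1) / c * dist (M.γ s) (M.γ t) := by ring
      _ ≤ _ := by gcongr; exact le_max_right _ _

theorem semi_pow (n : ℕ) (s : ℝ) : M.F^[n] (M.γ s) = M.γ ((M.D : ℝ) ^ n * s) := by
  induction n with
  | zero => simp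
  | succ n ih => rw [Function.iterate_succ_apply', ih, M.semi, pow_succ', mul_assoc]

theorem deriv_iter (n : ℕ) (s : ℝ) : 2 ^ n ≤ ‖deriv M.F^[n] (M.γ s)‖ := by
  induction n with
  | zero => simp
  | succ n ih =>
    rw [Function.iterate_succ', deriv_comp _ (M.diff _) (M.diff.iterate n _), norm_mul,
      M.semi_pow, pow_succ']
    exact mul_le_mul (M.deriv_ge _) ih (by positivity) (norm_nonneg _)

theorem ac_local {r₀ r₁ r : ℝ} (hg : Good M.γ r₀ r₁) (hl : r₁ - r₀ ≤ M.ε) {μ : ℝ → ℝ} {m : ℕ}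
    (hm : 1 ≤ m) (hμ : M.IsPB μ m) (hr : μ r = r) (hr' : r = r₀ ∨ r = r₁)
    (hmaps : ∀ u ∈ Ioo r₀ r₁, μ u ∈ Ioo r₀ r₁)
    (hnear : ∃ c, 0 < c ∧ ∀ s ∈ Icc r₀ r₁, dist (M.γ s) (M.γ r) < c → s ∈ Icc (μ r₀) (μ r₁)) :
    ∃ η C, 0 < η ∧ 0 < C ∧ ∀ s ∈ Icc r₀ r₁, ∀ t ∈ Icc r₁ (r₀ + 1), dist (M.γ s) (M.γ r) ≤ η →
      dist (M.γ t) (M.γ r) ≤ η → dist (M.γ s) (M.γ r) ≤ C * dist (M.γ s) (M.γ t) := by
  obtain ⟨c, hc0, hc⟩ := hnear
  obtain ⟨L, hL0, hL⟩ := M.exists_lip_pow m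
  have hG : Differentiable ℂ M.F^[m] := M.diff.iterate m
  have hGμ : ∀ u, M.F^[m] (M.γ (μ u)) = M.γ u := fun u => by rw [M.semi_pow, hμ.gamma]
  have hq : M.F^[m] (M.γ r) = M.γ r := by have := hGμ r; rwa [hr] at this
  have hder : 2 ≤ ‖deriv M.F^[m] (M.γ r)‖ := by
    refine le_trans ?_ (M.deriv_iter m r)
    calc (2 : ℝ) = 2 ^ 1 := by norm_num
      _ ≤ 2 ^ m := pow_le_pow_right₀ (by norm_num) hm
  obtain ⟨e, he0, he⟩ : ∃ e, 0 < e ∧ InjOn M.F^[m] (ball (M.γ r) e) := by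
    have h1 : HasStrictDerivAt M.F^[m] (deriv M.F^[m] (M.γ r)) (M.γ r) :=
      (hG.analyticAt _).hasStrictDerivAt
    have h2 := h1.eventually_left_inverse (by
      intro h; rw [h] at hder; norm_num at hder)
    obtain ⟨e, he0, he⟩ := Metric.eventually_nhds_iff_ball.mp h2
    exact ⟨e, he0, fun x hx y hy h => by rw [← he x hx, ← he y hy, h]⟩
  have hd01 : 0 < dist (M.γ r₀) (M.γ r₁) := dist_pos.mpr hg.2.2.2
  have hrI : r ∈ Icc r₀ r₁ := by rcases hr' with h | h <;> rw [h] <;> simp [hg.1.le]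
  set η₀ := min (min c (dist (M.γ r₀) (M.γ r₁))) (e / (L + 1)) with hη₀
  have h1 : η₀ ≤ c := (min_le_left _ _).trans (min_le_left _ _)
  have h2 : η₀ ≤ dist (M.γ r₀) (M.γ r₁) := (min_le_left _ _).trans (min_le_right _ _)
  have h3 : (L + 1) * η₀ ≤ e := by
    have : η₀ ≤ e / (L + 1) := min_le_right _ _
    rwa [le_div_iff₀' (by positivity)] at this
  have hη₀0 : 0 < η₀ := lt_min (lt_min hc0 hd01) (by positivity)
  obtain ⟨η, C, hη, hC0, hC⟩ := angle_at_fixed hG hq hder (A := M.γ '' Icc r₀ r₁)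
    (B := M.γ '' Icc r₁ (r₀ + 1)) (isCompact_Icc.image M.cont) (isCompact_Icc.image M.cont) hη₀0
    (by
      rintro _ ⟨s, hs, rfl⟩ hx
      rw [← dist_eq_norm] at hx
      obtain ⟨s', hs', rfl⟩ := hμ.surj (hc s hs (by linarith))
      exact ⟨s', hs', (hGμ s').symm⟩)
    (by
      rintro _ ⟨t, ht, rfl⟩ hx
      rw [← dist_eq_norm] at hx
      obtain ⟨k, hk1, hk2⟩ := exists_int_mem_Ioc r₀ ((M.D : ℝ) ^ m * t)
      have hGt : M.F^[m] (M.γ t) = M.γ ((M.D : ℝ) ^ m * t + k) := by rw [M.semi_pow, M.perZ]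
      set u := (M.D : ℝ) ^ m * t + k with hu
      by_cases hur : r₁ ≤ u
      · exact ⟨u, ⟨hur, hk2⟩, hGt.symm⟩
      exfalso
      push Not at hur
      have k1 : dist (M.γ (μ u)) (M.γ r) ≤ L * dist (M.γ t) (M.γ r) := by
        have := hμ.dist_le (u := u) (v := r)
          (by rw [abs_le]; constructor <;> linarith [hrI.1, hrI.2])
        rw [hr] at this
        refine this.trans ?_
        have h5 := hL t r
        rwa [← M.semi_pow, ← M.semi_pow, hq, hGt] at h5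
      refine hg.2.2.1 _ (hmaps u ⟨hk1, hur⟩) t ht (he ?_ ?_ (by rw [hGμ, hGt]))
      · rw [mem_ball]; nlinarith
      · rw [mem_ball]; nlinarith)
    (by
      rintro _ ⟨s, hs, rfl⟩ ⟨t, ht, e⟩ hx
      rw [← dist_eq_norm] at hx
      have hs' : s = r₀ ∨ s = r₁ := by
        by_contra hc
        push Not at hc
        exact hg.2.2.1 s ⟨lt_of_le_of_ne hs.1 hc.1.symm, lt_of_le_of_ne hs.2 hc.2⟩ t ht e.symm
      rcases hs' with rfl | rfl <;> rcases hr' with rfl | rfl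
      · rfl
      · linarith
      · rw [dist_comm] at hx; linarith
      · rfl)
  refine ⟨η, C, hη, hC0, fun s hs t ht k1 k2 => ?_⟩
  rw [dist_eq_norm] at k1 k2
  rw [dist_eq_norm, dist_eq_norm]
  exact hC _ ⟨s, hs, rfl⟩ _ ⟨t, ht, rfl⟩ k1 k2

theorem ac_base {r₀ r₁ : ℝ} (hg : Good M.γ r₀ r₁) (hl : r₁ - r₀ ≤ M.ε) {μ ν : ℝ → ℝ} {m : ℕ}
    (hm : 1 ≤ m) (hμ : M.IsPB μ m) (hν : M.IsPB ν m) (h0 : μ r₀ = r₀) (h1 : ν r₁ = r₁) :
    AC M.γ r₀ r₁ := by
  have hΔ := M.two_le_pow hm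
  have hr := hg.1
  have hμ1 : μ r₁ < r₁ := by
    have := hμ.sub r₀ r₁
    have h2 := hμ.strictMono hr
    rw [h0] at this h2
    nlinarith
  have hν0 : r₀ < ν r₀ := by
    have := hν.sub r₀ r₁
    have h2 := hν.strictMono hr
    rw [h1] at this h2
    nlinarith
  obtain ⟨η, C, hη, hC0, hC⟩ := M.ac_local hg hl hm hμ h0 (Or.inl rfl)
    (fun u hu => ⟨by rw [← h0]; exact hμ.strictMono hu.1, (hμ.strictMono hu.2).trans hμ1⟩)
    (by
      obtain ⟨c, hc0, hc⟩ := M.exists_pos_le_dist (u := μ r₁) (v := r₁) (x := M.γ r₀)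
        (fun t ht => by
          rcases ht.2.lt_or_eq with h | h
          · rw [← M.per r₀]
            refine hg.2.2.1 t ⟨lt_of_lt_of_le ?_ ht.1, h⟩ _ ⟨hg.2.1, le_rfl⟩
            rw [← h0]; exact hμ.strictMono hr
          · rw [h]; exact hg.2.2.2.symm)
      refine ⟨c, hc0, fun s hs h => ⟨by rw [h0]; exact hs.1, ?_⟩⟩
      by_contra hc'
      push Not at hc'
      linarith [hc s ⟨hc'.le, hs.2⟩])
  obtain ⟨η', C', hη', hC0', hC'⟩ := M.ac_local hg hl hm hν h1 (Or.inr rfl)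
    (fun u hu => ⟨hν0.trans (hν.strictMono hu.1), by rw [← h1]; exact hν.strictMono hu.2⟩)
    (by
      obtain ⟨c, hc0, hc⟩ := M.exists_pos_le_dist (u := r₀) (v := ν r₀) (x := M.γ r₁)
        (fun t ht => by
          rcases ht.1.lt_or_eq with h | h
          · refine hg.2.2.1 t ⟨h, lt_of_le_of_lt ht.2 ?_⟩ _ ⟨le_rfl, hg.2.1⟩
            rw [← h1]; exact hν.strictMono hr
          · rw [← h]; exact hg.2.2.2)
      refine ⟨c, hc0, fun s hs h => ⟨?_, by rw [h1]; exact hs.2⟩⟩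
      by_contra hc'
      push Not at hc'
      linarith [hc s ⟨hs.1, hc'.le⟩])
  have hcont := M.cont
  set S : Set (ℝ × ℝ) := (Icc r₀ r₁ ×ˢ Icc r₁ (r₀ + 1)) ∩
    ({p | η ≤ max (dist (M.γ p.1) (M.γ r₀)) (dist (M.γ p.2) (M.γ r₀))} ∩
     {p | η' ≤ max (dist (M.γ p.1) (M.γ r₁)) (dist (M.γ p.2) (M.γ r₁))}) with hS
  have hSc : IsCompact S := (isCompact_Icc.prod isCompact_Icc).inter_right
    ((isClosed_le (by fun_prop) (by fun_prop)).inter (isClosed_le (by fun_prop) (by fun_prop)))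
  obtain ⟨c, hc0, hc⟩ := hSc.exists_forall_le' (f := fun p : ℝ × ℝ => dist (M.γ p.1) (M.γ p.2))
    (a := 0) (by fun_prop) (by
      rintro ⟨s, t⟩ ⟨⟨hs, ht⟩, k1, k2⟩
      simp only [mem_ofPred_eq, dist_pos] at hs ht k1 k2 ⊢
      intro e
      have hs' : s = r₀ ∨ s = r₁ := by
        by_contra hc
        push Not at hc
        exact hg.2.2.1 s ⟨lt_of_le_of_ne hs.1 hc.1.symm, lt_of_le_of_ne hs.2 hc.2⟩ t ht e
      rcases hs' with rfl | rfl
      · rw [← e] at k1; simp at k1; linarith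
      · rw [← e] at k2; simp at k2; linarith)
  obtain ⟨B, hB0, hB⟩ := M.exists_diam
  refine ⟨max (max C C') (B / c), le_max_of_le_right (by positivity), fun s hs t ht => ?_⟩
  have hd0 : 0 ≤ dist (M.γ s) (M.γ t) := dist_nonneg
  by_cases k1 : η ≤ max (dist (M.γ s) (M.γ r₀)) (dist (M.γ t) (M.γ r₀))
  · by_cases k2 : η' ≤ max (dist (M.γ s) (M.γ r₁)) (dist (M.γ t) (M.γ r₁))
    · left
      have := hc (s, t) ⟨⟨hs, ht⟩, k1, k2⟩
      calc _ ≤ B := hB _ _
        _ = B / c * c := by field_simp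
        _ ≤ B / c * dist (M.γ s) (M.γ t) := by gcongr
        _ ≤ _ := by gcongr; exact le_max_right _ _
    · right
      rw [not_le, max_lt_iff] at k2
      exact (hC' s hs t ht k2.1.le k2.2.le).trans
        (by gcongr; exact (le_max_right _ _).trans (le_max_left _ _))
  · left
    rw [not_le, max_lt_iff] at k1
    exact (hC s hs t ht k1.1.le k1.2.le).trans
      (by gcongr; exact (le_max_left _ _).trans (le_max_left _ _))

end Model

end Pool.Agent.MP_28f04c_an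

end

-- part MP_28f04c_an.Lip
section

/-!
A bi-Lipschitz self-homeomorphism of infinite order of the range of the landing map.
-/

set_option autoImplicit false

open Set Filter Topology Metric

namespace Pool.Agent.MP_28f04c_an

/-- The map `h` of angles is Lipschitz on `S` for the distance between landing points. -/
def LipOn (γ : ℝ → ℂ) (h : ℝ → ℝ) (S : Set ℝ) : Prop :=
  ∃ L, 0 ≤ L ∧ ∀ s ∈ S, ∀ t ∈ S, dist (γ (h s)) (γ (h t)) ≤ L * dist (γ s) (γ t)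

theorem LipOn.glue {γ : ℝ → ℂ} {h : ℝ → ℝ} {u e v : ℝ} (h1 : LipOn γ h (Icc u e))
    (h2 : LipOn γ h (Icc e v)) (ha : ACpt γ u e v) (hue : u ≤ e) (hev : e ≤ v) :
    LipOn γ h (Icc u v) := by
  obtain ⟨L1, hL1, h1⟩ := h1
  obtain ⟨L2, hL2, h2⟩ := h2
  obtain ⟨C, hC, ha⟩ := ha
  have key : ∀ s ∈ Icc u e, ∀ t ∈ Icc e v,
      dist (γ (h s)) (γ (h t)) ≤ (L1 * (C + 1) + L2 * (C + 1)) * dist (γ s) (γ t) := by
    intro s hs t ht
    have k1 := h1 s hs e ⟨hue, le_rfl⟩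
    have k2 := h2 e ⟨le_rfl, hev⟩ t ht
    have k3 := ha s hs t ht
    have k4 := dist_triangle (γ (h s)) (γ (h e)) (γ (h t))
    have k5 := dist_triangle_left (γ e) (γ t) (γ s)
    have k0 : 0 ≤ dist (γ s) (γ t) := dist_nonneg
    have k6 : L1 * dist (γ s) (γ e) ≤ L1 * ((C + 1) * dist (γ s) (γ t)) := by gcongr; linarith
    have k7 : L2 * dist (γ e) (γ t) ≤ L2 * ((C + 1) * dist (γ s) (γ t)) := by gcongr; linarith
    linarith
  refine ⟨L1 * (C + 1) + L2 * (C + 1), by positivity, fun s hs t ht => ?_⟩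
  have k0 : 0 ≤ dist (γ s) (γ t) := dist_nonneg
  have k1 : 0 ≤ L1 * C := by positivity
  have k2 : 0 ≤ L2 * C := by positivity
  rcases le_total s e with hse | hse <;> rcases le_total t e with hte | hte
  · exact (h1 s ⟨hs.1, hse⟩ t ⟨ht.1, hte⟩).trans (by gcongr; linarith)
  · exact key s ⟨hs.1, hse⟩ t ⟨hte, ht.2⟩
  · rw [dist_comm, dist_comm (γ s)]; exact key t ⟨ht.1, hte⟩ s ⟨hse, hs.2⟩
  · exact (h2 s ⟨hse, hs.2⟩ t ⟨hte, ht.2⟩).trans (by gcongr; linarith)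

theorem LipOn.close {γ : ℝ → ℂ} {h : ℝ → ℝ} {u v : ℝ} (h1 : LipOn γ h (Icc u v))
    (h2 : ∀ t ∈ Icc v (u + 1), h t = t) (hu : h u = u) (ha : AC γ u v) (huv : u ≤ v)
    (hv : v ≤ u + 1) : LipOn γ h (Icc u (u + 1)) := by
  obtain ⟨L1, hL1, h1⟩ := h1
  obtain ⟨C, hC, ha⟩ := ha
  have key : ∀ s ∈ Icc u v, ∀ t ∈ Icc v (u + 1),
      dist (γ (h s)) (γ (h t)) ≤ (L1 * (C + 1) + (C + 1)) * dist (γ s) (γ t) := by
    intro s hs t ht
    have k0 : 0 ≤ dist (γ s) (γ t) := dist_nonneg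
    have aux : ∀ e ∈ Icc u v, h e = e → dist (γ s) (γ e) ≤ C * dist (γ s) (γ t) →
        dist (γ (h s)) (γ (h t)) ≤ (L1 * (C + 1) + (C + 1)) * dist (γ s) (γ t) := by
      intro e he hhe k3
      have k1 := h1 s hs e he
      rw [hhe] at k1
      rw [h2 t ht]
      have k4 := dist_triangle (γ (h s)) (γ e) (γ t)
      have k5 := dist_triangle_left (γ e) (γ t) (γ s)
      have k6 : L1 * dist (γ s) (γ e) ≤ L1 * ((C + 1) * dist (γ s) (γ t)) := by gcongr; linarith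
      linarith
    rcases ha s hs t ht with k | k
    · exact aux u ⟨le_rfl, huv⟩ hu k
    · exact aux v ⟨huv, le_rfl⟩ (h2 v ⟨le_rfl, hv⟩) k
  refine ⟨L1 * (C + 1) + (C + 1), by positivity, fun s hs t ht => ?_⟩
  have k0 : 0 ≤ dist (γ s) (γ t) := dist_nonneg
  have k1 : 0 ≤ L1 * C := by positivity
  rcases le_total s v with hse | hse <;> rcases le_total t v with hte | hte
  · exact (h1 s ⟨hs.1, hse⟩ t ⟨ht.1, hte⟩).trans (by gcongr; linarith)
  · exact key s ⟨hs.1, hse⟩ t ⟨hte, ht.2⟩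
  · rw [dist_comm, dist_comm (γ s)]; exact key t ⟨ht.1, hte⟩ s ⟨hse, hs.2⟩
  · rw [h2 s ⟨hse, hs.2⟩, h2 t ⟨hte, ht.2⟩]
    nlinarith

theorem exists_PL {p₁ p₂ p₃ : ℝ} (h12 : p₁ ≤ p₂) (h23 : p₂ ≤ p₃) (f₁ f₂ f₃ : ℝ → ℝ)
    (e1 : f₁ p₁ = f₂ p₁) (e2 : f₂ p₂ = f₃ p₂) (e3 : f₃ p₃ = p₃) :
    ∃ h : ℝ → ℝ, (∀ s, s ≤ p₁ → h s = f₁ s) ∧ (∀ s, p₁ ≤ s → s ≤ p₂ → h s = f₂ s) ∧
      (∀ s, p₂ ≤ s → s ≤ p₃ → h s = f₃ s) ∧ ∀ s, p₃ ≤ s → h s = s := by
  refine ⟨fun s => if s ≤ p₁ then f₁ s else if s ≤ p₂ then f₂ s else if s ≤ p₃ then f₃ s else s,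
    fun s h => by simp [h], fun s h1 h2 => ?_, fun s h1 h2 => ?_, fun s h1 => ?_⟩
  · simp only
    split_ifs with a
    · rw [le_antisymm a h1, e1]
    · rfl
  · simp only
    split_ifs with a b
    · have k1 : s = p₁ := le_antisymm a (h12.trans h1)
      have k2 : s = p₂ := le_antisymm (a.trans h12) h1
      rw [k1, e1, ← k1, k2, e2]
    · rw [le_antisymm b h1, e2]
    · rfl
  · simp only
    split_ifs with a b c
    · have k1 : s = p₁ := le_antisymm a (h12.trans (h23.trans h1))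
      have k2 : s = p₂ := le_antisymm (a.trans h12) (h23.trans h1)
      have k3 : s = p₃ := le_antisymm (a.trans (h12.trans h23)) h1
      rw [k1, e1, ← k1, k2, e2, ← k2, k3, e3]
    · have k2 : s = p₂ := le_antisymm b (h23.trans h1)
      have k3 : s = p₃ := le_antisymm (b.trans h23) h1
      rw [k2, e2, ← k2, k3, e3]
    · rw [le_antisymm c h1, e3]
    · rfl

namespace Model

variable (M : Model)

theorem isPB_id : M.IsPB id 0 := ⟨0, by simp⟩

variable {M} in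
theorem IsPB.lipOn {μ ν h : ℝ → ℝ} {n m : ℕ} (hμ : M.IsPB μ n) (hν : M.IsPB ν m) {x y : ℝ}
    (hl : y - x ≤ M.ε) (e : ∀ u ∈ Icc x y, h (μ u) = ν u) : LipOn M.γ h (Icc (μ x) (μ y)) := by
  obtain ⟨L, hL0, hL⟩ := hμ.le_dist
  refine ⟨L, hL0.le, fun s hs t ht => ?_⟩
  obtain ⟨s', hs', rfl⟩ := hμ.surj hs
  obtain ⟨t', ht', rfl⟩ := hμ.surj ht
  rw [e s' hs', e t' ht']
  exact (hν.dist_le (by rw [abs_le]; constructor <;> linarith [hs'.1, hs'.2, ht'.1, ht'.2])).trans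
    (hL _ _)

theorem exists_bilip : ∃ (h g : ℝ → ℝ) (r : ℝ), MapsTo h (Icc r (r + 1)) (Icc r (r + 1)) ∧
    MapsTo g (Icc r (r + 1)) (Icc r (r + 1)) ∧ (∀ s ∈ Icc r (r + 1), g (h s) = s) ∧
    (∀ s ∈ Icc r (r + 1), h (g s) = s) ∧ LipOn M.γ h (Icc r (r + 1)) ∧
    LipOn M.γ g (Icc r (r + 1)) ∧
    ∃ s ∈ Icc r (r + 1), M.γ s ≠ M.γ r ∧ Tendsto (fun n => h^[n] s) atTop (𝓝 r) := by
  obtain ⟨r₀, r₁, m, hm, hg, hl, ⟨k₀, hk₀⟩, ⟨k₁, hk₁⟩⟩ := M.exists_periodic
  have hΔ := M.two_le_pow hm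
  set Δ : ℝ := (M.D : ℝ) ^ m with hΔdef
  set e : ℝ := 1 / Δ with he
  have heΔ : Δ * e = 1 := by rw [he]; field_simp
  have he0 : 0 < e := by positivity
  have he2 : e ≤ 1 / 2 := by nlinarith
  set μ : ℝ → ℝ := fun u => r₀ + e * (u - r₀) with hμdef
  set ν : ℝ → ℝ := fun u => r₁ + e * (u - r₁) with hνdef
  have hμ : M.IsPB μ m := ⟨k₀, fun u => by
    simp only [hμdef]; rw [← hΔdef, mul_add, hk₀, ← mul_assoc, heΔ]; ring⟩
  have hν : M.IsPB ν m := ⟨k₁, fun u => by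
    simp only [hνdef]; rw [← hΔdef, mul_add, hk₁, ← mul_assoc, heΔ]; ring⟩
  have hμ0 : μ r₀ = r₀ := by simp [hμdef]
  have hν1 : ν r₁ = r₁ := by simp [hνdef]
  have hr := hg.1
  have hr1 := hg.2.1
  obtain ⟨w, hw⟩ : ∃ w, r₁ = r₀ + w := ⟨r₁ - r₀, by ring⟩
  have hw0 : 0 < w := by linarith
  have hew : 0 < e * w := by positivity
  have hew2 : e * w ≤ w / 2 := by nlinarith
  have heew : 0 < e * (e * w) := by positivity
  have heew2 : e * (e * w) ≤ e * w / 2 := by nlinarith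
  have hp1 : ν r₀ = r₀ + w - e * w := by simp only [hνdef, hw]; ring
  have hq2 : μ r₁ = r₀ + e * w := by simp only [hμdef, hw]; ring
  have hp2 : ν (μ r₁) = r₀ + w - e * w + e * (e * w) := by simp only [hμdef, hνdef, hw]; ring
  have hq1 : μ (ν r₀) = r₀ + e * w - e * (e * w) := by simp only [hμdef, hνdef, hw]; ring
  have hAC := M.ac_base hg hl hm hμ hν hμ0 hν1
  have A1 : ACpt M.γ r₀ (μ r₁) r₁ := by
    have := hμ.ac hr.le hg.2.2.1 hAC hl
    rw [hμ0] at this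
    exact M.acpt_of_left hg (by linarith) this
  have A2 : ACpt M.γ r₀ (ν r₀) r₁ := by
    have := hν.ac hr.le hg.2.2.1 hAC hl
    rw [hν1] at this
    exact M.acpt_of_right hg (by linarith) this
  have A3 : ACpt M.γ (ν r₀) (ν (μ r₁)) r₁ := by
    have := hν.acpt A1 (by linarith)
    rwa [hν1] at this
  have A4 : ACpt M.γ r₀ (μ (ν r₀)) (μ r₁) := by
    have := hμ.acpt A2 (by linarith)
    rwa [hμ0] at this
  set c : ℝ := w - 2 * (e * w) + e * (e * w) with hc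
  obtain ⟨h, h1, h2, h3, h4⟩ := exists_PL (p₁ := ν r₀) (p₂ := ν (μ r₁)) (p₃ := r₁) (by linarith)
    (by linarith) μ (fun s => s - c) (fun s => r₁ + Δ * (s - r₁)) (by rw [hq1, hp1, hc]; ring)
    (by rw [hp2, hc, hw]; linear_combination (w - e * w) * heΔ) (by simp)
  obtain ⟨g, g1, g2, g3, g4⟩ := exists_PL (p₁ := μ (ν r₀)) (p₂ := μ r₁) (p₃ := r₁) (by linarith)
    (by linarith) (fun s => r₀ + Δ * (s - r₀)) (fun s => s + c) ν
    (by rw [hq1, hc]; linear_combination (w - e * w) * heΔ) (by rw [hp2, hq2, hc]; ring) hν1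
  have hμinv : ∀ u, r₀ + Δ * (μ u - r₀) = u := fun u => by
    simp only [hμdef]; linear_combination (u - r₀) * heΔ
  have hνinv : ∀ u, r₁ + Δ * (ν u - r₁) = u := fun u => by
    simp only [hνdef]; linear_combination (u - r₁) * heΔ
  have hcomm : ∀ u, ν (μ u) - c = μ (ν u) := fun u => by simp only [hμdef, hνdef, hc, hw]; ring
  have mμ := hμ.strictMono.monotone
  have mν := hν.strictMono.monotone
  -- the four pieces
  have P1 : ∀ u ∈ Icc r₀ (ν r₀), h u = μ u ∧ g (μ u) = u := fun u hu =>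
    ⟨h1 u hu.2, by rw [g1 _ (mμ hu.2), hμinv]⟩
  have P2 : ∀ u ∈ Icc r₀ r₁, h (ν (μ u)) = μ (ν u) ∧ g (μ (ν u)) = ν (μ u) := fun u hu =>
    ⟨by rw [h2 _ (mν (by rw [← hμ0]; exact mμ hu.1)) (mν (mμ hu.2)), hcomm],
     by rw [g2 _ (mμ (mν hu.1)) (mμ (by rw [← hν1]; exact mν hu.2)), ← hcomm]; ring⟩
  have P3 : ∀ u ∈ Icc (μ r₁) r₁, h (ν u) = u ∧ g u = ν u := fun u hu =>
    ⟨by rw [h3 _ (mν hu.1) (by rw [← hν1]; exact mν hu.2), hνinv], g3 u hu.1 hu.2⟩
  have Q1 : ∀ s ∈ Icc r₀ (r₀ + 1), h s ∈ Icc r₀ (r₀ + 1) ∧ g (h s) = s := by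
    intro s hs
    rcases le_total s (ν r₀) with a | a
    · obtain ⟨k1, k2⟩ := P1 s ⟨hs.1, a⟩
      rw [k1, k2]
      have k3 := mμ hs.1
      have k4 := mμ a
      exact ⟨⟨by linarith, by linarith⟩, rfl⟩
    rcases le_total s (ν (μ r₁)) with b | b
    · obtain ⟨u, hu, rfl⟩ := (hν.comp hμ).surj (u := r₀) (v := r₁) (s := s)
        ⟨by simpa [hμ0] using a, b⟩
      obtain ⟨k1, k2⟩ := P2 u hu
      simp only [Function.comp]
      rw [k1, k2]
      have k3 := mμ (mν hu.1)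
      have k4 := mμ (mν hu.2)
      rw [hν1] at k4
      exact ⟨⟨by linarith, by linarith⟩, rfl⟩
    rcases le_total s r₁ with c' | c'
    · obtain ⟨u, hu, rfl⟩ := hν.surj (u := μ r₁) (v := r₁) (s := s) ⟨b, by rwa [hν1]⟩
      obtain ⟨k1, k2⟩ := P3 u hu
      rw [k1, k2]
      exact ⟨⟨by linarith [hu.1], by linarith [hu.2]⟩, rfl⟩
    · rw [h4 s c', g4 s c']; exact ⟨hs, rfl⟩
  have Q2 : ∀ s ∈ Icc r₀ (r₀ + 1), g s ∈ Icc r₀ (r₀ + 1) ∧ h (g s) = s := by
    intro s hs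
    rcases le_total s (μ (ν r₀)) with a | a
    · obtain ⟨u, hu, rfl⟩ := hμ.surj (u := r₀) (v := ν r₀) (s := s) ⟨by rw [hμ0]; exact hs.1, a⟩
      obtain ⟨k1, k2⟩ := P1 u hu
      rw [k2, k1]
      exact ⟨⟨hu.1, by linarith [hu.2]⟩, rfl⟩
    rcases le_total s (μ r₁) with b | b
    · obtain ⟨u, hu, rfl⟩ := (hμ.comp hν).surj (u := r₀) (v := r₁) (s := s)
        ⟨a, by simpa [hν1] using b⟩
      obtain ⟨k1, k2⟩ := P2 u hu
      simp only [Function.comp]
      rw [k2, k1]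
      have k3 := mν (mμ hu.1)
      have k4 := mν (mμ hu.2)
      rw [hμ0] at k3
      exact ⟨⟨by linarith, by linarith⟩, rfl⟩
    rcases le_total s r₁ with c' | c'
    · obtain ⟨k1, k2⟩ := P3 s ⟨b, c'⟩
      rw [k2, k1]
      have k3 := mν b
      have k4 := mν c'
      exact ⟨⟨by linarith, by linarith⟩, rfl⟩
    · rw [g4 s c', h4 s c']; exact ⟨hs, rfl⟩
  refine ⟨h, g, r₀, fun s hs => (Q1 s hs).1, fun s hs => (Q2 s hs).1, fun s hs => (Q1 s hs).2,
    fun s hs => (Q2 s hs).2, ?_, ?_, ν r₀, ⟨by linarith, by linarith⟩, ?_, ?_⟩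
  · have L1 : LipOn M.γ h (Icc r₀ (ν r₀)) :=
      M.isPB_id.lipOn hμ (x := r₀) (y := ν r₀) (by linarith) fun u hu => (P1 u hu).1
    have L2 : LipOn M.γ h (Icc (ν r₀) (ν (μ r₁))) := by
      have := (hν.comp hμ).lipOn (hμ.comp hν) (h := h) hl fun u hu => (P2 u hu).1
      simpa [hμ0] using this
    have L3 : LipOn M.γ h (Icc (ν (μ r₁)) r₁) := by
      have := hν.lipOn M.isPB_id (h := h) (x := μ r₁) (y := r₁) (by linarith)
        fun u hu => (P3 u hu).1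
      rwa [hν1] at this
    refine LipOn.close (L1.glue (L2.glue L3 A3 (by linarith) (by linarith)) A2 (by linarith)
      (by linarith)) (fun t ht => h4 t ht.1) ?_ hAC hr.le hr1
    rw [h1 _ (by linarith), hμ0]
  · have L1 : LipOn M.γ g (Icc r₀ (μ (ν r₀))) := by
      have := hμ.lipOn M.isPB_id (h := g) (x := r₀) (y := ν r₀) (by linarith)
        fun u hu => (P1 u hu).2
      rwa [hμ0] at this
    have L2 : LipOn M.γ g (Icc (μ (ν r₀)) (μ r₁)) := by
      have := (hμ.comp hν).lipOn (hν.comp hμ) (h := g) hl fun u hu => (P2 u hu).2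
      simpa [hν1] using this
    have L3 : LipOn M.γ g (Icc (μ r₁) r₁) :=
      M.isPB_id.lipOn hν (x := μ r₁) (y := r₁) (by linarith) fun u hu => (P3 u hu).2
    refine LipOn.close ((L1.glue L2 A4 (by linarith) (by linarith)).glue L3 A1 (by linarith)
      (by linarith)) (fun t ht => g4 t ht.1) ?_ hAC hr.le hr1
    rw [g1 _ (by linarith)]; simp
  · rw [← M.per r₀]
    exact hg.2.2.1 _ ⟨by linarith, by linarith⟩ _ ⟨hr1, le_rfl⟩
  · have hit : ∀ n : ℕ, h^[n] (ν r₀) = r₀ + (ν r₀ - r₀) * e ^ n := by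
      intro n
      induction n with
      | zero => simp
      | succ n ih =>
        have k1 : e ^ n ≤ 1 := pow_le_one₀ he0.le (by linarith)
        have k2 : (ν r₀ - r₀) * e ^ n ≤ ν r₀ - r₀ := mul_le_of_le_one_right (by linarith) k1
        rw [Function.iterate_succ_apply', ih, h1 _ (by linarith)]
        simp only [hμdef]; ring
    have := ((tendsto_pow_atTop_nhds_zero_of_lt_one he0.le (by linarith)).const_mul
      (ν r₀ - r₀)).const_add r₀
    simpa [hit] using this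

end Model

end Pool.Agent.MP_28f04c_an

end

-- part MP_28f04c_an.Infinite
section

/-!
Infinitely many quasisymmetries of the range of the landing map.
-/

set_option autoImplicit false

open Set Filter Topology Metric

namespace Pool.Agent.MP_28f04c_an

theorem lip_pow {X : Type*} [MetricSpace X] (H : X ≃ₜ X) {L : ℝ} (hL0 : 0 < L)
    (hL : ∀ x y, dist (H x) (H y) ≤ L * dist x y) (hL' : ∀ x y, dist x y ≤ L * dist (H x) (H y))
    (n : ℕ) : (∀ x y, dist ((H ^ n) x) ((H ^ n) y) ≤ L ^ n * dist x y) ∧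
      ∀ x y, dist x y ≤ L ^ n * dist ((H ^ n) x) ((H ^ n) y) := by
  induction n with
  | zero => simp
  | succ n ih =>
    refine ⟨fun x y => ?_, fun x y => ?_⟩
    · rw [pow_succ' H, Homeomorph.mul_apply, Homeomorph.mul_apply, pow_succ' L, mul_assoc]
      exact (hL _ _).trans (by gcongr; exact ih.1 x y)
    · rw [pow_succ' H, Homeomorph.mul_apply, Homeomorph.mul_apply, pow_succ L, mul_assoc]
      exact (ih.2 x y).trans (by gcongr; exact hL' _ _)

theorem Model.infinite_qs (M : Model) (J : Set ℂ) (hJ : J = range M.γ) :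
    Set.Infinite {h : J ≃ₜ J | ∃ η : ℝ → ℝ, η 0 = 0 ∧
          StrictMonoOn η (Set.Ici 0) ∧ ContinuousOn η (Set.Ici 0) ∧
          Tendsto η atTop atTop ∧
          ∀ a x y : J, y ≠ a →
            dist (h x) (h a) ≤ η (dist x a / dist y a) * dist (h y) (h a)} := by
  obtain ⟨h, g, r, hm, gm, hg, gh, ⟨L1, hL1, hL⟩, ⟨L2, hL2, gL⟩, s₀, hs₀, hne, hlim⟩ :=
    M.exists_bilip
  have hmem : ∀ s, M.γ s ∈ J := fun s => hJ ▸ mem_range_self s
  have hsec : ∀ x : J, ∃ s ∈ Icc r (r + 1), M.γ s = x := by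
    intro x
    obtain ⟨s, hs⟩ : (x : ℂ) ∈ range M.γ := hJ ▸ x.2
    obtain ⟨k, hk⟩ := exists_int_mem_Ioc r s
    exact ⟨s + k, ⟨hk.1.le, hk.2⟩, by rw [M.perZ, hs]⟩
  choose sec hsec1 hsec2 using hsec
  set H : J → J := fun x => ⟨M.γ (h (sec x)), hmem _⟩ with hH
  set G : J → J := fun x => ⟨M.γ (g (sec x)), hmem _⟩ with hG
  have hHs : ∀ s ∈ Icc r (r + 1), H ⟨M.γ s, hmem s⟩ = ⟨M.γ (h s), hmem _⟩ := by
    intro s hs
    have := hL _ (hsec1 ⟨M.γ s, hmem s⟩) s hs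
    rw [hsec2, dist_self, mul_zero, dist_le_zero] at this
    exact Subtype.ext this
  have hGs : ∀ s ∈ Icc r (r + 1), G ⟨M.γ s, hmem s⟩ = ⟨M.γ (g s), hmem _⟩ := by
    intro s hs
    have := gL _ (hsec1 ⟨M.γ s, hmem s⟩) s hs
    rw [hsec2, dist_self, mul_zero, dist_le_zero] at this
    exact Subtype.ext this
  have hGH : ∀ x, G (H x) = x := fun x => by
    rw [hH]
    simp only
    rw [hGs _ (hm (hsec1 x))]
    exact Subtype.ext (by simp only; rw [hg _ (hsec1 x), hsec2])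
  have hHG : ∀ x, H (G x) = x := fun x => by
    rw [hG]
    simp only
    rw [hHs _ (gm (hsec1 x))]
    exact Subtype.ext (by simp only; rw [gh _ (hsec1 x), hsec2])
  set L := max (max L1 L2) 1 with hLdef
  have hL0 : 0 < L := by positivity
  have hHL : ∀ x y, dist (H x) (H y) ≤ L * dist x y := fun x y => by
    have := hL _ (hsec1 x) _ (hsec1 y)
    rw [hsec2, hsec2] at this
    exact this.trans (by
      rw [Subtype.dist_eq]; gcongr; exact (le_max_left _ _).trans (le_max_left _ _))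
  have hGL : ∀ x y, dist (G x) (G y) ≤ L * dist x y := fun x y => by
    have := gL _ (hsec1 x) _ (hsec1 y)
    rw [hsec2, hsec2] at this
    exact this.trans (by
      rw [Subtype.dist_eq]; gcongr; exact (le_max_right _ _).trans (le_max_left _ _))
  set Φ : J ≃ₜ J :=
    { toFun := H
      invFun := G
      left_inv := hGH
      right_inv := hHG
      continuous_toFun := (LipschitzWith.of_dist_le_mul (K := ⟨L, hL0.le⟩) hHL).continuous
      continuous_invFun := (LipschitzWith.of_dist_le_mul (K := ⟨L, hL0.le⟩) hGL).continuous }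
    with hΦ
  have hΦH : ∀ x, Φ x = H x := fun _ => rfl
  have hΦn : ∀ n : ℕ, (Φ ^ n) ⟨M.γ s₀, hmem _⟩ = ⟨M.γ (h^[n] s₀), hmem _⟩ := by
    intro n
    induction n with
    | zero => simp
    | succ n ih =>
      rw [pow_succ', Homeomorph.mul_apply, ih, hΦH, hHs _ (hm.iterate n hs₀),
        Function.iterate_succ_apply']
  have hinf : ¬ IsOfFinOrder Φ := by
    rw [isOfFinOrder_iff_pow_eq_one]
    rintro ⟨n, hn, e⟩
    have k1 : ∀ k : ℕ, M.γ (h^[n * k] s₀) = M.γ s₀ := fun k => by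
      have := hΦn (n * k)
      rw [pow_mul, e, one_pow] at this
      exact (congrArg Subtype.val this).symm
    have k2 : Tendsto (fun k : ℕ => M.γ (h^[n * k] s₀)) atTop (𝓝 (M.γ r)) :=
      (M.cont.tendsto r).comp (hlim.comp (tendsto_id.const_mul_atTop' hn))
    simp only [k1] at k2
    exact hne (tendsto_nhds_unique tendsto_const_nhds k2)
  refine Set.infinite_of_injective_forall_mem (injective_pow_iff_not_isOfFinOrder.mpr hinf)
    fun n => ?_
  obtain ⟨k1, k2⟩ := lip_pow Φ hL0 hHL (fun x y => by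
    have := hGL (H x) (H y)
    rwa [hGH, hGH] at this) n
  have hLn : 0 < L ^ n := pow_pos hL0 n
  refine ⟨fun t => L ^ n * L ^ n * t, by simp, fun a _ b _ hab => by simp only; gcongr,
    by fun_prop, tendsto_id.const_mul_atTop (by positivity), fun a x y hy => ?_⟩
  have hd : 0 < dist y a := dist_pos.mpr hy
  calc _ ≤ L ^ n * dist x a := k1 x a
    _ = L ^ n * (dist x a / dist y a) * dist y a := by field_simp
    _ ≤ L ^ n * (dist x a / dist y a) * (L ^ n * dist ((Φ ^ n) y) ((Φ ^ n) a)) := by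
        gcongr; exact k2 y a
    _ = _ := by ring

end Pool.Agent.MP_28f04c_an

end

-- part MP_28f04c_an.Main
section

/-!
The Julia set of a hyperbolic polynomial, when connected, is the range of a model.
-/

set_option autoImplicit false

open Set Filter Topology Metric Complex

namespace Pool.Agent.MP_28f04c_an

theorem exists_model_of_rays {p : Polynomial ℂ} {D : ℕ} (hp : p.natDegree = D) (hD : 2 ≤ D)
    {K : Set ℂ} (hK : IsCompact K) (hi : (interior K).Nonempty) (P : Rays (ev p) D K)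
    (hder : ∀ w ∉ interior K, ev p w ∉ interior K → ‖ev p w‖ ≤ (Real.exp 1 + P.C) / ‖P.c‖ →
      4 ≤ ‖deriv (ev p) w‖) : ∃ M : Model, frontier K = range M.γ := by
  have hc0 := norm_pos_iff.mpr P.hc
  set R₁ := (Real.exp 1 + P.C) / ‖P.c‖ with hR₁
  have hD2 : (2 : ℝ) ≤ D := by exact_mod_cast hD
  obtain ⟨C, hC0, hC⟩ := exists_quad (diff_ev p) (R₁ + 1)
  set δ := min 1 (2 / C) with hδ
  have hδ0 : 0 < δ := lt_min one_pos (by positivity)
  have hexp0 : ∀ x, ‖x‖ ≤ R₁ → 4 ≤ ‖deriv (ev p) x‖ → ∀ y, ‖y - x‖ < δ →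
      2 * ‖y - x‖ ≤ ‖ev p y - ev p x‖ := by
    intro x hx hd y hy
    have h1 : ‖y - x‖ ≤ 1 := hy.le.trans (min_le_left _ _)
    have h2 : C * ‖y - x‖ ≤ 2 := by
      have : ‖y - x‖ ≤ 2 / C := hy.le.trans (min_le_right _ _)
      rwa [le_div_iff₀' hC0] at this
    have hx' : x ∈ closedBall (0 : ℂ) (R₁ + 1) := by
      rw [mem_closedBall, dist_zero_right]; linarith
    have h3 := hC x hx' y (by
      rw [mem_closedBall, dist_zero_right]; linarith [norm_le_norm_add_norm_sub' y x]) x hx'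
    rw [sub_self, norm_zero, max_eq_left (norm_nonneg _)] at h3
    have h4 := norm_le_norm_add_norm_sub (ev p y - ev p x) (deriv (ev p) x * (y - x))
    rw [norm_mul] at h4
    nlinarith [norm_nonneg (y - x)]
  have hbd : ∀ τ θ : ℝ, 0 < τ → τ ≤ 1 → ‖P.Ψ τ θ‖ ≤ R₁ := by
    intro τ θ h1 h2
    rw [hR₁, le_div_iff₀' hc0]
    have k1 := norm_le_norm_add_norm_sub' (P.c * P.Ψ τ θ) (Real.exp τ * ee θ)
    rw [norm_mul, norm_mul, norm_ee, norm_real, Real.norm_of_nonneg (Real.exp_pos _).le,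
      mul_one] at k1
    linarith [P.asym τ θ h1, Real.exp_le_exp.mpr h2]
  have hexp : ∀ τ θ : ℝ, 0 < τ → D * τ ≤ 1 → ∀ y, ‖y - P.Ψ τ θ‖ < δ →
      2 * ‖y - P.Ψ τ θ‖ ≤ ‖ev p y - ev p (P.Ψ τ θ)‖ := by
    intro τ θ h1 h2
    refine hexp0 _ (hbd τ θ h1 (by nlinarith)) (hder _
      (fun h => P.not_mem τ θ h1 (interior_subset h)) ?_ ?_)
    · rw [P.semi τ θ h1]
      exact fun h => P.not_mem _ _ (by positivity) (interior_subset h)
    · rw [P.semi τ θ h1]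
      exact hbd _ _ (by positivity) h2
  obtain ⟨Q, q1, q2, q3⟩ := P.exists_ext hD hδ0 hexp
  let E : Ext (ev p) D K := ⟨P, Q, q1, q2, q3, hD, (diff_ev p).continuous, hK.isClosed⟩
  have hbd0 : ∀ θ, ‖E.Q 0 θ‖ ≤ R₁ := fun θ => by
    rw [hR₁, le_div_iff₀' hc0]
    have k1 : ‖P.c‖ * ‖E.Q 0 θ‖ ≤ Real.exp 0 + P.C := (E.norm_le le_rfl θ).1
    linarith [Real.exp_le_exp.mpr (zero_le_one (α := ℝ))]
  have hder0 : ∀ θ, 4 ≤ ‖deriv (ev p) (E.Q 0 θ)‖ := fun θ =>
    hder _ (E.not_interior θ) (by rw [E.semi0]; exact E.not_interior _)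
      (by rw [E.semi0]; exact hbd0 _)
  have hinj : ∀ (s t : ℝ) (k : ℤ), E.Q 0 s = E.Q 0 t → D * s = D * t + k → ∃ j : ℤ, s = t + j := by
    intro s t k e hk
    have h1 : Tendsto (fun τ => ‖P.Ψ τ t - P.Ψ τ s‖) (𝓝[>] 0) (𝓝 0) := by
      have := ((E.lim t).sub (E.lim s)).norm
      rwa [e, sub_self, norm_zero] at this
    obtain ⟨τ, a1, a2⟩ := ((h1.eventually (gt_mem_nhds hδ0)).and
      (Ioo_mem_nhdsGT (show (0 : ℝ) < 1 / D by positivity))).exists
    have a3 : D * τ ≤ 1 := by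
      have := a2.2
      rw [lt_div_iff₀' (by positivity)] at this
      exact this.le
    have h2 := hexp τ s a2.1 a3 _ a1
    rw [P.semi _ _ a2.1, P.semi _ _ a2.1, hk, P.perZ, sub_self, norm_zero] at h2
    have h3 : P.Ψ τ t = P.Ψ τ s := sub_eq_zero.mp (norm_le_zero_iff.mp (by linarith))
    exact P.inj _ _ _ _ a2.1 a2.1 h3.symm
  obtain ⟨ε, hε, hε'⟩ : ∃ ε, 0 < ε ∧ ∀ s t, |s - t| ≤ ε → dist (E.Q 0 s) (E.Q 0 t) < δ / 2 := by
    have h1 := (isCompact_Icc (a := (-1 : ℝ)) (b := 2)).uniformContinuousOn_of_continuous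
      (E.cont_right 0).continuousOn
    obtain ⟨ε, hε, h2⟩ := Metric.uniformContinuousOn_iff.mp h1 (δ / 2) (by positivity)
    refine ⟨min (ε / 2) 1, by positivity, fun s t h => ?_⟩
    have k1 := abs_le.mp (h.trans (min_le_right _ _))
    have k2 := h.trans (min_le_left _ _)
    have k3 := Int.floor_le s
    have k4 := Int.lt_floor_add_one s
    have := h2 (s + (-⌊s⌋ : ℤ)) ⟨by push_cast; linarith, by push_cast; linarith⟩
      (t + (-⌊s⌋ : ℤ)) ⟨by push_cast; linarith [k1.2], by push_cast; linarith [k1.1]⟩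
      (by rw [Real.dist_eq, add_sub_add_right_eq_sub]; linarith)
    rwa [per_int E.per0, per_int E.per0] at this
  refine ⟨⟨E.Q 0, ev p, D, δ, min ε (1 / D), hD, hδ0, by positivity, ?_, E.cont_right 0, E.per0,
    E.semi0, diff_ev p, fun s t h => hε' s t (h.trans (min_le_left _ _)), fun s t h => ?_,
    fun s => by linarith [hder0 s], hinj, fun s t e => ?_, E.unlinked, E.good hK hi⟩,
    E.frontier_eq⟩
  · have : min ε (1 / D) ≤ 1 / (D : ℝ) := min_le_right _ _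
    rwa [le_div_iff₀' (by positivity)] at this
  · rw [dist_eq_norm] at h
    rw [dist_eq_norm, dist_eq_norm, ← E.semi0, ← E.semi0]
    exact hexp0 _ (hbd0 t) (hder0 t) _ h
  · have hD0 : (D : ℝ) ≠ 0 := by positivity
    have hm : ∀ j : Fin D, (D : ℝ) * ((t + (j : ℕ)) / D) = t + ((j : ℕ) : ℤ) := fun j => by
      push_cast; field_simp
    obtain ⟨h1, -⟩ := count_roots (v := E.Q 0 t) (g := fun j : Fin D => E.Q 0 ((t + (j : ℕ)) / D))
      hp (by omega) (fun j k e => by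
        obtain ⟨l, hl⟩ := hinj _ _ (((j : ℕ) : ℤ) - ((k : ℕ) : ℤ)) e
          (by rw [hm, hm]; push_cast; ring)
        have k1 : ((j : ℕ) : ℝ) = (k : ℕ) + D * l := by
          field_simp at hl; linarith
        have k2 : ((j : ℕ) : ℤ) = (k : ℕ) + D * l := by exact_mod_cast k1
        have k3 := j.2
        have k4 := k.2
        have k5 : l = 0 := by
          rcases lt_trichotomy l 0 with h | h | h
          · nlinarith
          · exact h
          · nlinarith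
        rw [k5] at k2
        exact Fin.ext (by omega))
      (fun j => by
        change ev p _ = _
        rw [E.semi0, hm, per_int E.per0])
    obtain ⟨j, hj⟩ := h1 (E.Q 0 s) (by change ev p _ = _; rw [E.semi0, e])
    exact ⟨_, hj, _, hm j⟩

theorem exists_model {f : Polynomial ℂ} (hd : 2 ≤ f.natDegree)
    (hPC : Disjoint (closure (PC f)) (frontier (KK f))) (hJ : IsConnected (frontier (KK f))) :
    ∃ M : Model, frontier (KK f) = range M.γ := by
  obtain ⟨R, hR⟩ := exists_esc hd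
  obtain ⟨⟨P⟩, hcrit⟩ := exists_rays hd hJ
  obtain ⟨N, hN, hexp⟩ := exists_expanding hcrit hR hPC ((Real.exp 1 + P.C) / ‖P.c‖)
  obtain ⟨P', h1, h2⟩ := P.iterate (by omega) N
  rw [← h1, ← h2] at hexp
  have hi : (interior (KK f)).Nonempty := by
    obtain ⟨c, hc⟩ := IsAlgClosed.exists_root f.derivative (by
      rw [Polynomial.degree_eq_natDegree, Polynomial.natDegree_derivative]
      · exact_mod_cast (show f.natDegree - 1 ≠ 0 by omega)
      · intro h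
        have := Polynomial.derivative_eq_zero.mp h
        omega)
    refine ⟨c, ?_⟩
    by_contra hc'
    refine hPC.ne_of_mem (subset_closure (mem_biUnion hc ⟨0, rfl⟩)) ?_ rfl
    rw [hR.isClosed.frontier_eq]
    refine ⟨?_, hc'⟩
    by_contra hK
    exact hcrit c hK hc
  revert P'
  rw [← ev_itP]
  intro P' hexp _ _
  refine exists_model_of_rays (itP_natDegree f N) ?_ hR.isCompact hi P' hexp
  calc 2 ≤ f.natDegree ^ 1 := by simpa using hd
    _ ≤ _ := Nat.pow_le_pow_right (by omega) hN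

end Pool.Agent.MP_28f04c_an

end
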